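import Pool.Agent.Lib.MP_e1e800_lc_UB.Defs
import Pool.Agent.Lib.MP_e1e800_lc_INJ.Aut

/-!
# MP_e1e800_lc, project UB: the system of a partial automaton
-/

namespace MortUB

open Finset MPe1e800 MPe1e800INJ

variable {Q A : Type} [DecidableEq Q]

/-- The abstract system of a partial automaton. -/
noncomputable def sysOf (δ : Q → A → Option Q) (hm : ∃ w : List A, Mortal δ w) : Sys Q A where
  σ x q := (δ q x).getD q
  kl x q := δ q x = none
  V S := cost δ (S : Set Q)
  mono S T h := cost_mono hm _ _ (by exact_mod_cast h)
  empty := by
    have := cost_le (δ := δ) (S := (∅ : Set Q)) (w := []) (by simp)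
    simpa using this
  pos q := by simpa using cost_single_pos hm q
  step x S := by
    have := cost_step hm x (fun q => (δ q x).getD q) (fun p r h => by simp [h]) (S : Set Q)
    simpa using this
  kill x q S h := by
    have := cost_kill hm x (fun q => (δ q x).getD q) (fun p r h => by simp [h]) q h (S : Set Q)
    simpa using this
  greedy q := by
    obtain ⟨x, w, hw, hl⟩ := exists_label hm q
    refine ⟨x, ?_⟩
    cases hx : δ q x with
    | none => exact Or.inl rfl
    | some r =>
      right
      rw [run_cons_some δ q r x w hx] at hw
      have h1 : cost δ {r} ≤ w.length := cost_le (by simpa using hw)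
      have h2 := cost_step hm x (fun q => (δ q x).getD q) (fun p r h => by simp [h]) ({q} : Set Q)
      simp only [Set.image_singleton, hx, Option.getD_some] at h2
      simp only [Option.getD_some, coe_singleton]
      omega

theorem sysOf_V (δ : Q → A → Option Q) (hm : ∃ w : List A, Mortal δ w) (S : Finset Q) :
    (sysOf δ hm).V S = cost δ (S : Set Q) := rfl

end MortUB
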