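import Pool.Agent.Lib.MP_e1e800_lc_UB.Defs

/-!
# MP_e1e800_lc, project UB: the basic rules
-/

namespace MortUB

open Finset

variable {Q A : Type} [DecidableEq Q] (M : Sys Q A)

theorem Sys.mv_nil (q : Q) : M.mv [] q = q := rfl

theorem Sys.mv_cons (x : A) (w : List A) (q : Q) : M.mv (x :: w) q = M.mv w (M.σ x q) := rfl

theorem Sys.mv_append (v w : List A) (q : Q) : M.mv (v ++ w) q = M.mv w (M.mv v q) := by
  unfold Sys.mv
  rw [List.foldl_append]

theorem Sys.mv_replicate (a : A) (j : ℕ) (q : Q) :
    M.mv (List.replicate j a) q = (M.σ a)^[j] q := by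
  induction j generalizing q with
  | zero => rfl
  | succ j ih => rw [List.replicate_succ, Sys.mv_cons, ih, Function.iterate_succ_apply]

theorem Sys.V_mv (w : List A) (S : Finset Q) :
    M.V S ≤ w.length + M.V (S.image (M.mv w)) := by
  induction w generalizing S with
  | nil =>
    have : S.image (M.mv []) = S := by
      have e : M.mv [] = id := by funext q; rfl
      rw [e, image_id]
    rw [this]; simp
  | cons x w ih =>
    have h1 := M.step x S
    have h2 := ih (S.image (M.σ x))
    rw [image_image] at h2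
    have e : M.mv w ∘ M.σ x = M.mv (x :: w) := by funext q; rfl
    rw [e] at h2
    rw [List.length_cons]
    omega

theorem Sys.le_step (x : A) (q : Q) : M.V {q} ≤ M.V {M.σ x q} + 1 := by
  have := M.step x {q}
  rw [image_singleton] at this
  omega

theorem Sys.df_add (x : A) (S : Finset Q) :
    M.df x S + M.V S = 1 + M.V (S.image (M.σ x)) := by
  have := M.step x S
  unfold Sys.df
  omega

theorem Sys.kl_one (x : A) (q : Q) (h : M.kl x q) : M.V {q} = 1 := by
  have h1 := M.kill x q ∅ h
  have h2 := M.pos q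
  rw [image_empty, M.empty] at h1
  have e : insert q (∅ : Finset Q) = {q} := rfl
  rw [e] at h1
  omega

theorem Sys.kill_word (q : Q) : ∃ w : List A, w.length = M.V {q} ∧
    ∀ S : Finset Q, M.V (insert q S) ≤ w.length + M.V (S.image (M.mv w)) := by
  induction hn : M.V {q} using Nat.strong_induction_on generalizing q with
  | _ n ih =>
    obtain ⟨x, hx⟩ := M.greedy q
    rcases hx with hx | hx
    · refine ⟨[x], ?_, ?_⟩
      · rw [← hn, M.kl_one x q hx]; rfl
      · intro S
        have := M.kill x q S hx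
        have e : M.mv [x] = M.σ x := by funext q; rfl
        rw [e]
        simpa using this
    · obtain ⟨w, hw, hS⟩ := ih (M.V {M.σ x q}) (by omega) (M.σ x q) rfl
      refine ⟨x :: w, ?_, ?_⟩
      · rw [List.length_cons, hw]; omega
      · intro S
        have h1 := M.step x (insert q S)
        rw [image_insert] at h1
        have h2 := hS (S.image (M.σ x))
        rw [image_image] at h2
        have e : M.mv w ∘ M.σ x = M.mv (x :: w) := by funext q; rfl
        rw [e] at h2
        rw [List.length_cons]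
        omega

/-- All smaller heights are attained. -/
theorem Sys.attain (q : Q) (i : ℕ) (h1 : 1 ≤ i) (h2 : i ≤ M.V {q}) : ∃ p, M.V {p} = i := by
  induction hk : M.V {q} - i generalizing q with
  | zero => exact ⟨q, by omega⟩
  | succ k ih =>
    obtain ⟨x, hx⟩ := M.greedy q
    rcases hx with hx | hx
    · have := M.kl_one x q hx
      omega
    · exact ih (M.σ x q) (by omega) (by omega)

variable [Fintype Q]

theorem Sys.attain_card (k : ℕ) (q : Q) (hq : k ≤ M.V {q}) (j : ℕ) (hj1 : 1 ≤ j) :
    k + 1 - j ≤ (univ.filter fun q : Q => j ≤ M.V {q} ∧ M.V {q} ≤ k).card := by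
  classical
  have hne : Nonempty Q := ⟨q⟩
  have h : ∀ i ∈ Icc j k, ∃ p, M.V {p} = i := by
    intro i hi
    rw [mem_Icc] at hi
    exact M.attain q i (by omega) (by omega)
  choose! f hf using h
  have hinj : Set.InjOn f (Icc j k : Finset ℕ) := by
    intro a ha b hb hab
    rw [← hf a ha, ← hf b hb, hab]
  have hsub : (Icc j k).image f ⊆ univ.filter fun q : Q => j ≤ M.V {q} ∧ M.V {q} ≤ k := by
    intro p hp
    rw [mem_image] at hp
    obtain ⟨i, hi, rfl⟩ := hp
    rw [mem_filter, hf i hi]
    rw [mem_Icc] at hi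
    exact ⟨mem_univ _, hi⟩
  have := card_le_card hsub
  rw [card_image_of_injOn hinj, Nat.card_Icc] at this
  exact this

theorem Sys.cnt (j : ℕ) (hj : j ≤ Fintype.card Q + 1) :
    (univ.filter fun q : Q => j ≤ M.V {q}).card + j ≤ Fintype.card Q + 1 := by
  classical
  rcases (univ.filter fun q : Q => j ≤ M.V {q}).eq_empty_or_nonempty with h | ⟨q, hq⟩
  · rw [h, card_empty]; omega
  · rw [mem_filter] at hq
    have h1 := M.attain_card (j - 1) q (by omega) 1 le_rfl
    have hd : Disjoint (univ.filter fun q : Q => j ≤ M.V {q})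
        (univ.filter fun q : Q => 1 ≤ M.V {q} ∧ M.V {q} ≤ j - 1) := by
      rw [disjoint_filter]
      intro p _ hp hp2
      have := M.pos p
      omega
    have h2 := card_le_univ ((univ.filter fun q : Q => j ≤ M.V {q}) ∪
        (univ.filter fun q : Q => 1 ≤ M.V {q} ∧ M.V {q} ≤ j - 1))
    rw [card_union_of_disjoint hd] at h2
    omega

theorem Sys.h_le (q : Q) : M.V {q} ≤ Fintype.card Q := by
  by_contra h
  rw [not_le] at h
  have h1 := M.cnt (Fintype.card Q + 1) le_rfl
  have h2 : 0 < (univ.filter fun q : Q => Fintype.card Q + 1 ≤ M.V {q}).card :=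
    card_pos.2 ⟨q, by rw [mem_filter]; exact ⟨mem_univ _, h⟩⟩
  omega

theorem Sys.V_le (S : Finset Q) : M.V S ≤ Fintype.card Q * S.card := by
  induction hn : S.card using Nat.strong_induction_on generalizing S with
  | _ n ih =>
    rcases S.eq_empty_or_nonempty with h | ⟨q, hq⟩
    · rw [h, M.empty]; exact Nat.zero_le _
    · obtain ⟨w, hw, hS⟩ := M.kill_word q
      have h1 := hS (S.erase q)
      rw [insert_erase hq, hw] at h1
      have h2 : ((S.erase q).image (M.mv w)).card ≤ n - 1 := by
        have := card_image_le (s := S.erase q) (f := M.mv w)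
        rw [card_erase_of_mem hq, hn] at this
        exact this
      have hpos : 0 < S.card := card_pos.2 ⟨q, hq⟩
      have h3 := ih _ (by omega) ((S.erase q).image (M.mv w)) rfl
      have h4 := M.h_le q
      have h5 : Fintype.card Q * ((S.erase q).image (M.mv w)).card ≤
          Fintype.card Q * (n - 1) := Nat.mul_le_mul_left _ h2
      have h6 : Fintype.card Q * n = Fintype.card Q * (n - 1) + Fintype.card Q := by
        obtain ⟨m, rfl⟩ : ∃ m, n = m + 1 := ⟨n - 1, by omega⟩
        simp [Nat.mul_succ]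
      omega

theorem Sys.layer (f : ℕ → ℕ) : ∑ q : Q, ∑ j ∈ Icc 1 (M.V {q}), f j =
    ∑ j ∈ Icc 1 (Fintype.card Q), f j * (univ.filter fun q : Q => j ≤ M.V {q}).card := by
  have h1 : ∀ q : Q, ∑ j ∈ Icc 1 (M.V {q}), f j =
      ∑ j ∈ Icc 1 (Fintype.card Q), if j ≤ M.V {q} then f j else 0 := by
    intro q
    rw [← sum_filter]
    apply sum_congr _ (fun _ _ => rfl)
    ext j
    rw [mem_filter, mem_Icc, mem_Icc]
    have := M.h_le q
    omega
  rw [sum_congr rfl (fun q _ => h1 q), sum_comm]
  apply sum_congr rfl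
  intro j _
  rw [← sum_filter, sum_const, smul_eq_mul, mul_comm]

theorem Sys.sum_h : 2 * ∑ q : Q, M.V {q} ≤ Fintype.card Q * (Fintype.card Q + 1) := by
  have h1 := M.layer (fun _ => 1)
  simp only [sum_const, Nat.card_Icc, smul_eq_mul, mul_one, one_mul, add_tsub_cancel_right] at h1
  rw [h1]
  have h2 : ∀ j ∈ Icc 1 (Fintype.card Q), (univ.filter fun q : Q => j ≤ M.V {q}).card ≤
      Fintype.card Q + 1 - j := by
    intro j hj
    rw [mem_Icc] at hj
    have := M.cnt j (by omega)
    omega
  have h3 := sum_le_sum h2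
  have h4 : ∀ n : ℕ, 2 * ∑ j ∈ Icc 1 n, (n + 1 - j) = n * (n + 1) := by
    intro n
    have e : ∑ j ∈ Icc 1 n, (n + 1 - j) = ∑ j ∈ Icc 1 n, j := by
      apply sum_nbij' (fun j => n + 1 - j) (fun j => n + 1 - j)
      all_goals
        intro j hj
        rw [mem_Icc] at hj
      · rw [mem_Icc]; omega
      · rw [mem_Icc]; omega
      · show n + 1 - (n + 1 - j) = j
        omega
      · show n + 1 - (n + 1 - j) = j
        omega
    rw [e]
    have := Finset.sum_range_id_mul_two (n + 1)
    have e2 : ∑ j ∈ Icc 1 n, j = ∑ j ∈ range (n + 1), j := by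
      rw [range_eq_Ico, sum_eq_sum_Ico_succ_bot (by omega)]
      simp
      rfl
    rw [e2, mul_comm, this]
    simp [mul_comm]
  have := h4 (Fintype.card Q)
  omega

theorem Sys.sum_h2 : 6 * ∑ q : Q, M.V {q} ^ 2 ≤
    Fintype.card Q * (Fintype.card Q + 1) * (2 * Fintype.card Q + 1) := by
  have h0 : ∀ k : ℕ, ∑ j ∈ Icc 1 k, (2 * j - 1) = k ^ 2 := by
    intro k
    induction k with
    | zero => simp
    | succ k ih =>
      rw [sum_Icc_succ_top (by omega), ih]
      have : 2 * (k + 1) - 1 = 2 * k + 1 := by omega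
      rw [this]; ring
  have h1 := M.layer (fun j => 2 * j - 1)
  simp only [h0] at h1
  rw [h1]
  have h2 : ∀ j ∈ Icc 1 (Fintype.card Q), (2 * j - 1) *
      (univ.filter fun q : Q => j ≤ M.V {q}).card ≤ (2 * j - 1) * (Fintype.card Q + 1 - j) := by
    intro j hj
    rw [mem_Icc] at hj
    have := M.cnt j (by omega)
    exact Nat.mul_le_mul_left _ (by omega)
  have h3 := sum_le_sum h2
  have h4 : ∀ n : ℕ, 6 * ∑ j ∈ Icc 1 n, ((2 * j - 1) * (n + 1 - j)) = n * (n + 1) * (2 * n + 1) := by
    intro n
    induction n with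
    | zero => simp
    | succ n ih =>
      rw [sum_Icc_succ_top (by omega)]
      have e : ∀ j ∈ Icc 1 n, (2 * j - 1) * (n + 1 + 1 - j) =
          (2 * j - 1) * (n + 1 - j) + (2 * j - 1) := by
        intro j hj
        rw [mem_Icc] at hj
        have : n + 1 + 1 - j = (n + 1 - j) + 1 := by omega
        rw [this, Nat.mul_succ]
      rw [sum_congr rfl e, sum_add_distrib, h0]
      have e2 : (2 * (n + 1) - 1) * (n + 1 + 1 - (n + 1)) = 2 * n + 1 := by
        have : n + 1 + 1 - (n + 1) = 1 := by omega
        rw [this]; omega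
      rw [e2, mul_add, mul_add, ih]
      ring
  have := h4 (Fintype.card Q)
  omega

/-- If some state has height at least `n - β` then at most `β + 1` states have height `1`. -/
theorem Sys.cnt_one (β : ℕ) (ht : ∃ q, Fintype.card Q ≤ M.V {q} + β) :
    (univ.filter fun q : Q => M.V {q} ≤ 1).card ≤ β + 1 := by
  classical
  obtain ⟨q, hq⟩ := ht
  have h1 := M.attain_card (M.V {q}) q le_rfl 2 (by omega)
  have hd : Disjoint (univ.filter fun q : Q => M.V {q} ≤ 1)
      (univ.filter fun p : Q => 2 ≤ M.V {p} ∧ M.V {p} ≤ M.V {q}) := by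
    rw [disjoint_filter]
    intro p _ hp hp2
    omega
  have h2 := card_le_univ ((univ.filter fun q : Q => M.V {q} ≤ 1) ∪
    (univ.filter fun p : Q => 2 ≤ M.V {p} ∧ M.V {p} ≤ M.V {q}))
  rw [card_union_of_disjoint hd] at h2
  omega

end MortUB
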