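import Pool.Agent.Lib.MP_e1e800_lc_UB.NearL

/-!
# MP_e1e800_lc, project UB: tuples, upper bound
-/

namespace MortUB

open Finset

variable {Q A : Type} [DecidableEq Q] [Fintype Q] {M : Sys Q A} {β W0 : ℕ}

/-- The sum over the `K+1`-tuples, first coordinate separated. -/
theorem tup_cons (K : ℕ) : ∑ R : Fin (K + 1) → Q, (M.V (univ.image R) : ℝ) =
    ∑ q : Q, ∑ R : Fin K → Q, (M.V (insert q (univ.image R)) : ℝ) := by
  rw [← Fintype.sum_prod_type']
  symm
  apply Fintype.sum_equiv (Fin.consEquiv (fun _ : Fin (K + 1) => Q))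
  rintro ⟨q, R⟩
  have : univ.image (Fin.consEquiv (fun _ : Fin (K + 1) => Q) (q, R)) =
      insert q (univ.image R) := by
    ext p
    simp only [Fin.consEquiv, Equiv.coe_fn_mk, mem_image, mem_univ, true_and, mem_insert]
    constructor
    · rintro ⟨i, rfl⟩
      refine Fin.cases ?_ ?_ i
      · left; simp
      · intro j; right; exact ⟨j, by simp⟩
    · rintro (rfl | ⟨j, rfl⟩)
      · exact ⟨0, by simp⟩
      · exact ⟨j.succ, by simp⟩
  rw [this]

theorem V_image_le (K : ℕ) (R : Fin K → Q) :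
    (M.V (univ.image R) : ℝ) ≤ K * Fintype.card Q := by
  have h1 := M.V_le (univ.image R)
  have h2 : (univ.image R).card ≤ K := by
    have := card_image_le (s := (univ : Finset (Fin K))) (f := R)
    rwa [card_univ, Fintype.card_fin] at this
  have h3 := Nat.mul_le_mul_left (Fintype.card Q) h2
  have : M.V (univ.image R) ≤ K * Fintype.card Q := by
    rw [mul_comm K]; omega
  exact_mod_cast this

/-- The sum of the costs of the tuples which contain a given state. -/
theorem tup_one (h : Near M β W0) (hW : Fintype.card Q ≤ W0) (K : ℕ) (q : Q) :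
    ∑ R : Fin K → Q, (M.V (insert q (univ.image R)) : ℝ) ≤
      (Fintype.card Q : ℝ) ^ K * M.V {q} + ∑ R : Fin K → Q, (M.V (univ.image R) : ℝ) +
        K ^ 2 * β * (Fintype.card Q : ℝ) ^ K := by
  obtain ⟨w, hw, hS⟩ := M.kill_word q
  have hw' : w.length ≤ W0 := by rw [hw]; exact (M.h_le q).trans hW
  have e1 : ∀ R : Fin K → Q, (M.V (insert q (univ.image R)) : ℝ) ≤
      M.V {q} + (M.V (univ.image fun i => M.mv w (R i)) : ℝ) := by
    intro R
    have := hS (univ.image R)
    rw [image_image, hw] at this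
    exact_mod_cast this
  have e2 := sum_le_sum fun (R : Fin K → Q) (_ : R ∈ univ) => e1 R
  rw [sum_add_distrib, sum_const, nsmul_eq_mul, card_univ, Fintype.card_fun, Fintype.card_fin] at e2
  have e3 := h.sum_tup_le w hw' K (fun R => (M.V (univ.image R) : ℝ)) (K * Fintype.card Q)
    (fun R => Nat.cast_nonneg _) (fun R => V_image_le K R)
  have e4 : (K : ℝ) * β * (Fintype.card Q : ℝ) ^ (K - 1) * (K * Fintype.card Q) =
      K ^ 2 * β * (Fintype.card Q : ℝ) ^ K := by
    rcases K with _ | K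
    · simp
    · rw [Nat.add_sub_cancel, pow_succ (Fintype.card Q : ℝ) K]
      ring
  rw [e4] at e3
  push_cast at e2
  have e5 : ∑ R : Fin K → Q, (M.V (univ.image fun i => M.mv w (R i)) : ℝ) ≤
      ∑ R : Fin K → Q, (M.V (univ.image R) : ℝ) + K ^ 2 * β * (Fintype.card Q : ℝ) ^ K := e3
  linarith

/-- TUPUP -/
theorem tup_up (h : Near M β W0) (hW : Fintype.card Q ≤ W0) (K : ℕ) :
    ∑ R : Fin K → Q, (M.V (univ.image R) : ℝ) ≤
      (Fintype.card Q : ℝ) ^ K * ((K : ℝ) * Fintype.card Q / 2 + 2 * K ^ 3 * β) := by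
  have hβ : (1 : ℝ) ≤ β := by exact_mod_cast h.one
  have hn : (0 : ℝ) ≤ Fintype.card Q := Nat.cast_nonneg _
  have key : ∀ K : ℕ, ∑ R : Fin K → Q, (M.V (univ.image R) : ℝ) ≤
      (Fintype.card Q : ℝ) ^ K * ((K : ℝ) * (Fintype.card Q + 1) / 2 + K ^ 3 * β) := by
    intro K
    induction K with
    | zero => simp [M.empty]
    | succ K ih =>
      rw [tup_cons]
      have e1 : ∑ q : Q, ∑ R : Fin K → Q, (M.V (insert q (univ.image R)) : ℝ) ≤
          ∑ q : Q, ((Fintype.card Q : ℝ) ^ K * M.V {q} +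
            ∑ R : Fin K → Q, (M.V (univ.image R) : ℝ) +
            K ^ 2 * β * (Fintype.card Q : ℝ) ^ K) := sum_le_sum fun q _ => tup_one h hW K q
      rw [sum_add_distrib, sum_add_distrib, sum_const, sum_const, nsmul_eq_mul, nsmul_eq_mul,
        card_univ, ← mul_sum] at e1
      have e2 : 2 * ∑ q, (M.V {q} : ℝ) ≤ (Fintype.card Q : ℝ) * (Fintype.card Q + 1) := by
        exact_mod_cast M.sum_h
      have e3 : (Fintype.card Q : ℝ) ^ K * ∑ q, (M.V {q} : ℝ) ≤
          (Fintype.card Q : ℝ) ^ K * ((Fintype.card Q : ℝ) * (Fintype.card Q + 1) / 2) :=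
        mul_le_mul_of_nonneg_left (by linarith) (by positivity)
      have e4 := mul_le_mul_of_nonneg_left ih hn
      have e5 : (K : ℝ) ^ 3 + K ^ 2 ≤ ((K + 1 : ℕ) : ℝ) ^ 3 := by
        push_cast
        have : (0 : ℝ) ≤ K := Nat.cast_nonneg _
        nlinarith [sq_nonneg (K : ℝ)]
      have e6 : (Fintype.card Q : ℝ) ^ (K + 1) * β * ((K : ℝ) ^ 3 + K ^ 2) ≤
          (Fintype.card Q : ℝ) ^ (K + 1) * β * (((K + 1 : ℕ) : ℝ) ^ 3) :=
        mul_le_mul_of_nonneg_left e5 (by positivity)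
      have e7 : (Fintype.card Q : ℝ) ^ (K + 1) = (Fintype.card Q : ℝ) ^ K * Fintype.card Q :=
        pow_succ _ _
      push_cast at e6 ⊢
      rw [e7] at e6 ⊢
      nlinarith
  refine (key K).trans ?_
  apply mul_le_mul_of_nonneg_left _ (by positivity)
  have hK : (K : ℝ) ≤ K ^ 3 := by
    rcases K with _ | K
    · simp
    · have : (1 : ℝ) ≤ ((K + 1 : ℕ) : ℝ) := by push_cast; linarith [(Nat.cast_nonneg K : (0 : ℝ) ≤ K)]
      nlinarith [sq_nonneg (((K + 1 : ℕ) : ℝ) - 1)]
  have : (K : ℝ) ^ 3 ≤ K ^ 3 * β := by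
    have : (0 : ℝ) ≤ (K : ℝ) ^ 3 := by positivity
    nlinarith
  have hK0 : (0 : ℝ) ≤ K := Nat.cast_nonneg _
  linarith

end MortUB
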