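import Pool.Agent.Lib.MP_e1e800_lc_UB.TupLow
import Pool.Agent.Lib.MP_e1e800_lc_UB.TupUp

/-!
# MP_e1e800_lc, project UB: leaders and companions
-/

namespace MortUB

open Finset

variable {Q A : Type} [DecidableEq Q] [Fintype Q] {M : Sys Q A} {β W0 : ℕ}

theorem sum_pi_image (k : ℕ) (B : Finset Q) (g : Q → Q) (hg : Set.InjOn g (B : Set Q))
    (f : (Fin k → Q) → ℝ) :
    ∑ R ∈ Fintype.piFinset (fun _ : Fin k => B), f (fun i => g (R i)) =
      ∑ R ∈ Fintype.piFinset (fun _ : Fin k => B.image g), f R := by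
  apply sum_nbij (fun R i => g (R i))
  · intro R hR
    rw [Fintype.mem_piFinset] at hR ⊢
    intro i
    exact mem_image_of_mem _ (hR i)
  · intro R hR R' hR' he
    rw [mem_coe, Fintype.mem_piFinset] at hR hR'
    funext i
    exact hg (hR i) (hR' i) (congrFun he i)
  · intro R hR
    rw [mem_coe, Fintype.mem_piFinset] at hR
    have : ∀ i, ∃ q ∈ B, g q = R i := by
      intro i
      have := hR i
      rwa [mem_image] at this
    choose f' hf1 hf2 using this
    refine ⟨f', ?_, ?_⟩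
    · rw [mem_coe, Fintype.mem_piFinset]
      exact hf1
    · funext i
      exact hf2 i
  · intro R _
    rfl

/-- Telescoping along the path. -/
theorem lead_tel (P : Path M) (T : ℕ) (hT : T ≤ P.L) (S0 : Finset Q) (d : ℕ) (hd : d + 1 ≤ T) :
    M.V (insert (P.ρ T) S0) + ∑ τ ∈ Icc (T - d + 1) T,
      M.df (P.y τ) (insert (P.ρ τ) (S0.image (M.mv (P.wd T τ)))) =
    d + M.V (insert (P.ρ (T - d)) (S0.image (M.mv (P.wd T (T - d))))) := by
  induction d with
  | zero =>
    have e : Icc (T - 0 + 1) T = ∅ := Icc_eq_empty (by omega)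
    have e2 : M.mv (P.wd T (T - 0)) = id := by
      rw [Nat.sub_zero, P.wd_self]
      rfl
    rw [e, sum_empty, e2, image_id, Nat.sub_zero]
    omega
  | succ d ih =>
    have ih' := ih (by omega)
    have e1 : Icc (T - (d + 1) + 1) T = insert (T - d) (Icc (T - d + 1) T) := by
      ext x
      rw [mem_insert, mem_Icc, mem_Icc]
      omega
    have e2 : T - d ∉ Icc (T - d + 1) T := by
      rw [mem_Icc]; omega
    rw [e1, sum_insert e2]
    have h1 := M.df_add (P.y (T - d)) (insert (P.ρ (T - d)) (S0.image (M.mv (P.wd T (T - d)))))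
    obtain ⟨u, hu⟩ : ∃ u, T - d = u + 1 := ⟨T - d - 1, by omega⟩
    have hu' : T - (d + 1) = u := by omega
    rw [image_insert, image_image] at h1
    have e3 : M.σ (P.y (T - d)) (P.ρ (T - d)) = P.ρ u := by
      rw [hu]
      exact P.nxt u (by omega) (by omega)
    have e4 : M.σ (P.y (T - d)) ∘ M.mv (P.wd T (T - d)) = M.mv (P.wd T u) := by
      funext q
      rw [P.wd_append T (T - d) u (by omega) (by omega), M.mv_append]
      have : P.wd (T - d) u = [P.y (T - d)] := by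
        rw [hu, P.wd_succ u u le_rfl, P.wd_self]
      rw [this]
      rfl
    rw [e3, e4] at h1
    rw [hu']
    omega

theorem lead_num (n β κ' e k : ℝ) (hn : 0 ≤ n) (hβ : 1 ≤ β) (hκ' : 1 ≤ κ') (hκn : κ' ≤ n)
    (hk : 0 ≤ k) :
    n * (1 / 2 + β + 2 * k ^ 3 * β + k ^ 2 * β + e) / κ' + k * β ≤
      n * (e + 6 * (k + 1) ^ 3 * β) / κ' := by
  have h1 : k * β ≤ n * (k * β) / κ' := by
    rw [le_div_iff₀ (by linarith)]
    have := mul_le_mul_of_nonneg_right hκn (by positivity : 0 ≤ k * β)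
    linarith
  have h2 : n * (1 / 2 + β + 2 * k ^ 3 * β + k ^ 2 * β + e) / κ' + n * (k * β) / κ' =
      n * (1 / 2 + β + 2 * k ^ 3 * β + k ^ 2 * β + k * β + e) / κ' := by ring
  have h3 : n * (1 / 2 + β + 2 * k ^ 3 * β + k ^ 2 * β + k * β + e) / κ' ≤
      n * (e + 6 * (k + 1) ^ 3 * β) / κ' := by
    apply div_le_div_of_nonneg_right _ (by linarith)
    apply mul_le_mul_of_nonneg_left _ hn
    have : 0 ≤ k ^ 3 * β := by positivity
    have : 0 ≤ k ^ 2 * β := by positivity
    have : 0 ≤ k * β := by positivity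
    nlinarith
  linarith

/-- LEADER -/
theorem leader (h : Near M β W0) (P : Path M) (ht : Fintype.card Q ≤ M.V {P.ρ P.L} + β)
    (k : ℕ) (hW : (k + 1) * Fintype.card Q ≤ W0) (κ κ' t : ℕ) (ht1 : 1 ≤ t) (hκ : 2 ≤ κ)
    (hκβ : β ≤ κ) (hκn : 4 * κ ≤ Fintype.card Q) (hκ' : 1 ≤ κ') (hκ'n : κ' ≤ P.L) :
    ∃ T, P.L < T + κ' ∧ 1 ≤ T ∧ ∃ B : ℕ → Finset Q,
      Lead M P β k T B (errS (Fintype.card Q) β κ κ' t (k + 1)) := by
  classical
  have hL := P.le_L β ht
  have hLn := P.L_le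
  have hW1 : Fintype.card Q ≤ W0 := by nlinarith
  set n : ℝ := (Fintype.card Q : ℝ) with hn
  have hn0 : 0 ≤ n := Nat.cast_nonneg _
  have hβ1 : (1 : ℝ) ≤ β := by exact_mod_cast h.one
  set Ak : ℝ := ∑ R : Fin k → Q, (M.V (univ.image R) : ℝ) with hAk
  set f : Q → ℝ := fun q => ∑ R : Fin k → Q, (M.V (insert q (univ.image R)) : ℝ) with hf
  set e : ℝ := errT n β κ t ((k : ℝ) + 1) with he
  have hup : ∀ q, f q ≤ n ^ k * M.V {q} + Ak + k ^ 2 * β * n ^ k := fun q => tup_one h hW1 k q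
  set b : ℕ → ℝ := fun T => (n ^ k * T + Ak + k ^ 2 * β * n ^ k) - f (P.ρ T) with hb
  have hbnn : ∀ T ∈ Icc 1 P.L, 0 ≤ b T := by
    intro T hT
    rw [mem_Icc] at hT
    have h1 := hup (P.ρ T)
    have h2 : (M.V {P.ρ T} : ℝ) ≤ T := by exact_mod_cast P.h_le T hT.1 hT.2
    have h3 : n ^ k * M.V {P.ρ T} ≤ n ^ k * T := mul_le_mul_of_nonneg_left h2 (by positivity)
    show 0 ≤ (n ^ k * T + Ak + k ^ 2 * β * n ^ k) - f (P.ρ T)
    linarith
  have hk0 : (0 : ℝ) ≤ k := Nat.cast_nonneg _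
  have hAk0 : 0 ≤ Ak := by positivity
  -- the total
  have htot : ∑ q, f q = ∑ T ∈ Icc 1 P.L, f (P.ρ T) + ∑ q ∈ univ \ (Icc 1 P.L).image P.ρ, f q := by
    rw [← sum_image (f := f) P.injOn, add_comm]
    rw [sum_sdiff (subset_univ _)]
  have hoff : ∑ q ∈ univ \ (Icc 1 P.L).image P.ρ, f q ≤
      (n - P.L) * (n ^ k * n + Ak + k ^ 2 * β * n ^ k) := by
    have h1 := sum_le_card_nsmul (univ \ (Icc 1 P.L).image P.ρ) f
      (n ^ k * n + Ak + k ^ 2 * β * n ^ k) (by
        intro q _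
        have h1 := hup q
        have h2 : (M.V {q} : ℝ) ≤ n := by rw [hn]; exact_mod_cast M.h_le q
        have h3 : n ^ k * M.V {q} ≤ n ^ k * n := mul_le_mul_of_nonneg_left h2 (by positivity)
        linarith)
    have h2 : (((univ \ (Icc 1 P.L).image P.ρ).card : ℕ) : ℝ) = n - P.L := by
      have := P.off_eq
      have h3 : (((univ \ (Icc 1 P.L).image P.ρ).card : ℕ) : ℝ) + P.L = n := by
        rw [hn]; exact_mod_cast this
      linarith
    rw [nsmul_eq_mul, h2] at h1
    exact h1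
  have hA1 := tup_up h hW1 k
  have hA2 := tup_low h P ht (k + 1) (by omega) hW κ t ht1 hκ hκβ hκn
  rw [tup_cons] at hA2
  have hLr : (P.L : ℝ) ≤ n := by rw [hn]; exact_mod_cast hLn
  have hLβ : n - P.L ≤ β := by
    have : n ≤ P.L + β := by rw [hn]; exact_mod_cast hL
    linarith
  have hsumb : ∑ T ∈ Icc 1 P.L, b T ≤
      n ^ k * (n * (1 / 2 + β + 2 * k ^ 3 * β + k ^ 2 * β + e)) := by
    have e1 : ∑ T ∈ Icc 1 P.L, b T = n ^ k * (P.L * (P.L + 1) / 2) +
        P.L * (Ak + k ^ 2 * β * n ^ k) - ∑ T ∈ Icc 1 P.L, f (P.ρ T) := by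
      rw [hb, sum_sub_distrib, sum_add_distrib, sum_add_distrib, ← mul_sum, l2_sum_id, sum_const,
        sum_const, Nat.card_Icc, nsmul_eq_mul, nsmul_eq_mul]
      simp only [Nat.add_sub_cancel]
      ring
    rw [e1]
    have h3 : ∑ q, f q = ∑ q : Q, ∑ R : Fin k → Q, (M.V (insert q (univ.image R)) : ℝ) := rfl
    rw [← h3] at hA2
    push_cast at hA2
    have h4 : (P.L : ℝ) * (P.L + 1) ≤ n * (n + 1) :=
      mul_le_mul hLr (by linarith) (by positivity) hn0
    have h5 : n ^ k * ((P.L : ℝ) * (P.L + 1) / 2) ≤ n ^ k * (n * (n + 1) / 2) :=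
      mul_le_mul_of_nonneg_left (by linarith) (by positivity)
    have h6 : (n - P.L) * (n ^ k * n) ≤ β * (n ^ k * n) :=
      mul_le_mul_of_nonneg_right hLβ (by positivity)
    have h7 : n * Ak ≤ n * (n ^ k * ((k : ℝ) * n / 2 + 2 * k ^ 3 * β)) :=
      mul_le_mul_of_nonneg_left hA1 hn0
    have h8 : n ^ (k + 1) = n ^ k * n := pow_succ _ _
    rw [h8] at hA2
    nlinarith
  -- choice of T
  have hex : ∃ T ∈ Ioc (P.L - κ') P.L, κ' * b T ≤
      n ^ k * (n * (1 / 2 + β + 2 * k ^ 3 * β + k ^ 2 * β + e)) := by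
    by_contra hcon
    push Not at hcon
    have hsub : Ioc (P.L - κ') P.L ⊆ Icc 1 P.L := by
      intro x hx
      rw [mem_Ioc] at hx
      rw [mem_Icc]
      omega
    have hle := sum_le_sum_of_subset_of_nonneg hsub (fun T hT _ => hbnn T hT)
    have hne : (Ioc (P.L - κ') P.L).Nonempty := ⟨P.L, by rw [mem_Ioc]; omega⟩
    have hlt := sum_lt_sum_of_nonempty hne hcon
    rw [sum_const, Nat.card_Ioc, ← mul_sum, nsmul_eq_mul] at hlt
    have e2 : ((P.L - (P.L - κ') : ℕ) : ℝ) = κ' := by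
      have : P.L - (P.L - κ') = κ' := by omega
      rw [this]
    rw [e2] at hlt
    have hκ0 : (0 : ℝ) < κ' := by
      have : (1 : ℝ) ≤ κ' := by exact_mod_cast hκ'
      linarith
    have := lt_of_mul_lt_mul_left hlt hκ0.le
    linarith
  obtain ⟨T, hT, hbT⟩ := hex
  rw [mem_Ioc] at hT
  have hT1 : 1 ≤ T := by omega
  obtain ⟨C, _, hC2, hC3⟩ := h.transv (P.wd T 0) (by rw [P.wd_length]; omega) univ
  rw [card_univ] at hC2
  have hinj : ∀ τ, τ ≤ T → Set.InjOn (M.mv (P.wd T τ)) (C : Set Q) := by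
    intro τ hτ x hx x' hx' hxx
    apply hC3 hx hx'
    rw [P.wd_append T τ 0 (Nat.zero_le _) hτ, M.mv_append, M.mv_append, hxx]
  refine ⟨T, by omega, hT1, fun τ => C.image (M.mv (P.wd T τ)), hT.2, ?_, ?_, ?_⟩
  · intro τ _ hτ
    rw [card_image_of_injOn (hinj τ hτ)]
    exact hC2
  · intro τ hτ1 hτT s hs
    rw [mem_image] at hs ⊢
    obtain ⟨c, hc, rfl⟩ := hs
    refine ⟨c, hc, ?_⟩
    rw [P.wd_append T (τ + 1) τ (by omega) (by omega), M.mv_append]
    have : P.wd (τ + 1) τ = [P.y (τ + 1)] := by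
      rw [P.wd_succ τ τ le_rfl, P.wd_self]
    rw [this]
    rfl
  · -- the slack sum
    have e1 : ∀ τ ∈ Icc 2 T, ∑ R ∈ Fintype.piFinset (fun _ : Fin k => C.image (M.mv (P.wd T τ))),
        (M.df (P.y τ) (insert (P.ρ τ) (univ.image R)) : ℝ) =
        ∑ R ∈ Fintype.piFinset (fun _ : Fin k => C),
        (M.df (P.y τ) (insert (P.ρ τ) ((univ.image R).image (M.mv (P.wd T τ)))) : ℝ) := by
      intro τ hτ
      rw [mem_Icc] at hτ
      rw [← sum_pi_image k C (M.mv (P.wd T τ)) (hinj τ hτ.2)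
        (fun R => (M.df (P.y τ) (insert (P.ρ τ) (univ.image R)) : ℝ))]
      apply sum_congr rfl
      intro R _
      rw [image_image]
      rfl
    rw [sum_congr rfl e1, sum_comm]
    have e2 : ∀ R ∈ Fintype.piFinset (fun _ : Fin k => C), ∑ τ ∈ Icc 2 T,
        (M.df (P.y τ) (insert (P.ρ τ) ((univ.image R).image (M.mv (P.wd T τ)))) : ℝ) ≤
        T + (M.V (univ.image fun i => M.mv (P.wd T 0) (R i)) : ℝ) -
          M.V (insert (P.ρ T) (univ.image R)) := by
      intro R _
      have h1 := lead_tel P T hT.2 (univ.image R) (T - 1) (by omega)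
      have e3 : T - (T - 1) = 1 := by omega
      have e5 : (1 : ℕ) + 1 = 2 := rfl
      rw [e3, e5] at h1
      have h2 := P.V_wd0 1 le_rfl P.Lpos ((univ.image R).image (M.mv (P.wd T 1)))
      have e6 : ((univ.image R).image (M.mv (P.wd T 1))).image (M.mv (P.wd 1 0)) =
          univ.image fun i => M.mv (P.wd T 0) (R i) := by
        rw [image_image, image_image]
        apply congrArg (fun g => univ.image g)
        funext i
        rw [P.wd_append T 1 0 (Nat.zero_le _) hT1, M.mv_append]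
        rfl
      rw [e6] at h2
      have h3 : M.V (insert (P.ρ T) (univ.image R)) + ∑ τ ∈ Icc 2 T,
          M.df (P.y τ) (insert (P.ρ τ) ((univ.image R).image (M.mv (P.wd T τ)))) ≤
          T + M.V (univ.image fun i => M.mv (P.wd T 0) (R i)) := by
        omega
      have h4 : (M.V (insert (P.ρ T) (univ.image R)) : ℝ) + ∑ τ ∈ Icc 2 T,
          (M.df (P.y τ) (insert (P.ρ τ) ((univ.image R).image (M.mv (P.wd T τ)))) : ℝ) ≤
          T + (M.V (univ.image fun i => M.mv (P.wd T 0) (R i)) : ℝ) := by exact_mod_cast h3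
      linarith
    refine (sum_le_sum e2).trans ?_
    rw [sum_sub_distrib, sum_add_distrib, sum_const, Fintype.card_piFinset_const, nsmul_eq_mul]
    have hCr : (C.card : ℝ) ≤ n := by rw [hn]; exact_mod_cast card_le_univ C
    have f1 : ((C.card ^ k : ℕ) : ℝ) * T ≤ n ^ k * T := by
      push_cast
      exact mul_le_mul_of_nonneg_right (pow_le_pow_left₀ (Nat.cast_nonneg _) hCr k)
        (Nat.cast_nonneg _)
    have f2 : ∑ R ∈ Fintype.piFinset (fun _ : Fin k => C),
        (M.V (univ.image fun i => M.mv (P.wd T 0) (R i)) : ℝ) ≤ Ak := by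
      rw [sum_pi_image k C (M.mv (P.wd T 0)) hC3 (fun R => (M.V (univ.image R) : ℝ))]
      exact sum_le_sum_of_subset_of_nonneg (subset_univ _) fun R _ _ => Nat.cast_nonneg _
    have f3 : f (P.ρ T) ≤ ∑ R ∈ Fintype.piFinset (fun _ : Fin k => C),
        (M.V (insert (P.ρ T) (univ.image R)) : ℝ) + (k : ℝ) * (k + 1) * β * n ^ k := by
      have g1 : f (P.ρ T) = ∑ R ∈ Fintype.piFinset (fun _ : Fin k => C),
          (M.V (insert (P.ρ T) (univ.image R)) : ℝ) +
          ∑ R ∈ (Fintype.piFinset (fun _ : Fin k => C))ᶜ,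
          (M.V (insert (P.ρ T) (univ.image R)) : ℝ) := (sum_add_sum_compl _ _).symm
      have g2 : ∑ R ∈ (Fintype.piFinset (fun _ : Fin k => C))ᶜ,
          (M.V (insert (P.ρ T) (univ.image R)) : ℝ) ≤
          ((Fintype.piFinset (fun _ : Fin k => C))ᶜ.card : ℝ) * (n * (k + 1)) := by
        refine (sum_le_card_nsmul _ _ (n * (k + 1)) ?_).trans (le_of_eq (nsmul_eq_mul _ _))
        intro R _
        have h1 := M.V_le (insert (P.ρ T) (univ.image R))
        have h2 : (insert (P.ρ T) (univ.image R)).card ≤ k + 1 := by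
          have h3 := card_insert_le (P.ρ T) (univ.image R)
          have h4 := card_image_le (s := (univ : Finset (Fin k))) (f := R)
          rw [card_univ, Fintype.card_fin] at h4
          omega
        have h3 := h1.trans (Nat.mul_le_mul_left _ h2)
        rw [hn]
        exact_mod_cast h3
      have g3 : ((Fintype.piFinset (fun _ : Fin k => C))ᶜ.card : ℝ) ≤ k * β * n ^ (k - 1) := by
        have h3 := tup_compl C β hC2 k
        have h5 := card_add_card_compl (Fintype.piFinset (fun _ : Fin k => C))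
        rw [Fintype.card_piFinset_const, Fintype.card_fun, Fintype.card_fin] at h5
        have h6 : ((C.card : ℝ)) ^ k + ((((Fintype.piFinset (fun _ : Fin k => C))ᶜ).card : ℕ) : ℝ)
            = n ^ k := by rw [hn]; exact_mod_cast h5
        rw [← hn] at h3
        linarith
      have g4 : ((Fintype.piFinset (fun _ : Fin k => C))ᶜ.card : ℝ) * (n * (k + 1)) ≤
          (k : ℝ) * (k + 1) * β * n ^ k := by
        refine (mul_le_mul_of_nonneg_right g3 (by positivity)).trans (le_of_eq ?_)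
        rcases k with _ | k
        · simp
        · rw [Nat.add_sub_cancel, pow_succ n k]
          ring
      linarith
    have f4 := lead_num n β κ' e k hn0 hβ1 (by exact_mod_cast hκ')
      (by
        have : (κ' : ℝ) ≤ P.L := by exact_mod_cast hκ'n
        linarith) hk0
    have hκ0 : (0 : ℝ) < κ' := by
      have : (1 : ℝ) ≤ κ' := by exact_mod_cast hκ'
      linarith
    have f5 : b T ≤ n ^ k * (n * (1 / 2 + β + 2 * k ^ 3 * β + k ^ 2 * β + e) / κ') := by
      have : b T ≤ n ^ k * (n * (1 / 2 + β + 2 * k ^ 3 * β + k ^ 2 * β + e)) / κ' := by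
        rw [le_div_iff₀ hκ0]
        linarith
      rwa [mul_div_assoc] at this
    have f6 : b T = (n ^ k * T + Ak + k ^ 2 * β * n ^ k) - f (P.ρ T) := rfl
    have f7 : n ^ k * (n * (1 / 2 + β + 2 * k ^ 3 * β + k ^ 2 * β + e) / κ' + k * β) ≤
        n ^ k * (n * (e + 6 * (k + 1) ^ 3 * β) / κ') :=
      mul_le_mul_of_nonneg_left f4 (by positivity)
    have f8 : errS n β κ κ' t ((k : ℝ) + 1) = n * (e + 6 * ((k : ℝ) + 1) ^ 3 * β) / κ' := rfl
    rw [f8]
    nlinarith

end MortUB
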