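import Mathlib

/-!
# MP_e1e800_lc, project UB: bad tuples
-/

namespace MortUB

open Finset

theorem cb_fib {ι C : Type} [Fintype ι] [DecidableEq ι] [Fintype C] [DecidableEq C]
    (P : C → C → Prop) [DecidableRel P] (x : ℕ)
    (hx : ∀ s, (univ.filter fun p => P p s).card ≤ x) (f : ι → ι) (m : ι) (hm : f m ≠ m)
    (D' D : Finset (ι → C)) (hinv : ∀ R ∈ D, ∀ c, Function.update R m c ∈ D')
    (hD : ∀ R ∈ D, P (R m) (R (f m))) :
    D.card * Fintype.card C ≤ x * D'.card := by
  have h1 : (D ×ˢ (univ : Finset C)).card ≤ x * D'.card := by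
    refine Finset.card_le_mul_card_image_of_maps_to
      (f := fun p : (ι → C) × C => Function.update p.1 m p.2) ?_ x ?_
    · rintro ⟨R, c⟩ hp
      exact hinv R (Finset.mem_product.mp hp).1 c
    · intro R' _
      refine le_trans ?_ (hx (R' (f m)))
      refine Finset.card_le_card_of_injOn (fun p => p.1 m) ?_ ?_
      · rintro ⟨R, c⟩ hp
        rw [Finset.mem_coe, Finset.mem_filter, Finset.mem_product] at hp
        obtain ⟨⟨h1, _⟩, h2⟩ := hp
        rw [Finset.mem_coe, Finset.mem_filter]
        refine ⟨Finset.mem_univ _, ?_⟩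
        have h3 : R' (f m) = R (f m) := by
          rw [← h2]
          exact Function.update_of_ne hm _ _
        rw [h3]
        exact hD R h1
      · rintro ⟨R, c⟩ hp ⟨R2, c2⟩ hp2 he
        rw [Finset.mem_coe, Finset.mem_filter] at hp hp2
        obtain ⟨_, h2⟩ := hp
        obtain ⟨_, h4⟩ := hp2
        simp only at h2 h4 he
        have hc : c = c2 := by
          have e1 := congrFun h2 m
          have e2 := congrFun h4 m
          rw [Function.update_self] at e1 e2
          rw [e1, e2]
        have hR : R = R2 := by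
          funext i
          by_cases hi : i = m
          · rw [hi]; exact he
          · have e1 := congrFun h2 i
            have e2 := congrFun h4 i
            rw [Function.update_of_ne hi] at e1 e2
            rw [e1, e2]
        rw [hc, hR]
  rwa [Finset.card_product, Finset.card_univ] at h1

theorem cb_dn {ι C : Type} [Fintype ι] [DecidableEq ι] [Fintype C] [DecidableEq C]
    (P : C → C → Prop) [DecidableRel P] (x : ℕ)
    (hx : ∀ s, (univ.filter fun p => P p s).card ≤ x) (g : ι → ℕ) (f : ι → ι) (n : ℕ) :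
    ∀ W : Finset ι, W.card = n → (∀ j ∈ W, g (f j) < g j) →
      (univ.filter fun R : ι → C => ∀ j ∈ W, P (R j) (R (f j))).card * Fintype.card C ^ n ≤
        x ^ n * Fintype.card C ^ Fintype.card ι := by
  induction n with
  | zero =>
    intro W _ _
    rw [pow_zero, mul_one, pow_zero, one_mul]
    refine (Finset.card_le_univ _).trans ?_
    rw [Fintype.card_fun]
  | succ n ih =>
    intro W hW hg
    have hne : W.Nonempty := by
      rw [← Finset.card_pos, hW]; omega
    obtain ⟨m, hm, hmax⟩ := Finset.exists_max_image W g hne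
    have hcard : (W.erase m).card = n := by
      rw [Finset.card_erase_of_mem hm, hW]; omega
    have h1 := ih (W.erase m) hcard (fun j hj => hg j (Finset.mem_of_mem_erase hj))
    have hfm : f m ≠ m := by
      intro h
      have := hg m hm
      rw [h] at this
      exact lt_irrefl _ this
    have h2 := cb_fib P x hx f m hfm
      (univ.filter fun R : ι → C => ∀ j ∈ W.erase m, P (R j) (R (f j)))
      (univ.filter fun R : ι → C => ∀ j ∈ W, P (R j) (R (f j))) ?_ ?_
    · calc (univ.filter fun R : ι → C => ∀ j ∈ W, P (R j) (R (f j))).card *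
            Fintype.card C ^ (n + 1)
          = ((univ.filter fun R : ι → C => ∀ j ∈ W, P (R j) (R (f j))).card *
            Fintype.card C) * Fintype.card C ^ n := by ring
        _ ≤ (x * (univ.filter fun R : ι → C => ∀ j ∈ W.erase m, P (R j) (R (f j))).card) *
            Fintype.card C ^ n := Nat.mul_le_mul_right _ h2
        _ = x * ((univ.filter fun R : ι → C => ∀ j ∈ W.erase m, P (R j) (R (f j))).card *
            Fintype.card C ^ n) := by ring
        _ ≤ x * (x ^ n * Fintype.card C ^ Fintype.card ι) := Nat.mul_le_mul_left _ h1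
        _ = x ^ (n + 1) * Fintype.card C ^ Fintype.card ι := by ring
    · intro R hR c
      rw [Finset.mem_filter] at hR ⊢
      refine ⟨Finset.mem_univ _, fun j hj => ?_⟩
      have hjm : j ≠ m := Finset.ne_of_mem_erase hj
      have hjW : j ∈ W := Finset.mem_of_mem_erase hj
      have hfj : f j ≠ m := by
        intro h
        have e1 := hg j hjW
        have e2 := hmax j hjW
        rw [h] at e1
        omega
      rw [Function.update_of_ne hjm, Function.update_of_ne hfj]
      exact hR.2 j hjW
    · intro R hR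
      exact (Finset.mem_filter.mp hR).2 m hm

theorem cb_prod {ι C : Type} [Fintype ι] [DecidableEq ι] [Fintype C] [DecidableEq C]
    (U : C → Prop) [DecidablePred U] (z : ℕ)
    (hz : (univ.filter fun p => ¬ U p).card ≤ z) (W : Finset ι) :
    (univ.filter fun R : ι → C => ∀ j ∈ W, ¬ U (R j)).card ≤
      z ^ W.card * Fintype.card C ^ (Fintype.card ι - W.card) := by
  have h1 : (univ.filter fun R : ι → C => ∀ j ∈ W, ¬ U (R j)) =
      Fintype.piFinset (fun j => if j ∈ W then (univ.filter fun p => ¬ U p) else univ) := by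
    ext R
    rw [Finset.mem_filter, Fintype.mem_piFinset]
    constructor
    · rintro ⟨_, h⟩ j
      by_cases hj : j ∈ W
      · rw [if_pos hj, Finset.mem_filter]
        exact ⟨Finset.mem_univ _, h j hj⟩
      · rw [if_neg hj]
        exact Finset.mem_univ _
    · intro h
      refine ⟨Finset.mem_univ _, fun j hj => ?_⟩
      have := h j
      rw [if_pos hj, Finset.mem_filter] at this
      exact this.2
  rw [h1, Fintype.card_piFinset]
  have h2 : ∀ j, (if j ∈ W then (univ.filter fun p => ¬ U p) else (univ : Finset C)).card ≤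
      if j ∈ W then z else Fintype.card C := by
    intro j
    by_cases hj : j ∈ W
    · rw [if_pos hj, if_pos hj]; exact hz
    · rw [if_neg hj, if_neg hj, Finset.card_univ]
  refine (Finset.prod_le_prod' fun j _ => h2 j).trans ?_
  rw [Finset.prod_ite, Finset.prod_const, Finset.prod_const]
  have e1 : (univ.filter fun j => j ∈ W) = W := by
    ext j; simp
  have e2 : (univ.filter fun j => j ∉ W).card = Fintype.card ι - W.card := by
    have : (univ.filter fun j => j ∉ W) = Wᶜ := by
      ext j; simp
    rw [this, Finset.card_compl]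
  rw [e1, e2]

/-- COUNT -/
theorem count_bad {C : Type} [Fintype C] [DecidableEq C] (U : C → Prop) (r : C → C → Prop)
    (x z : ℕ) (hz : Nat.card {p : C // ¬ U p} ≤ z)
    (hx : ∀ s, Nat.card {p : C // U p ∧ r p s} ≤ x) (h : ℕ) (hh : 1 ≤ h) :
    Nat.card {R : Fin (4 * h) → C // ∀ j, U (R j) → ∃ l, l ≠ j ∧ r (R j) (R l)} ≤
      2 ^ (4 * h) * z ^ (2 * h) * Fintype.card C ^ (2 * h) +
      2 * 2 ^ (4 * h) * (4 * h) ^ (4 * h) * x ^ h * Fintype.card C ^ (3 * h) := by
  classical
  rw [Nat.card_eq_fintype_card, Fintype.card_subtype] at hz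
  have hx' : ∀ s, (univ.filter fun p => U p ∧ r p s).card ≤ x := by
    intro s
    have := hx s
    rwa [Nat.card_eq_fintype_card, Fintype.card_subtype] at this
  rw [Nat.card_eq_fintype_card, Fintype.card_subtype]
  set N := Fintype.card C with hN
  -- the pieces
  set A : Finset (Fin (4 * h)) → Finset (Fin (4 * h) → C) := fun W =>
    univ.filter fun R => ∀ j ∈ W, ¬ U (R j) with hA
  set B : Finset (Fin (4 * h)) × (Fin (4 * h) → Fin (4 * h)) → Finset (Fin (4 * h) → C) :=
    fun p => univ.filter fun R => ∀ j ∈ p.1, U (R j) ∧ r (R j) (R (p.2 j)) with hB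
  set IA : Finset (Finset (Fin (4 * h))) := univ.filter fun W => W.card = 2 * h with hIA
  set I1 : Finset (Finset (Fin (4 * h)) × (Fin (4 * h) → Fin (4 * h))) :=
    univ.filter fun p => p.1.card = h ∧ ∀ j ∈ p.1, p.2 j < j with hI1
  set I2 : Finset (Finset (Fin (4 * h)) × (Fin (4 * h) → Fin (4 * h))) :=
    univ.filter fun p => p.1.card = h ∧ ∀ j ∈ p.1, j < p.2 j with hI2
  have hcover : (univ.filter fun R : Fin (4 * h) → C =>
      ∀ j, U (R j) → ∃ l, l ≠ j ∧ r (R j) (R l)) ⊆
      IA.biUnion A ∪ (I1.biUnion B ∪ I2.biUnion B) := by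
    intro R hR
    rw [Finset.mem_filter] at hR
    have hbad := hR.2
    set J : Finset (Fin (4 * h)) := univ.filter fun j => U (R j) with hJ
    by_cases hc : 2 * h ≤ Jᶜ.card
    · obtain ⟨W, hW, hWc⟩ := Finset.exists_subset_card_eq hc
      refine Finset.mem_union_left _ (Finset.mem_biUnion.mpr ⟨W, ?_, ?_⟩)
      · rw [hIA, Finset.mem_filter]
        exact ⟨Finset.mem_univ _, hWc⟩
      · rw [hA]
        simp only [Finset.mem_filter, Finset.mem_univ, true_and]
        intro j hj hU
        have := hW hj
        rw [Finset.mem_compl, hJ, Finset.mem_filter] at this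
        exact this ⟨Finset.mem_univ _, hU⟩
    · refine Finset.mem_union_right _ ?_
      have hJc : 2 * h < J.card := by
        have h1 := Finset.card_add_card_compl J
        rw [Fintype.card_fin] at h1
        omega
      have hex : ∀ j, ∃ l, U (R j) → l ≠ j ∧ r (R j) (R l) := by
        intro j
        by_cases hU : U (R j)
        · obtain ⟨l, hl⟩ := hbad j hU
          exact ⟨l, fun _ => hl⟩
        · exact ⟨j, fun h => absurd h hU⟩
      choose f hf using hex
      set J1 : Finset (Fin (4 * h)) := J.filter fun j => f j < j with hJ1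
      set J2 : Finset (Fin (4 * h)) := J.filter fun j => j < f j with hJ2
      have hJun : J ⊆ J1 ∪ J2 := by
        intro j hj
        have hU : U (R j) := (Finset.mem_filter.mp hj).2
        have hne := (hf j hU).1
        rcases lt_or_gt_of_ne hne with h1 | h1
        · exact Finset.mem_union_left _ (Finset.mem_filter.mpr ⟨hj, h1⟩)
        · exact Finset.mem_union_right _ (Finset.mem_filter.mpr ⟨hj, h1⟩)
      have hle : J.card ≤ J1.card + J2.card :=
        (Finset.card_le_card hJun).trans (Finset.card_union_le _ _)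
      by_cases h1 : h ≤ J1.card
      · obtain ⟨W, hW, hWc⟩ := Finset.exists_subset_card_eq h1
        refine Finset.mem_union_left _ (Finset.mem_biUnion.mpr ⟨(W, f), ?_, ?_⟩)
        · rw [hI1, Finset.mem_filter]
          exact ⟨Finset.mem_univ _, hWc, fun j hj => (Finset.mem_filter.mp (hW hj)).2⟩
        · rw [hB]
          simp only [Finset.mem_filter, Finset.mem_univ, true_and]
          intro j hj
          have hjJ := (Finset.mem_filter.mp (hW hj)).1
          have hU : U (R j) := (Finset.mem_filter.mp hjJ).2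
          exact ⟨hU, (hf j hU).2⟩
      · have h2 : h ≤ J2.card := by omega
        obtain ⟨W, hW, hWc⟩ := Finset.exists_subset_card_eq h2
        refine Finset.mem_union_right _ (Finset.mem_biUnion.mpr ⟨(W, f), ?_, ?_⟩)
        · rw [hI2, Finset.mem_filter]
          exact ⟨Finset.mem_univ _, hWc, fun j hj => (Finset.mem_filter.mp (hW hj)).2⟩
        · rw [hB]
          simp only [Finset.mem_filter, Finset.mem_univ, true_and]
          intro j hj
          have hjJ := (Finset.mem_filter.mp (hW hj)).1
          have hU : U (R j) := (Finset.mem_filter.mp hjJ).2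
          exact ⟨hU, (hf j hU).2⟩
  have hcA : (IA.biUnion A).card ≤ 2 ^ (4 * h) * (z ^ (2 * h) * N ^ (2 * h)) := by
    have h1 : (IA.biUnion A).card ≤ IA.card * (z ^ (2 * h) * N ^ (2 * h)) := by
      refine Finset.card_biUnion_le_card_mul _ _ _ fun W hW => ?_
      have hWc : W.card = 2 * h := (Finset.mem_filter.mp hW).2
      have := cb_prod (ι := Fin (4 * h)) U z hz W
      rw [hWc, Fintype.card_fin] at this
      have e : 4 * h - 2 * h = 2 * h := by omega
      rw [e, ← hN] at this
      refine le_trans (le_of_eq ?_) this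
      congr 1
      ext R
      simp [hA]
    refine h1.trans (Nat.mul_le_mul_right _ ?_)
    refine (Finset.card_le_univ _).trans ?_
    rw [Fintype.card_finset, Fintype.card_fin]
  have hcI : ∀ I : Finset (Finset (Fin (4 * h)) × (Fin (4 * h) → Fin (4 * h))),
      I.card ≤ 2 ^ (4 * h) * (4 * h) ^ (4 * h) := by
    intro I
    refine (Finset.card_le_univ _).trans ?_
    rw [Fintype.card_prod, Fintype.card_finset, Fintype.card_fun, Fintype.card_fin]
  have hBc : ∀ p : Finset (Fin (4 * h)) × (Fin (4 * h) → Fin (4 * h)), p.1.card = h →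
      (∃ g : Fin (4 * h) → ℕ, ∀ j ∈ p.1, g (p.2 j) < g j) → (B p).card ≤ x ^ h * N ^ (3 * h) := by
    rintro ⟨W, f⟩ hWc ⟨g, hg⟩
    simp only at hWc hg
    have h1 := cb_dn (ι := Fin (4 * h)) (fun p s => U p ∧ r p s) x hx' g f h W hWc hg
    rw [Fintype.card_fin] at h1
    rcases Nat.eq_zero_or_pos N with h0 | hpos
    · have hemp : IsEmpty C := Fintype.card_eq_zero_iff.mp h0
      have : (B (W, f)).card = 0 := by
        rw [Finset.card_eq_zero, Finset.eq_empty_iff_forall_notMem]
        intro R _
        exact hemp.elim (R ⟨0, by omega⟩)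
      rw [this]; exact Nat.zero_le _
    · have e : N ^ (4 * h) = N ^ (3 * h) * N ^ h := by rw [← pow_add]; congr 1; ring
      rw [← hN, e, ← mul_assoc] at h1
      refine le_trans (le_of_eq ?_) (Nat.le_of_mul_le_mul_right h1 (pow_pos hpos h))
      congr 1
      ext R
      simp [hB]
  have hc1 : (I1.biUnion B).card ≤ 2 ^ (4 * h) * (4 * h) ^ (4 * h) * (x ^ h * N ^ (3 * h)) := by
    have h1 : (I1.biUnion B).card ≤ I1.card * (x ^ h * N ^ (3 * h)) := by
      refine Finset.card_biUnion_le_card_mul _ _ _ fun p hp => ?_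
      have hp' := (Finset.mem_filter.mp hp).2
      exact hBc p hp'.1 ⟨fun j => (j : ℕ), fun j hj => hp'.2 j hj⟩
    exact h1.trans (Nat.mul_le_mul_right _ (hcI I1))
  have hc2 : (I2.biUnion B).card ≤ 2 ^ (4 * h) * (4 * h) ^ (4 * h) * (x ^ h * N ^ (3 * h)) := by
    have h1 : (I2.biUnion B).card ≤ I2.card * (x ^ h * N ^ (3 * h)) := by
      refine Finset.card_biUnion_le_card_mul _ _ _ fun p hp => ?_
      have hp' := (Finset.mem_filter.mp hp).2
      refine hBc p hp'.1 ⟨fun j => 4 * h - (j : ℕ), fun j hj => ?_⟩
      have h2 : (j : ℕ) < (p.2 j : ℕ) := hp'.2 j hj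
      have h3 := (p.2 j).isLt
      simp only
      omega
    exact h1.trans (Nat.mul_le_mul_right _ (hcI I2))
  calc (univ.filter fun R : Fin (4 * h) → C =>
      ∀ j, U (R j) → ∃ l, l ≠ j ∧ r (R j) (R l)).card
      ≤ (IA.biUnion A ∪ (I1.biUnion B ∪ I2.biUnion B)).card := Finset.card_le_card hcover
    _ ≤ (IA.biUnion A).card + ((I1.biUnion B).card + (I2.biUnion B).card) :=
        (Finset.card_union_le _ _).trans
          (Nat.add_le_add_left (Finset.card_union_le _ _) _)
    _ ≤ 2 ^ (4 * h) * (z ^ (2 * h) * N ^ (2 * h)) +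
        (2 ^ (4 * h) * (4 * h) ^ (4 * h) * (x ^ h * N ^ (3 * h)) +
          2 ^ (4 * h) * (4 * h) ^ (4 * h) * (x ^ h * N ^ (3 * h))) := by
        exact Nat.add_le_add hcA (Nat.add_le_add hc1 hc2)
    _ = 2 ^ (4 * h) * z ^ (2 * h) * N ^ (2 * h) +
        2 * 2 ^ (4 * h) * (4 * h) ^ (4 * h) * x ^ h * N ^ (3 * h) := by ring

end MortUB
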