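import Pool.Agent.Lib.MP_e1e800_lc_UB.Basic

/-!
# MP_e1e800_lc, project UB: elementary facts about paths
-/

namespace MortUB

open Finset

variable {Q A : Type} [DecidableEq Q] [Fintype Q] {M : Sys Q A} (P : Path M)

theorem Path.injOn : Set.InjOn P.ρ (Icc 1 P.L : Finset ℕ) := by
  intro i hi j hj hij
  rw [coe_Icc, Set.mem_Icc] at hi hj
  exact P.inj i j hi.1 hi.2 hj.1 hj.2 hij

theorem Path.L_le : P.L ≤ Fintype.card Q := by
  have h := card_image_of_injOn P.injOn
  rw [Nat.card_Icc, Nat.add_sub_cancel] at h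
  rw [← h]
  exact card_le_univ _

theorem Path.h_le (s : ℕ) (h1 : 1 ≤ s) (h2 : s ≤ P.L) : M.V {P.ρ s} ≤ s := by
  induction s, h1 using Nat.le_induction with
  | base => exact (M.kl_one _ _ P.fin).le
  | succ s hs ih =>
    have h3 := M.le_step (P.y (s + 1)) (P.ρ (s + 1))
    rw [P.nxt s hs (by omega)] at h3
    have := ih (by omega)
    omega

theorem Path.h_diff (s z : ℕ) (h1 : 1 ≤ s) (h2 : s ≤ z) (h3 : z ≤ P.L) :
    M.V {P.ρ z} ≤ (z - s) + M.V {P.ρ s} := by
  induction z, h2 using Nat.le_induction with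
  | base => omega
  | succ z hz ih =>
    have h4 := M.le_step (P.y (z + 1)) (P.ρ (z + 1))
    rw [P.nxt z (by omega) (by omega)] at h4
    have := ih (by omega)
    omega

theorem Path.le_h (β : ℕ) (ht : Fintype.card Q ≤ M.V {P.ρ P.L} + β) (s : ℕ) (h1 : 1 ≤ s)
    (h2 : s ≤ P.L) : s ≤ M.V {P.ρ s} + β := by
  have h3 := P.h_diff s P.L h1 h2 le_rfl
  have h4 := P.L_le
  omega

theorem Path.le_L (β : ℕ) (ht : Fintype.card Q ≤ M.V {P.ρ P.L} + β) :
    Fintype.card Q ≤ P.L + β := by
  have := P.h_le P.L P.Lpos le_rfl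
  omega

theorem Path.wd_length (s x : ℕ) : (P.wd s x).length = s - x := by
  unfold Path.wd
  rw [List.length_map, List.length_range]

theorem Path.wd_self (s : ℕ) : P.wd s s = [] := by
  unfold Path.wd
  simp

theorem Path.wd_succ (s x : ℕ) (h : x ≤ s) : P.wd (s + 1) x = P.y (s + 1) :: P.wd s x := by
  unfold Path.wd
  have e : s + 1 - x = (s - x) + 1 := by omega
  rw [e, List.range_succ_eq_map, List.map_cons, List.map_map]
  congr 1
  apply List.map_congr_left
  intro i _
  simp only [Function.comp]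
  congr 1
  omega

theorem Path.wd_append (s z x : ℕ) (h1 : x ≤ z) (h2 : z ≤ s) :
    P.wd s x = P.wd s z ++ P.wd z x := by
  induction s, h2 using Nat.le_induction with
  | base => rw [P.wd_self]; rfl
  | succ s hs ih =>
    rw [P.wd_succ s x (by omega), P.wd_succ s z hs, ih]
    rfl

theorem Path.mv_wd (s x : ℕ) (h1 : 1 ≤ x) (h2 : x ≤ s) (h3 : s ≤ P.L) :
    M.mv (P.wd s x) (P.ρ s) = P.ρ x := by
  induction s, h2 using Nat.le_induction with
  | base => rw [P.wd_self]; rfl
  | succ s hs ih =>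
    rw [P.wd_succ s x hs, Sys.mv_cons, P.nxt s (by omega) (by omega)]
    exact ih (by omega)

theorem Path.V_wd0 (s : ℕ) (h1 : 1 ≤ s) (h2 : s ≤ P.L) (S : Finset Q) :
    M.V (insert (P.ρ s) S) ≤ s + M.V (S.image (M.mv (P.wd s 0))) := by
  induction s, h1 using Nat.le_induction generalizing S with
  | base =>
    have h := M.kill (P.y 1) (P.ρ 1) S P.fin
    have e : M.mv (P.wd 1 0) = M.σ (P.y 1) := by
      rw [P.wd_succ 0 0 le_rfl, P.wd_self]
      rfl
    rw [e]
    exact h
  | succ s hs ih =>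
    have h3 := M.step (P.y (s + 1)) (insert (P.ρ (s + 1)) S)
    rw [image_insert, P.nxt s hs (by omega)] at h3
    have h4 := ih (by omega) (S.image (M.σ (P.y (s + 1))))
    rw [image_image] at h4
    have e : M.mv (P.wd (s + 1) 0) = M.mv (P.wd s 0) ∘ M.σ (P.y (s + 1)) := by
      funext q
      rw [P.wd_succ s 0 (Nat.zero_le _)]
      rfl
    rw [e]
    omega

theorem Path.V_wd (s x : ℕ) (h1 : 1 ≤ x) (h2 : x ≤ s) (h3 : s ≤ P.L) (S : Finset Q) :
    M.V (insert (P.ρ s) S) ≤
      (s - x) + M.V (insert (P.ρ x) (S.image (M.mv (P.wd s x)))) := by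
  induction s, h2 using Nat.le_induction generalizing S with
  | base =>
    have e : M.mv (P.wd x x) = id := by
      rw [P.wd_self]
      rfl
    rw [e, image_id]
    omega
  | succ s hs ih =>
    have h4 := M.step (P.y (s + 1)) (insert (P.ρ (s + 1)) S)
    rw [image_insert, P.nxt s (by omega) (by omega)] at h4
    have h5 := ih (by omega) (S.image (M.σ (P.y (s + 1))))
    rw [image_image] at h5
    have e : M.mv (P.wd (s + 1) x) = M.mv (P.wd s x) ∘ M.σ (P.y (s + 1)) := by
      funext q
      rw [P.wd_succ s x hs]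
      rfl
    rw [e]
    omega

theorem Path.off_eq : (univ \ (Icc 1 P.L).image P.ρ).card + P.L = Fintype.card Q := by
  have h := card_image_of_injOn P.injOn
  rw [Nat.card_Icc, Nat.add_sub_cancel] at h
  have h2 := card_sdiff_add_card_eq_card (subset_univ ((Icc 1 P.L).image P.ρ))
  rw [h, card_univ] at h2
  exact h2

theorem Path.off_card (β : ℕ) (hL : Fintype.card Q ≤ P.L + β) :
    (univ \ (Icc 1 P.L).image P.ρ).card ≤ β := by
  have := P.off_eq
  omega

/-- The states of a set which are on the path, as a set of indices. -/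
theorem Path.idx_card' (S : Finset Q) :
    S.card + P.L ≤ ((Icc 1 P.L).filter fun z => P.ρ z ∈ S).card + Fintype.card Q := by
  have h1 : S ⊆ ((Icc 1 P.L).filter fun z => P.ρ z ∈ S).image P.ρ ∪
      (univ \ (Icc 1 P.L).image P.ρ) := by
    intro q hq
    rw [mem_union]
    by_cases hc : q ∈ (Icc 1 P.L).image P.ρ
    · left
      rw [mem_image] at hc ⊢
      obtain ⟨z, hz, rfl⟩ := hc
      exact ⟨z, mem_filter.2 ⟨hz, hq⟩, rfl⟩
    · right
      exact mem_sdiff.2 ⟨mem_univ _, hc⟩
  have h2 := (card_le_card h1).trans (card_union_le _ _)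
  have h3 : (((Icc 1 P.L).filter fun z => P.ρ z ∈ S).image P.ρ).card ≤
      ((Icc 1 P.L).filter fun z => P.ρ z ∈ S).card := card_image_le
  have h4 := P.off_eq
  omega

theorem Path.idx_card (β : ℕ) (hL : Fintype.card Q ≤ P.L + β) (S : Finset Q) :
    S.card ≤ ((Icc 1 P.L).filter fun z => P.ρ z ∈ S).card + β := by
  have := P.idx_card' S
  omega

theorem Path.wds_nil : P.wds [] = [] := rfl

theorem Path.wds_cons (p : ℕ × ℕ) (l : List (ℕ × ℕ)) :
    P.wds (p :: l) = P.wd p.1 p.2 ++ P.wds l := by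
  unfold Path.wds
  rw [List.map_cons, List.flatten_cons]

theorem Path.wds_append (l l' : List (ℕ × ℕ)) : P.wds (l ++ l') = P.wds l ++ P.wds l' := by
  unfold Path.wds
  rw [List.map_append, List.flatten_append]

/-- The length of the word of a list of pairs. -/
theorem Path.wds_length_le (l : List (ℕ × ℕ)) (hl : ∀ p ∈ l, p.1 ≤ P.L) :
    (P.wds l).length ≤ l.length * Fintype.card Q := by
  induction l with
  | nil => simp [Path.wds_nil]
  | cons p l ih =>
    rw [P.wds_cons, List.length_append, P.wd_length, List.length_cons]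
    have h1 := ih fun p hp => hl p (List.mem_cons_of_mem _ hp)
    have h2 := hl p List.mem_cons_self
    have h3 := P.L_le
    rw [Nat.succ_mul]
    omega

end MortUB
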