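import Pool.Agent.Lib.MP_e1e800_lc_UB.Lds

/-!
# MP_e1e800_lc, project UB: special cycles
-/

namespace MortUB

open Finset

variable {Q A : Type} [DecidableEq Q] [Fintype Q] {M : Sys Q A} {β : ℕ}

private theorem spec_len_apply (a : A) (q : Q) (h : 1 ≤ M.len a q) :
    M.len a (M.σ a q) = M.len a q :=
  Function.minimalPeriod_apply (Function.minimalPeriod_pos_iff_mem_periodicPts.1 h)

private theorem spec_period (a : A) (q : Q) : (M.σ a)^[M.len a q] q = q :=
  Function.isPeriodicPt_minimalPeriod (M.σ a) q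

private theorem spec_inv (a : A) (ℓ Λ : ℕ) (hℓ : 2 ≤ ℓ) (q : Q) (hq : q ∈ cls M a ℓ Λ) :
    M.σ a q ∈ cls M a ℓ Λ := by
  unfold cls at hq ⊢
  rw [mem_filter] at hq ⊢
  rw [spec_len_apply a q (by omega)]
  exact ⟨mem_univ _, hq.2⟩

private theorem spec_inv_iter (a : A) (C : Finset Q) (hC : ∀ q ∈ C, M.σ a q ∈ C) (j : ℕ) (q : Q)
    (hq : q ∈ C) : (M.σ a)^[j] q ∈ C := by
  induction j generalizing q with
  | zero => exact hq
  | succ j ih => rw [Function.iterate_succ_apply]; exact ih _ (hC q hq)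

private theorem spec_iter_inj (a : A) (i : ℕ) (q q' : Q) (hq : 1 ≤ M.len a q)
    (hq' : 1 ≤ M.len a q') (h : (M.σ a)^[i] q = (M.σ a)^[i] q') : q = q' := by
  set v := M.len a q * M.len a q' with hv
  have hv1 : 1 ≤ v := Nat.mul_pos hq hq'
  have e1 : ∀ r : Q, M.len a r ∣ v * i → (M.σ a)^[v * i] r = r := by
    intro r hr
    exact (Function.isPeriodicPt_minimalPeriod (M.σ a) r).trans_dvd hr
  have h1 := e1 q (Dvd.dvd.mul_right (Dvd.intro _ rfl) i)
  have h2 := e1 q' (Dvd.dvd.mul_right (Dvd.intro_left _ rfl) i)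
  have h3 : v * i = (v * i - i) + i := by
    have : i ≤ v * i := Nat.le_mul_of_pos_left i hv1
    omega
  rw [h3, Function.iterate_add_apply] at h1 h2
  rw [← h1, ← h2, h]

/-- the missing numbers sum up -/
private theorem spec_sum_miss {P : Path M} {k T : ℕ} {B : ℕ → Finset Q} {S : ℝ}
    (hB : Lead M P β k T B S) (U : Finset ℕ) (hU : ∀ τ ∈ U, 1 ≤ τ ∧ τ ≤ T) :
    ∑ q : Q, miss B U q ≤ β * U.card := by
  have h1 : ∀ q : Q, miss B U q = ∑ τ ∈ U, if q ∉ B τ then 1 else 0 := by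
    intro q
    unfold miss
    rw [card_filter]
  rw [sum_congr rfl fun q _ => h1 q, sum_comm]
  have h2 : ∀ τ ∈ U, (∑ q : Q, if q ∉ B τ then 1 else 0) ≤ β := by
    intro τ hτ
    rw [← card_filter]
    have h3 : (univ.filter fun q => q ∉ B τ) = (B τ)ᶜ := by ext; simp
    rw [h3, card_compl]
    have := hB.card τ (hU τ hτ).1 (hU τ hτ).2
    omega
  refine (sum_le_sum h2).trans ?_
  rw [sum_const, smul_eq_mul, mul_comm]

private theorem spec_miss_iter (a : A) (P : Path M) (X : Finset Q) (hR : Rule M a P X)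
    (C : Finset Q) (hC : ∀ q ∈ C, M.σ a q ∈ C) (h2 : ∀ q ∈ C, 2 ≤ M.len a q) (k T : ℕ)
    (B : ℕ → Finset Q) (S : ℝ) (hB : Lead M P β k T B S) (s : Q) (i : ℕ) :
    miss B (lds P X C T) ((M.σ a)^[i] s) ≤
      miss B (lds P X C T) s + i * (C.filter fun q => q ∈ X).card := by
  induction i with
  | zero => simp
  | succ i ih =>
    rw [Function.iterate_succ_apply']
    have := miss_step a P X hR C hC h2 k T B S hB ((M.σ a)^[i] s)
    rw [Nat.succ_mul]
    omega

/-- SPECIAL -/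
theorem special (a : A) (P : Path M) (X : Finset Q) (hR : Rule M a P X)
    (k T : ℕ) (B : ℕ → Finset Q) (S : ℝ) (hB : Lead M P β k T B S) (ℓ Λ : ℕ) (hℓ : 2 ≤ ℓ)
    (hΛ : 1 ≤ Λ) (hC : (cls M a ℓ Λ).Nonempty)
    (hU : (cls M a ℓ Λ).card ≤ 2 * (lds P X (cls M a ℓ Λ) T).card) (η : ℝ) (hη : 0 < η)
    (hη1 : η ≤ 1) :
    ((spec M a (cls M a ℓ Λ) B (lds P X (cls M a ℓ Λ) T) η).card : ℝ) * η ^ 2 ≤
      16 * Λ * β := by
  classical
  have hmem : ∀ q, q ∈ cls M a ℓ Λ ↔ ℓ ≤ M.len a q ∧ M.len a q < Λ * ℓ := by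
    intro q; unfold cls; rw [mem_filter]; simp
  have hinv := spec_inv (M := M) a ℓ Λ hℓ
  have hex := exits_card a P X hR (cls M a ℓ Λ) hinv ℓ (fun q hq => ((hmem q).1 hq).1)
  have h2 : ∀ q ∈ cls M a ℓ Λ, 2 ≤ M.len a q := fun q hq => hℓ.trans ((hmem q).1 hq).1
  have hmi := spec_miss_iter a P X hR (cls M a ℓ Λ) hinv h2 k T B S hB
  have hUT : ∀ τ ∈ lds P X (cls M a ℓ Λ) T, 1 ≤ τ ∧ τ ≤ T := by
    intro τ hτ
    unfold lds at hτ
    rw [mem_filter, mem_Icc] at hτ
    omega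
  have hsum := spec_sum_miss hB (lds P X (cls M a ℓ Λ) T) hUT
  have hCpos : 1 ≤ (cls M a ℓ Λ).card := card_pos.2 hC
  set C := cls M a ℓ Λ with hCdef
  set U := lds P X C T with hUdef
  set e := (C.filter fun q => q ∈ X).card with he
  have hu : (1 : ℝ) ≤ (U.card : ℝ) := by
    have : 1 ≤ U.card := by omega
    exact_mod_cast this
  have hu0 : (0 : ℝ) < (U.card : ℝ) := by linarith
  -- the set of bad sites
  set Z : Finset Q := univ.filter fun s => η * (U.card : ℝ) / 2 ≤ (miss B U s : ℝ) with hZ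
  have hZc : (Z.card : ℝ) * η ≤ 2 * β := by
    have h3 : (Z.card : ℝ) * (η * (U.card : ℝ) / 2) ≤ (β : ℝ) * (U.card : ℝ) := by
      have h4 : (Z.card : ℝ) * (η * (U.card : ℝ) / 2) ≤ ∑ s ∈ Z, (miss B U s : ℝ) := by
        rw [← nsmul_eq_mul]
        exact card_nsmul_le_sum _ _ _ fun s hs => (mem_filter.1 hs).2
      have h5 : ∑ s ∈ Z, (miss B U s : ℝ) ≤ ∑ s : Q, (miss B U s : ℝ) :=
        sum_le_sum_of_subset_of_nonneg (subset_univ _) fun _ _ _ => Nat.cast_nonneg _
      have h6 : ∑ s : Q, (miss B U s : ℝ) ≤ (β : ℝ) * (U.card : ℝ) := by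
        exact_mod_cast hsum
      linarith
    have h7 : ((Z.card : ℝ) * η) * (U.card : ℝ) ≤ (2 * β) * (U.card : ℝ) := by linarith
    exact le_of_mul_le_mul_right h7 hu0
  -- many bad sites on a special cycle
  have hmany : ∀ q ∈ spec M a C B U η,
      η * (ℓ : ℝ) / 4 ≤ (((range (Λ * ℓ)).filter fun i => (M.σ a)^[i] q ∈ Z).card : ℝ) := by
    intro q hq
    unfold spec at hq
    obtain ⟨hqC, j0, hj0⟩ := mem_filter.1 hq
    obtain ⟨hv1, hv2⟩ := (hmem q).1 hqC
    set v := M.len a q with hv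
    have hper : (M.σ a)^[v] q = q := spec_period a q
    set j1 := j0 % v with hj1
    have hj1v : j1 < v := Nat.mod_lt _ (by omega)
    have hs1 : (M.σ a)^[j0] q = (M.σ a)^[j1] q := by
      rw [hj1, hv]
      exact (Function.iterate_mod_minimalPeriod_eq (f := M.σ a) (x := q) (n := j0)).symm
    rw [hs1] at hj0
    set m := ⌊η * (ℓ : ℝ) / 4⌋₊ with hm
    have hℓ0 : (2 : ℝ) ≤ (ℓ : ℝ) := by exact_mod_cast hℓ
    have hm1 : (m : ℝ) ≤ η * (ℓ : ℝ) / 4 := Nat.floor_le (by positivity)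
    have hm2 : η * (ℓ : ℝ) / 4 < (m : ℝ) + 1 := Nat.lt_floor_add_one _
    have hmℓ : m < ℓ := by
      have : (m : ℝ) < (ℓ : ℝ) := by nlinarith
      exact_mod_cast this
    set idx : ℕ → ℕ := fun i => if i ≤ j1 then j1 - i else j1 + v - i with hidx
    have hcard : (range (m + 1)).card ≤
        ((range (Λ * ℓ)).filter fun i => (M.σ a)^[i] q ∈ Z).card := by
      apply card_le_card_of_injOn idx
      · intro i hi
        have hi' : i < m + 1 := by simpa using hi
        have hlt : idx i < v := by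
          simp only [hidx]
          split_ifs <;> omega
        rw [mem_coe, mem_filter, mem_range]
        refine ⟨by omega, ?_⟩
        have hback : (M.σ a)^[i] ((M.σ a)^[idx i] q) = (M.σ a)^[j1] q := by
          rw [← Function.iterate_add_apply]
          simp only [hidx]
          split_ifs with h
          · congr 2
            omega
          · have : i + (j1 + v - i) = j1 + v := by omega
            rw [this, Function.iterate_add_apply, hper]
        have h3 := hmi ((M.σ a)^[idx i] q) i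
        rw [hback] at h3
        have h4 : ((miss B U ((M.σ a)^[j1] q) : ℕ) : ℝ) ≤
            (miss B U ((M.σ a)^[idx i] q) : ℝ) + (i : ℝ) * (e : ℝ) := by exact_mod_cast h3
        have h5 : (i : ℝ) * (e : ℝ) ≤ η * (U.card : ℝ) / 2 := by
          have h6 : (i : ℝ) ≤ (m : ℝ) := by exact_mod_cast Nat.lt_succ_iff.1 hi'
          have h7 : (e : ℝ) * (ℓ : ℝ) ≤ 2 * (U.card : ℝ) := by
            have : e * ℓ ≤ 2 * U.card := hex.trans hU
            exact_mod_cast this
          have he0 : (0 : ℝ) ≤ (e : ℝ) := Nat.cast_nonneg _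
          calc (i : ℝ) * (e : ℝ) ≤ (η * (ℓ : ℝ) / 4) * (e : ℝ) :=
                mul_le_mul_of_nonneg_right (h6.trans hm1) he0
            _ = (η / 4) * ((e : ℝ) * (ℓ : ℝ)) := by ring
            _ ≤ (η / 4) * (2 * (U.card : ℝ)) :=
                mul_le_mul_of_nonneg_left h7 (by positivity)
            _ = _ := by ring
        rw [hZ, mem_filter]
        refine ⟨mem_univ _, ?_⟩
        linarith
      · intro i hi j hj hij
        have hi' : i < m + 1 := by simpa using hi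
        have hj' : j < m + 1 := by simpa using hj
        simp only [hidx] at hij
        split_ifs at hij <;> omega
    rw [card_range] at hcard
    have h8 : ((m + 1 : ℕ) : ℝ) ≤
        (((range (Λ * ℓ)).filter fun i => (M.σ a)^[i] q ∈ Z).card : ℝ) := by
      exact_mod_cast hcard
    push_cast at h8
    linarith
  -- double counting
  have hdc : ∑ q ∈ spec M a C B U η, ((range (Λ * ℓ)).filter fun i => (M.σ a)^[i] q ∈ Z).card ≤
      (Λ * ℓ) * Z.card := by
    have h1 : ∀ q, ((range (Λ * ℓ)).filter fun i => (M.σ a)^[i] q ∈ Z).card =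
        ∑ i ∈ range (Λ * ℓ), if (M.σ a)^[i] q ∈ Z then 1 else 0 := fun q => by rw [card_filter]
    rw [sum_congr rfl fun q _ => h1 q, sum_comm]
    have h3 : ∀ i ∈ range (Λ * ℓ), (∑ q ∈ spec M a C B U η, if (M.σ a)^[i] q ∈ Z then 1 else 0) ≤
        Z.card := by
      intro i _
      rw [← card_filter]
      apply card_le_card_of_injOn (fun q => (M.σ a)^[i] q)
      · intro q hq
        rw [mem_coe] at hq ⊢
        exact (mem_filter.1 hq).2
      · intro q hq q' hq' hqq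
        rw [mem_coe] at hq hq'
        have hq1 : q ∈ C := (mem_filter.1 (mem_filter.1 hq).1).1
        have hq2 : q' ∈ C := (mem_filter.1 (mem_filter.1 hq').1).1
        have g1 := h2 q hq1
        have g2 := h2 q' hq2
        exact spec_iter_inj a i q q' (by omega) (by omega) hqq
    refine (sum_le_sum h3).trans ?_
    rw [sum_const, card_range, smul_eq_mul]
  have hfin : ((spec M a C B U η).card : ℝ) * (η * (ℓ : ℝ) / 4) ≤
      ((Λ : ℝ) * (ℓ : ℝ)) * (Z.card : ℝ) := by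
    have h4 : ((spec M a C B U η).card : ℝ) * (η * (ℓ : ℝ) / 4) ≤ ∑ q ∈ spec M a C B U η,
        (((range (Λ * ℓ)).filter fun i => (M.σ a)^[i] q ∈ Z).card : ℝ) := by
      rw [← nsmul_eq_mul]
      exact card_nsmul_le_sum _ _ _ hmany
    have h5 : ∑ q ∈ spec M a C B U η,
        (((range (Λ * ℓ)).filter fun i => (M.σ a)^[i] q ∈ Z).card : ℝ) ≤
        ((Λ : ℝ) * (ℓ : ℝ)) * (Z.card : ℝ) := by exact_mod_cast hdc
    exact h4.trans h5
  have hℓ0 : (0 : ℝ) < (ℓ : ℝ) := by
    have : 0 < ℓ := by omega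
    exact_mod_cast this
  have hΛ0 : (0 : ℝ) ≤ (Λ : ℝ) := Nat.cast_nonneg _
  have hβ0 : (0 : ℝ) ≤ (β : ℝ) := Nat.cast_nonneg _
  have h6 : (((spec M a C B U η).card : ℝ) * η ^ 2) * (ℓ : ℝ) ≤ (16 * Λ * β) * (ℓ : ℝ) := by
    have g1 := mul_le_mul_of_nonneg_right hfin hη.le
    have g2 : ((Λ : ℝ) * (ℓ : ℝ)) * ((Z.card : ℝ) * η) ≤ ((Λ : ℝ) * (ℓ : ℝ)) * (2 * β) :=
      mul_le_mul_of_nonneg_left hZc (by positivity)
    have g3 : 0 ≤ (Λ : ℝ) * (ℓ : ℝ) * β := by positivity
    nlinarith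
  exact le_of_mul_le_mul_right h6 hℓ0

end MortUB
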