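import Pool.Agent.Lib.MP_e1e800_lc_UB.Ident
import Pool.Agent.Lib.MP_e1e800_lc_UB.Special
import Pool.Agent.Lib.MP_e1e800_lc_UB.Count
import Pool.Agent.Lib.MP_e1e800_lc_UB.PathL

/-!
# MP_e1e800_lc, project UB: long cycles
-/

namespace MortUB

open Finset

variable {Q A : Type} [DecidableEq Q] [Fintype Q] {M : Sys Q A} {β : ℕ}

private theorem long_cls_inv (a : A) (ℓ Λ : ℕ) (hℓ : 2 ≤ ℓ) :
    ∀ q ∈ cls M a ℓ Λ, M.σ a q ∈ cls M a ℓ Λ := by
  intro q hq
  unfold cls at hq ⊢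
  rw [mem_filter] at hq ⊢
  have hper : q ∈ Function.periodicPts (M.σ a) := by
    apply Function.minimalPeriod_pos_iff_mem_periodicPts.1
    have := hq.2.1
    unfold Sys.len at this
    omega
  have e : M.len a (M.σ a q) = M.len a q := by
    unfold Sys.len
    exact Function.minimalPeriod_apply hper
  rw [e]
  exact ⟨mem_univ _, hq.2⟩

private theorem long_diff_inv (a : A) (ℓ Λ : ℕ) (hℓ : 2 ≤ ℓ) (B : ℕ → Finset Q) (U : Finset ℕ)
    (η : ℝ) : ∀ q ∈ cls M a ℓ Λ \ spec M a (cls M a ℓ Λ) B U η,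
      M.σ a q ∈ cls M a ℓ Λ \ spec M a (cls M a ℓ Λ) B U η := by
  classical
  intro q hq
  rw [mem_sdiff] at hq ⊢
  refine ⟨long_cls_inv a ℓ Λ hℓ q hq.1, ?_⟩
  intro hs
  apply hq.2
  unfold spec at hs ⊢
  rw [mem_filter] at hs ⊢
  obtain ⟨_, j, hj⟩ := hs
  exact ⟨hq.1, j + 1, hj⟩

omit [Fintype Q] in
private theorem long_image {k : ℕ} (j : Fin (k + 1)) (R : Fin (k + 1) → Q) :
    univ.image R = insert (R j) (univ.image (fun i : Fin k => R (j.succAbove i))) := by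
  ext q
  rw [mem_image, mem_insert, mem_image]
  constructor
  · rintro ⟨i, _, rfl⟩
    rcases Fin.eq_self_or_eq_succAbove j i with h | ⟨i', h⟩
    · left; rw [h]
    · right; exact ⟨i', mem_univ _, by rw [h]⟩
  · rintro (h | ⟨i, _, h⟩)
    · exact ⟨j, mem_univ _, h.symm⟩
    · exact ⟨_, mem_univ _, h⟩

open Classical in
private theorem long_detected {k K : ℕ} (hK : K = k + 1) (a : A) (P : Path M) (T : ℕ)
    (B : ℕ → Finset Q) (S : ℝ) (hB : Lead M P β k T B S) (U : Finset ℕ)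
    (hU : ∀ τ ∈ U, 2 ≤ τ ∧ τ ≤ T ∧ P.y τ = a) (C : Finset Q) (j : Fin K) :
    (∑ R ∈ (Fintype.piFinset (fun _ : Fin K => C)).filter
      (fun R => ∃ τ ∈ U, R j = P.ρ τ ∧ ∀ i, i ≠ j → R i ∈ B τ), (M.df a (univ.image R) : ℝ)) ≤
      (Fintype.card Q : ℝ) ^ k * S := by
  subst hK
  refine le_trans ?_ hB.sum
  have hchoice : ∀ R : Fin (k + 1) → Q, ∃ τ : ℕ,
      (∃ τ ∈ U, R j = P.ρ τ ∧ ∀ i, i ≠ j → R i ∈ B τ) →
      (τ ∈ U ∧ R j = P.ρ τ ∧ ∀ i, i ≠ j → R i ∈ B τ) := by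
    intro R
    by_cases h : ∃ τ ∈ U, R j = P.ρ τ ∧ ∀ i, i ≠ j → R i ∈ B τ
    · obtain ⟨τ, hτ⟩ := h
      exact ⟨τ, fun _ => hτ⟩
    · exact ⟨0, fun h' => absurd h' h⟩
  choose t ht using hchoice
  rw [sum_sigma']
  have key : ∀ R ∈ (Fintype.piFinset (fun _ : Fin (k + 1) => C)).filter
      (fun R => ∃ τ ∈ U, R j = P.ρ τ ∧ ∀ i, i ≠ j → R i ∈ B τ),
      (M.df a (univ.image R) : ℝ) =
        (fun x : (Σ _ : ℕ, (Fin k → Q)) =>
          (M.df (P.y x.1) (insert (P.ρ x.1) (univ.image x.2)) : ℝ))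
          ⟨t R, fun i => R (j.succAbove i)⟩ := by
    intro R hR
    rw [mem_filter] at hR
    obtain ⟨h1, h2, _⟩ := ht R hR.2
    obtain ⟨_, _, h3⟩ := hU _ h1
    show (M.df a (univ.image R) : ℝ) = _
    rw [long_image j R]
    show _ = (M.df (P.y (t R)) (insert (P.ρ (t R)) (univ.image fun i => R (j.succAbove i))) : ℝ)
    rw [h3, h2]
  rw [sum_congr rfl key]
  have hinj : Set.InjOn (fun R : Fin (k + 1) → Q =>
      (⟨t R, fun i => R (j.succAbove i)⟩ : (Σ _ : ℕ, (Fin k → Q))))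
      (((Fintype.piFinset (fun _ : Fin (k + 1) => C)).filter
      (fun R => ∃ τ ∈ U, R j = P.ρ τ ∧ ∀ i, i ≠ j → R i ∈ B τ) : Finset _) :
        Set (Fin (k + 1) → Q)) := by
    intro R hR R' hR' he
    rw [mem_coe, mem_filter] at hR hR'
    simp only [Sigma.mk.injEq, heq_eq_eq] at he
    obtain ⟨_, h2, _⟩ := ht R hR.2
    obtain ⟨_, h2', _⟩ := ht R' hR'.2
    funext i
    rcases Fin.eq_self_or_eq_succAbove j i with h | ⟨i', h⟩
    · rw [h, h2, h2', he.1]
    · rw [h]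
      exact congrFun he.2 i'
  rw [← sum_image (f := fun x : (Σ _ : ℕ, (Fin k → Q)) =>
          (M.df (P.y x.1) (insert (P.ρ x.1) (univ.image x.2)) : ℝ)) hinj]
  apply sum_le_sum_of_subset_of_nonneg
  · intro x hx
    rw [mem_image] at hx
    obtain ⟨R, hR, rfl⟩ := hx
    rw [mem_filter] at hR
    obtain ⟨h1, h2, h3⟩ := ht R hR.2
    obtain ⟨h4, h5, _⟩ := hU _ h1
    rw [mem_sigma, mem_Icc, Fintype.mem_piFinset]
    exact ⟨⟨h4, h5⟩, fun i => h3 _ (Fin.succAbove_ne j i)⟩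
  · intro x _ _
    exact Nat.cast_nonneg _

private theorem long_biUnion {ι α : Type} [DecidableEq ι] [DecidableEq α] (s : Finset ι)
    (t : ι → Finset α) (f : α → ℝ) (hf : ∀ x, 0 ≤ f x) :
    ∑ x ∈ s.biUnion t, f x ≤ ∑ i ∈ s, ∑ x ∈ t i, f x := by
  induction s using Finset.induction_on with
  | empty => rw [biUnion_empty, sum_empty, sum_empty]
  | insert i s hi ih =>
    rw [biUnion_insert, sum_insert hi]
    have h1 := sum_union_inter (s₁ := t i) (s₂ := s.biUnion t) (f := f)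
    have h2 : 0 ≤ ∑ x ∈ t i ∩ s.biUnion t, f x := sum_nonneg fun x _ => hf x
    linarith

open Classical in
omit [Fintype Q] in
private theorem long_bad (P : Path M) (C : Finset Q) (B : ℕ → Finset Q) (U : Finset ℕ) (x z : ℕ)
    (hz : (C \ U.image P.ρ).card ≤ z) (hx : ∀ s ∈ C, miss B U s ≤ x) (h : ℕ) (hh : 1 ≤ h) :
    ((Fintype.piFinset (fun _ : Fin (4 * h) => C)).filter
      (fun R => ¬ ∃ j, ∃ τ ∈ U, R j = P.ρ τ ∧ ∀ i, i ≠ j → R i ∈ B τ)).card ≤
      2 ^ (4 * h) * z ^ (2 * h) * C.card ^ (2 * h) +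
      2 * 2 ^ (4 * h) * (4 * h) ^ (4 * h) * x ^ h * C.card ^ (3 * h) := by
  have h1 := count_bad (C := {q // q ∈ C}) (fun p => ∃ τ ∈ U, (p : Q) = P.ρ τ)
    (fun p s => ∃ τ ∈ U, (p : Q) = P.ρ τ ∧ (s : Q) ∉ B τ) x z ?_ ?_ h hh
  · rw [Fintype.card_coe] at h1
    refine le_trans ?_ h1
    rw [Nat.card_eq_fintype_card, Fintype.card_subtype]
    refine le_trans (card_le_card ?_) (card_image_le
      (f := fun (R : Fin (4 * h) → {q // q ∈ C}) (i : Fin (4 * h)) => ((R i : {q // q ∈ C}) : Q)))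
    intro R hR
    rw [mem_filter, Fintype.mem_piFinset] at hR
    rw [mem_image]
    refine ⟨fun i => ⟨R i, hR.1 i⟩, ?_, rfl⟩
    rw [mem_filter]
    refine ⟨mem_univ _, ?_⟩
    intro j hj
    obtain ⟨τ, hτ, he⟩ := hj
    by_contra hcon
    apply hR.2
    refine ⟨j, τ, hτ, he, ?_⟩
    intro i hi
    by_contra hiB
    exact hcon ⟨i, hi, τ, hτ, he, hiB⟩
  · rw [Nat.card_eq_fintype_card, Fintype.card_subtype]
    refine le_trans ?_ hz
    refine card_le_card_of_injOn (fun p : {q // q ∈ C} => (p : Q)) ?_ ?_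
    · intro p hp
      rw [mem_coe, mem_filter] at hp
      rw [mem_coe, mem_sdiff, mem_image]
      refine ⟨p.2, ?_⟩
      rintro ⟨τ, hτ, he⟩
      exact hp.2 ⟨τ, hτ, he.symm⟩
    · intro p _ p' _ he
      exact Subtype.ext he
  · intro s
    rw [Nat.card_eq_fintype_card, Fintype.card_subtype]
    refine le_trans ?_ (hx s s.2)
    unfold miss
    refine le_trans ?_ (card_image_le (f := P.ρ))
    refine card_le_card_of_injOn (fun p : {q // q ∈ C} => (p : Q)) ?_ ?_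
    · intro p hp
      rw [mem_coe, mem_filter] at hp
      rw [mem_coe, mem_image]
      obtain ⟨_, _, τ, hτ, he, hs⟩ := hp
      exact ⟨τ, mem_filter.2 ⟨hτ, hs⟩, he.symm⟩
    · intro p _ p' _ he
      exact Subtype.ext he

/-- The final arithmetic. -/
private theorem long_arith (h : ℕ) (n N z x S c z0 η : ℝ) (hc : 0 < c) (hN : c ≤ N) (hn : 0 ≤ n)
    (hz : 0 ≤ z) (hz0 : z ≤ z0) (hx : 0 ≤ x) (hxη : x ≤ η * n) (hS : 0 ≤ S) (k : ℕ)
    (H : N ^ (4 * h) ≤ 4 * h * (n ^ k * S) + (1 + n * (4 * h)) *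
      (2 ^ (4 * h) * z ^ (2 * h) * N ^ (2 * h) +
      2 * 2 ^ (4 * h) * (4 * h) ^ (4 * h) * x ^ h * N ^ (3 * h))) :
    1 ≤ 4 * h * S * n ^ k / c ^ (4 * h) +
      (4 * h * n + 1) * (2 ^ (4 * h) * (z0 / c) ^ (2 * h) +
        2 * 2 ^ (4 * h) * (4 * h) ^ (4 * h) * (η * n / c) ^ h) := by
  have hN0 : 0 < N := lt_of_lt_of_le hc hN
  have hNp : 0 < N ^ (4 * h) := pow_pos hN0 _
  have hh0 : (0 : ℝ) ≤ h := Nat.cast_nonneg _
  have e2 : N ^ (4 * h) = N ^ (2 * h) * N ^ (2 * h) := by rw [← pow_add]; congr 1; ring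
  have e3 : N ^ (4 * h) = N ^ h * N ^ (3 * h) := by rw [← pow_add]; congr 1; ring
  have h1 : 1 ≤ 4 * h * S * n ^ k / N ^ (4 * h) +
      (4 * h * n + 1) * (2 ^ (4 * h) * (z / N) ^ (2 * h) +
        2 * 2 ^ (4 * h) * (4 * h) ^ (4 * h) * (x / N) ^ h) := by
    have h2 : 1 ≤ (4 * h * (n ^ k * S) + (1 + n * (4 * h)) *
      (2 ^ (4 * h) * z ^ (2 * h) * N ^ (2 * h) +
      2 * 2 ^ (4 * h) * (4 * h) ^ (4 * h) * x ^ h * N ^ (3 * h))) / N ^ (4 * h) := by
      rw [le_div_iff₀ hNp, one_mul]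
      exact H
    refine le_trans h2 (le_of_eq ?_)
    have f1 : (z / N) ^ (2 * h) = z ^ (2 * h) * N ^ (2 * h) / N ^ (4 * h) := by
      rw [div_pow, e2]
      have := (pow_pos hN0 (2 * h)).ne'
      field_simp
    have f2 : (x / N) ^ h = x ^ h * N ^ (3 * h) / N ^ (4 * h) := by
      rw [div_pow, e3]
      have := (pow_pos hN0 (3 * h)).ne'
      have := (pow_pos hN0 h).ne'
      field_simp
    rw [f1, f2]
    ring
  refine le_trans h1 ?_
  have g1 : 4 * h * S * n ^ k / N ^ (4 * h) ≤ 4 * h * S * n ^ k / c ^ (4 * h) := by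
    apply div_le_div_of_nonneg_left _ (pow_pos hc _) (pow_le_pow_left₀ hc.le hN _)
    positivity
  have g2 : z / N ≤ z0 / c := by
    apply div_le_div₀ (hz.trans hz0) hz0 hc hN
  have g3 : x / N ≤ η * n / c := by
    apply div_le_div₀ (hx.trans hxη) hxη hc hN
  have g2' : (z / N) ^ (2 * h) ≤ (z0 / c) ^ (2 * h) := pow_le_pow_left₀ (by positivity) g2 _
  have g3' : (x / N) ^ h ≤ (η * n / c) ^ h := pow_le_pow_left₀ (by positivity) g3 _
  have g4 : (0 : ℝ) ≤ 4 * h * n + 1 := by positivity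
  have g5 : (0 : ℝ) ≤ 2 ^ (4 * h) := by positivity
  have g6 : (0 : ℝ) ≤ 2 * 2 ^ (4 * h) * (4 * h) ^ (4 * h) := by positivity
  exact add_le_add g1 (mul_le_mul_of_nonneg_left (add_le_add
    (mul_le_mul_of_nonneg_left g2' g5) (mul_le_mul_of_nonneg_left g3' g6)) g4)

/-- LONG -/
theorem long (a : A) (P : Path M) (X : Finset Q) (hR : Rule M a P X)
    (ht : Fintype.card Q ≤ P.L + β) (h : ℕ) (hh : 1 ≤ h)
    (T : ℕ) (hT1 : 1 ≤ T) (B : ℕ → Finset Q) (S : ℝ) (hB : Lead M P β (4 * h - 1) T B S) (κ' : ℕ)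
    (hT : P.L < T + κ') (ℓ Λ : ℕ) (hℓ : 2 ≤ ℓ) (hΛ : 1 ≤ Λ) (η : ℝ) (hη : 0 < η) (hη1 : η ≤ 1)
    (c : ℝ) (hc : 0 < c) (hcC : 2 * c ≤ (cls M a ℓ Λ).card)
    (hz : ((cls M a ℓ Λ).card : ℝ) / ℓ + β + κ' ≤ (cls M a ℓ Λ).card / 2)
    (hs : 16 * Λ * β ≤ c * η ^ 2) :
    1 ≤ 4 * h * S * (Fintype.card Q : ℝ) ^ (4 * h - 1) / c ^ (4 * h) +
      (4 * h * Fintype.card Q + 1) * (2 ^ (4 * h) *
        ((((cls M a ℓ Λ).card : ℝ) / ℓ + β + κ') / c) ^ (2 * h) +
        2 * 2 ^ (4 * h) * (4 * h) ^ (4 * h) * (η * Fintype.card Q / c) ^ h) := by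
  classical
  set C := cls M a ℓ Λ with hCdef
  set U := lds P X C T with hUdef
  have hCinv : ∀ q ∈ C, M.σ a q ∈ C := long_cls_inv a ℓ Λ hℓ
  have hClen : ∀ q ∈ C, ℓ ≤ M.len a q := by
    intro q hq
    rw [hCdef] at hq
    unfold cls at hq
    rw [mem_filter] at hq
    exact hq.2.1
  have hUmem : ∀ τ ∈ U, (2 ≤ τ ∧ τ ≤ T) ∧ P.ρ τ ∈ C ∧ P.ρ τ ∉ X := by
    intro τ hτ
    rw [hUdef] at hτ
    unfold lds at hτ
    rw [mem_filter, mem_Icc] at hτ
    exact hτ
  have hTL := hB.le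
  have hCpos : (0 : ℝ) < C.card := by linarith
  have hCne : C.Nonempty := by
    rw [← card_pos]
    exact_mod_cast hCpos
  have hℓ0 : (0 : ℝ) < ℓ := by
    have : 0 < ℓ := by omega
    exact_mod_cast this
  -- the number of exits and of leaders
  have hex := exits_card a P X hR C hCinv ℓ hClen
  have hld := lds_card a P X hR ht C T hT1 hTL κ' hT
  rw [← hUdef] at hld
  have hexR : ((C.filter fun q => q ∈ X).card : ℝ) ≤ (C.card : ℝ) / ℓ := by
    rw [le_div_iff₀ hℓ0]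
    exact_mod_cast hex
  have hldR : (C.card : ℝ) ≤ (U.card : ℝ) + ((C.filter fun q => q ∈ X).card : ℝ) + β + κ' := by
    exact_mod_cast hld
  have hz0 : (C.card : ℝ) - U.card ≤ (C.card : ℝ) / ℓ + β + κ' := by linarith
  have hCU : C.card ≤ 2 * U.card := by
    have : (C.card : ℝ) ≤ 2 * U.card := by linarith
    exact_mod_cast this
  -- the leaders
  have hinj : Set.InjOn P.ρ (U : Set ℕ) := by
    intro i hi j hj hij
    have h1 := hUmem i hi
    have h2 := hUmem j hj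
    exact P.inj i j (by omega) (by omega) (by omega) (by omega) hij
  have himg : U.image P.ρ ⊆ C := by
    intro q hq
    rw [mem_image] at hq
    obtain ⟨τ, hτ, rfl⟩ := hq
    exact (hUmem τ hτ).2.1
  have hUC : U.card ≤ C.card := by
    rw [← card_image_of_injOn hinj]
    exact card_le_card himg
  have hUn : U.card ≤ Fintype.card Q := hUC.trans (card_le_univ _)
  have hUy : ∀ τ ∈ U, 2 ≤ τ ∧ τ ≤ T ∧ P.y τ = a := by
    intro τ hτ
    have h1 := hUmem τ hτ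
    refine ⟨h1.1.1, h1.1.2, ?_⟩
    exact (hR.follow τ (by omega) (by omega) (hℓ.trans (hClen _ h1.2.1)) h1.2.2).2
  -- special states
  have hspec := special a P X hR (4 * h - 1) T B S hB ℓ Λ hℓ hΛ hCne hCU η hη hη1
  have hη2 : 0 < η ^ 2 := by positivity
  have hspec' : ((spec M a C B U η).card : ℝ) ≤ c := by
    have : ((spec M a C B U η).card : ℝ) * η ^ 2 ≤ c * η ^ 2 := hspec.trans hs
    exact le_of_mul_le_mul_right this hη2
  set D := C \ spec M a C B U η with hDdef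
  have hDinv : ∀ q ∈ D, M.σ a q ∈ D := long_diff_inv a ℓ Λ hℓ B U η
  have hDC : D ⊆ C := sdiff_subset
  have hDcard : c ≤ (D.card : ℝ) := by
    have h1 : C.card ≤ D.card + (spec M a C B U η).card := by
      have h2 : C ⊆ D ∪ spec M a C B U η := by
        intro q hq
        rw [mem_union, hDdef, mem_sdiff]
        by_cases hq2 : q ∈ spec M a C B U η
        · right; exact hq2
        · left; exact ⟨hq, hq2⟩
      exact (card_le_card h2).trans (card_union_le _ _)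
    have h3 : (C.card : ℝ) ≤ D.card + (spec M a C B U η).card := by exact_mod_cast h1
    linarith
  -- the mean slack
  have hmean := mean_slack (M := M) a D hDinv
    (fun q hq => le_trans (by omega) (hClen q (hDC hq))) (4 * h)
  have hx : ∀ s ∈ D, miss B U s ≤ ⌊η * (Fintype.card Q : ℝ)⌋₊ := by
    intro s hs'
    rw [hDdef, mem_sdiff] at hs'
    apply Nat.le_floor
    by_contra hcon
    rw [not_le] at hcon
    apply hs'.2
    unfold spec
    rw [mem_filter]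
    refine ⟨hs'.1, 0, ?_⟩
    have h1 : η * (U.card : ℝ) ≤ η * (Fintype.card Q : ℝ) :=
      mul_le_mul_of_nonneg_left (by exact_mod_cast hUn) hη.le
    rw [Function.iterate_zero, id]
    exact h1.trans hcon.le
  have hzz : (D \ U.image P.ρ).card ≤ C.card - U.card := by
    have h1 : D \ U.image P.ρ ⊆ C \ U.image P.ρ := sdiff_subset_sdiff hDC (Subset.refl _)
    refine (card_le_card h1).trans ?_
    rw [card_sdiff_of_subset himg, card_image_of_injOn hinj]
  have hbad := long_bad P D B U _ _ hzz hx h hh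
  -- the split
  have hn0 : 0 < Fintype.card Q := by
    obtain ⟨q, _⟩ := hCne
    exact Fintype.card_pos_iff.2 ⟨q⟩
  have hn0R : (0 : ℝ) < Fintype.card Q := by exact_mod_cast hn0
  have hS : 0 ≤ S := by
    have h1 : (0 : ℝ) ≤ (Fintype.card Q : ℝ) ^ (4 * h - 1) * S := by
      refine le_trans ?_ hB.sum
      exact sum_nonneg fun τ _ => sum_nonneg fun R _ => Nat.cast_nonneg _
    exact nonneg_of_mul_nonneg_right h1 (pow_pos hn0R _)
  have hdf : ∀ R : Fin (4 * h) → Q, (M.df a (univ.image R) : ℝ) ≤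
      1 + (Fintype.card Q : ℝ) * (4 * h) := by
    intro R
    have h1 := M.df_add a (univ.image R)
    have h2 := M.V_le ((univ.image R).image (M.σ a))
    have h3 : ((univ.image R).image (M.σ a)).card ≤ 4 * h := by
      refine card_image_le.trans (card_image_le.trans ?_)
      rw [card_univ, Fintype.card_fin]
    have h4 : M.df a (univ.image R) ≤ 1 + Fintype.card Q * (4 * h) := by
      have := Nat.mul_le_mul_left (Fintype.card Q) h3
      omega
    exact_mod_cast h4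
  have H : (D.card : ℝ) ^ (4 * h) ≤ 4 * h * ((Fintype.card Q : ℝ) ^ (4 * h - 1) * S) +
      (1 + (Fintype.card Q : ℝ) * (4 * h)) *
      (2 ^ (4 * h) * ((C.card - U.card : ℕ) : ℝ) ^ (2 * h) * (D.card : ℝ) ^ (2 * h) +
      2 * 2 ^ (4 * h) * (4 * h) ^ (4 * h) * (⌊η * (Fintype.card Q : ℝ)⌋₊ : ℝ) ^ h *
        (D.card : ℝ) ^ (3 * h)) := by
    have h1 : (D.card : ℝ) ^ (4 * h) =
        ∑ R ∈ Fintype.piFinset (fun _ : Fin (4 * h) => D), (M.df a (univ.image R) : ℝ) := by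
      rw [← Nat.cast_pow, ← hmean, Nat.cast_sum]
    rw [h1, ← sum_filter_add_sum_filter_not _
      (fun R => ∃ j, ∃ τ ∈ U, R j = P.ρ τ ∧ ∀ i, i ≠ j → R i ∈ B τ)]
    apply add_le_add
    · have h2 : (Fintype.piFinset (fun _ : Fin (4 * h) => D)).filter
          (fun R => ∃ j, ∃ τ ∈ U, R j = P.ρ τ ∧ ∀ i, i ≠ j → R i ∈ B τ) ⊆
          (univ : Finset (Fin (4 * h))).biUnion fun j =>
            (Fintype.piFinset (fun _ : Fin (4 * h) => D)).filter
              (fun R => ∃ τ ∈ U, R j = P.ρ τ ∧ ∀ i, i ≠ j → R i ∈ B τ) := by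
        intro R hR'
        rw [mem_filter] at hR'
        obtain ⟨h3, j, h4⟩ := hR'
        rw [mem_biUnion]
        exact ⟨j, mem_univ _, mem_filter.2 ⟨h3, h4⟩⟩
      refine (sum_le_sum_of_subset_of_nonneg h2 (fun _ _ _ => Nat.cast_nonneg _)).trans ?_
      refine (long_biUnion _ _ _ (fun _ => Nat.cast_nonneg _)).trans ?_
      have h5 : ∀ j ∈ (univ : Finset (Fin (4 * h))),
          (∑ R ∈ (Fintype.piFinset (fun _ : Fin (4 * h) => D)).filter
            (fun R => ∃ τ ∈ U, R j = P.ρ τ ∧ ∀ i, i ≠ j → R i ∈ B τ),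
              (M.df a (univ.image R) : ℝ)) ≤ (Fintype.card Q : ℝ) ^ (4 * h - 1) * S :=
        fun j _ => long_detected (by omega) a P T B S hB U hUy D j
      refine (sum_le_sum h5).trans (le_of_eq ?_)
      rw [sum_const, card_univ, Fintype.card_fin, nsmul_eq_mul]
      push_cast
      ring
    · refine (sum_le_sum (fun R _ => hdf R)).trans ?_
      rw [sum_const, nsmul_eq_mul, mul_comm]
      apply mul_le_mul_of_nonneg_left
      · exact_mod_cast hbad
      · positivity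
  refine long_arith h _ (D.card : ℝ) ((C.card - U.card : ℕ) : ℝ)
    (⌊η * (Fintype.card Q : ℝ)⌋₊ : ℝ) S c _ η hc hDcard hn0R.le (Nat.cast_nonneg _) ?_
    (Nat.cast_nonneg _) (Nat.floor_le (by positivity)) hS _ H
  rw [Nat.cast_sub hUC]
  exact hz0

end MortUB
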