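import Pool.Agent.Lib.MP_e1e800_lc_UB.Basic

/-!
# MP_e1e800_lc, project UB: the path
-/

namespace MortUB

open Finset

/-- A path to `q` whose ranks increase, which follows the rule. -/
structure PX {Q A : Type} [DecidableEq Q] (M : Sys Q A) (a : A) (X : Finset Q) (rk : Q → ℕ)
    (L : ℕ) (ρ : ℕ → Q) (y : ℕ → A) (q : Q) : Prop where
  pos : 1 ≤ L
  top : ρ L = q
  nxt : ∀ τ, 1 ≤ τ → τ < L → M.σ (y (τ + 1)) (ρ (τ + 1)) = ρ τ
  fin : M.kl (y 1) (ρ 1)
  mono : ∀ i j, 1 ≤ i → i < j → j ≤ L → rk (ρ i) < rk (ρ j)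
  follow : ∀ τ, 1 ≤ τ → τ ≤ L → 2 ≤ M.len a (ρ τ) → ρ τ ∉ X → 2 ≤ τ ∧ y τ = a

theorem px_one {Q A : Type} [DecidableEq Q] (M : Sys Q A) (a : A) (X : Finset Q) (rk : Q → ℕ)
    (b : A) (q : Q) (hk : M.kl b q) (hb : ¬ (2 ≤ M.len a q ∧ q ∉ X)) :
    ∃ L ρ y, PX M a X rk L ρ y q := by
  refine ⟨1, fun _ => q, fun _ => b, ⟨le_refl _, rfl, ?_, hk, ?_, ?_⟩⟩
  · intro τ h1 h2; omega
  · intro i j h1 h2 h3; omega
  · intro τ _ _ h3 h4
    exact absurd ⟨h3, h4⟩ hb

theorem px_ext {Q A : Type} [DecidableEq Q] (M : Sys Q A) (a : A) (X : Finset Q) (rk : Q → ℕ)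
    (b : A) (q : Q) (hlt : rk (M.σ b q) < rk q) (hb : 2 ≤ M.len a q → q ∉ X → b = a)
    (h : ∃ L ρ y, PX M a X rk L ρ y (M.σ b q)) :
    ∃ L ρ y, PX M a X rk L ρ y q := by
  obtain ⟨L, ρ, y, H⟩ := h
  refine ⟨L + 1, fun i => if i ≤ L then ρ i else q, fun i => if i ≤ L then y i else b,
    ⟨by omega, ?_, ?_, ?_, ?_, ?_⟩⟩
  · rw [if_neg (by omega)]
  · intro τ h1 h2
    by_cases h3 : τ = L
    · rw [if_neg (by omega), if_neg (by omega), if_pos (by omega), h3, H.top]
    · rw [if_pos (by omega), if_pos (by omega), if_pos (by omega)]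
      exact H.nxt τ h1 (by omega)
  · rw [if_pos H.pos, if_pos H.pos]
    exact H.fin
  · intro i j h1 h2 h3
    by_cases h4 : j ≤ L
    · rw [if_pos (by omega), if_pos h4]
      exact H.mono i j h1 h2 h4
    · rw [if_pos (by omega), if_neg h4]
      by_cases h5 : i = L
      · rw [h5, H.top]; exact hlt
      · have h6 := H.mono i L h1 (by omega) (le_refl _)
        rw [H.top] at h6
        exact h6.trans hlt
  · intro τ h1 h2
    by_cases h4 : τ ≤ L
    · rw [if_pos h4, if_pos h4]
      exact H.follow τ h1 h4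
    · rw [if_neg h4, if_neg h4]
      intro h5 h6
      exact ⟨by have := H.pos; omega, hb h5 h6⟩

theorem exists_path {Q A : Type} [Fintype Q] [DecidableEq Q] [Nonempty Q] (M : Sys Q A) (a : A) :
    ∃ (P : Path M) (X : Finset Q), Rule M a P X := by
  classical
  set f : Q → Q := M.σ a with hf
  set n : ℕ := Fintype.card Q with hn
  have hnpos : 0 < n := Fintype.card_pos
  set key : Q → ℕ := fun q => M.V {q} * n + (Fintype.equivFin Q q : ℕ) with hkey
  have hkV : ∀ x z, key x ≤ key z → M.V {x} ≤ M.V {z} := by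
    intro x z h
    have h1 : (Fintype.equivFin Q z : ℕ) < n := (Fintype.equivFin Q z).isLt
    by_contra hc
    have h2 : M.V {z} + 1 ≤ M.V {x} := by omega
    have h3 : (M.V {z} + 1) * n ≤ M.V {x} * n := Nat.mul_le_mul_right _ h2
    have h4 : (M.V {z} + 1) * n = M.V {z} * n + n := by ring
    simp only [hkey] at h
    omega
  have hkinj : ∀ x z, key x = key z → x = z := by
    intro x z h
    have h1 := hkV x z h.le
    have h2 := hkV z x h.ge
    have h3 : M.V {x} = M.V {z} := le_antisymm h1 h2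
    simp only [hkey] at h
    rw [h3] at h
    have h4 : (Fintype.equivFin Q x : ℕ) = (Fintype.equivFin Q z : ℕ) := by omega
    exact (Fintype.equivFin Q).injective (Fin.ext h4)
  -- facts on the cycles
  have hper : ∀ q, 2 ≤ M.len a q → q ∈ Function.periodicPts f := by
    intro q h
    rw [← Function.minimalPeriod_pos_iff_mem_periodicPts]
    have : M.len a q = Function.minimalPeriod f q := rfl
    omega
  have hlen : ∀ q, 2 ≤ M.len a q → ∀ j, M.len a (f^[j] q) = M.len a q := by
    intro q h j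
    exact Function.minimalPeriod_apply_iterate (hper q h) j
  have hmod : ∀ q j, f^[j % M.len a q] q = f^[j] q := by
    intro q j
    exact Function.iterate_mod_minimalPeriod_eq
  set X : Finset Q := univ.filter fun q => 2 ≤ M.len a q ∧ ∀ j, key q ≤ key (f^[j] q) with hX
  have hXm : ∀ q, q ∈ X ↔ (2 ≤ M.len a q ∧ ∀ j, key q ≤ key (f^[j] q)) := by
    intro q
    rw [hX, Finset.mem_filter]
    simp
  have hex : ∀ q, 2 ≤ M.len a q → ∃ j, j < M.len a q ∧ f^[j] q ∈ X := by
    intro q h
    obtain ⟨j, hj, hmin⟩ := Finset.exists_min_image (range (M.len a q)) (fun j => key (f^[j] q))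
      ⟨0, Finset.mem_range.mpr (by omega)⟩
    refine ⟨j, Finset.mem_range.mp hj, ?_⟩
    rw [hXm]
    refine ⟨by rw [hlen q h j]; exact h, fun i => ?_⟩
    rw [← Function.iterate_add_apply, ← hmod q (i + j)]
    exact hmin _ (Finset.mem_range.mpr (Nat.mod_lt _ (by omega)))
  have hback : ∀ q, 2 ≤ M.len a q → ∀ j, ∃ i, f^[i] (f^[j] q) = q := by
    intro q h j
    refine ⟨M.len a q - j % M.len a q, ?_⟩
    have h1 : j % M.len a q < M.len a q := Nat.mod_lt _ (by omega)
    rw [← hmod q j, ← Function.iterate_add_apply]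
    have h2 : M.len a q - j % M.len a q + j % M.len a q = M.len a q := by omega
    rw [h2]
    exact Function.iterate_minimalPeriod
  have huniq : ∀ x ∈ X, ∀ j, f^[j] x ∈ X → f^[j] x = x := by
    intro x hx j hj
    have h1 := (hXm _).mp hx
    have h2 := (hXm _).mp hj
    obtain ⟨i, hi⟩ := hback x h1.1 j
    have h3 := h1.2 j
    have h4 := h2.2 i
    rw [hi] at h4
    exact hkinj _ _ (le_antisymm h4 h3)
  -- the distance to the exit
  have hex' : ∀ q, ∃ j, 2 ≤ M.len a q → f^[j] q ∈ X := by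
    intro q
    by_cases h : 2 ≤ M.len a q
    · obtain ⟨j, _, hj⟩ := hex q h
      exact ⟨j, fun _ => hj⟩
    · exact ⟨0, fun h' => absurd h' h⟩
  set dist : Q → ℕ := fun q => Nat.find (hex' q) with hdist
  have hdspec : ∀ q, 2 ≤ M.len a q → f^[dist q] q ∈ X := fun q => Nat.find_spec (hex' q)
  have hdmin : ∀ q j, f^[j] q ∈ X → dist q ≤ j := fun q j h =>
    Nat.find_min' (hex' q) (fun _ => h)
  have hd0 : ∀ q, ¬ (2 ≤ M.len a q ∧ q ∉ X) → dist q = 0 := by
    intro q h
    have : dist q ≤ 0 := by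
      refine Nat.find_min' (hex' q) (fun h1 => ?_)
      by_contra h2
      exact h ⟨h1, h2⟩
    omega
  set psi : Q → ℕ := fun q => M.V {f^[dist q] q} with hpsi
  have hpsile : ∀ q, psi q ≤ M.V {q} := by
    intro q
    by_cases h : 2 ≤ M.len a q
    · have h1 := (hXm _).mp (hdspec q h)
      obtain ⟨i, hi⟩ := hback q h (dist q)
      have h2 := h1.2 i
      rw [hi] at h2
      exact hkV _ _ h2
    · have h1 := hd0 q (fun h' => h h'.1)
      simp only [hpsi]
      rw [h1, Function.iterate_zero, id]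
  set B : ℕ := univ.sup dist with hB
  have hdB : ∀ q, dist q ≤ B := fun q => Finset.le_sup (Finset.mem_univ q)
  set rk : Q → ℕ := fun q => psi q * (B + 1) + dist q with hrk
  -- the moves
  have hmoveA : ∀ q, 2 ≤ M.len a q → q ∉ X → rk (M.σ a q) < rk q := by
    intro q h hq
    have h1 : dist q ≠ 0 := by
      intro h0
      have := hdspec q h
      rw [h0] at this
      exact hq this
    have hl : M.len a (f q) = M.len a q := hlen q h 1
    have h2 : f^[dist q - 1] (f q) ∈ X := by
      rw [← Function.iterate_succ_apply]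
      have : (dist q - 1).succ = dist q := by omega
      rw [this]
      exact hdspec q h
    have h3 : dist (f q) ≤ dist q - 1 := hdmin _ _ h2
    have h4 : f^[dist (f q)] (f q) ∈ X := hdspec (f q) (by rw [hl]; exact h)
    have h5 : dist q ≤ dist (f q) + 1 := by
      refine hdmin _ _ ?_
      rw [Function.iterate_succ_apply]
      exact h4
    have h6 : dist q = dist (f q) + 1 := by omega
    have h7 : psi (f q) = psi q := by
      simp only [hpsi]
      rw [← Function.iterate_succ_apply, h6]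
    have h8 : rk (f q) < rk q := by
      simp only [hrk]
      rw [h7]
      omega
    exact h8
  have hmoveG : ∀ q b, ¬ (2 ≤ M.len a q ∧ q ∉ X) → M.V {M.σ b q} + 1 = M.V {q} →
      rk (M.σ b q) < rk q := by
    intro q b h hV
    have h1 := hd0 q h
    have h2 : psi q = M.V {q} := by
      simp only [hpsi]
      rw [h1, Function.iterate_zero, id]
    have h3 := hpsile (M.σ b q)
    have h4 : psi (M.σ b q) + 1 ≤ psi q := by omega
    have h5 := hdB (M.σ b q)
    have h6 : (psi (M.σ b q) + 1) * (B + 1) ≤ psi q * (B + 1) := Nat.mul_le_mul_right _ h4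
    have h7 : (psi (M.σ b q) + 1) * (B + 1) = psi (M.σ b q) * (B + 1) + (B + 1) := by ring
    simp only [hrk]
    omega
  -- the path
  have hpath : ∀ m q, rk q = m → ∃ L ρ y, PX M a X rk L ρ y q := by
    intro m
    induction m using Nat.strong_induction_on with
    | _ m ih =>
      intro q hq
      by_cases h : 2 ≤ M.len a q ∧ q ∉ X
      · have h1 := hmoveA q h.1 h.2
        exact px_ext M a X rk a q h1 (fun _ _ => rfl) (ih _ (by omega) _ rfl)
      · obtain ⟨b, hb | hb⟩ := M.greedy q
        · exact px_one M a X rk b q hb h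
        · have h1 := hmoveG q b h hb
          exact px_ext M a X rk b q h1 (fun h2 h3 => absurd ⟨h2, h3⟩ h) (ih _ (by omega) _ rfl)
  obtain ⟨q0, _, hq0⟩ := Finset.exists_max_image (univ : Finset Q) (fun q => M.V {q})
    Finset.univ_nonempty
  obtain ⟨L, ρ, y, H⟩ := hpath _ q0 rfl
  refine ⟨⟨L, ρ, y, H.pos, ?_, H.nxt, H.fin⟩, X, ?_⟩
  · intro i j h1 h2 h3 h4 he
    rcases lt_trichotomy i j with h | h | h
    · have := H.mono i j h1 h h4
      rw [he] at this
      exact absurd this (lt_irrefl _)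
    · exact h
    · have := H.mono j i h3 h h2
      rw [he] at this
      exact absurd this (lt_irrefl _)
  · refine ⟨?_, ?_, hex, huniq, H.follow⟩
    · intro q
      simp only
      rw [H.top]
      exact hq0 q (Finset.mem_univ q)
    · intro x hx
      exact ((hXm x).mp hx).1

end MortUB
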