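import Pool.Agent.Lib.MP_e1e800_lc_UB.Basic

/-!
# MP_e1e800_lc, project UB: short cycles
-/

namespace MortUB

open Finset

section SH

variable {Q : Type} [DecidableEq Q] [Fintype Q] (f : Q → Q) (X : Finset Q)

/-- the points of minimal period `v` -/
noncomputable def shC (v : ℕ) : Finset Q := univ.filter fun q => Function.minimalPeriod f q = v

variable {f X}

theorem sh_mem {v : ℕ} {q : Q} : q ∈ shC f v ↔ Function.minimalPeriod f q = v := by
  rw [shC, mem_filter]
  simp

theorem sh_iter {v : ℕ} (hv : 1 ≤ v) {q : Q} (hq : q ∈ shC f v) (j : ℕ) : f^[j] q ∈ shC f v := by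
  rw [sh_mem] at hq ⊢
  rw [Function.minimalPeriod_apply_iterate, hq]
  rw [← Function.minimalPeriod_pos_iff_mem_periodicPts]
  omega

theorem sh_mul {v : ℕ} {q : Q} (hq : q ∈ shC f v) (i : ℕ) : f^[i * v] q = q := by
  rw [sh_mem] at hq
  have h := (Function.isPeriodicPt_minimalPeriod f q).const_mul i
  rw [hq] at h
  exact h

theorem sh_back {v : ℕ} (hv : 1 ≤ v) {q : Q} (hq : q ∈ shC f v) (i : ℕ) :
    f^[i * (v - 1)] (f^[i] q) = q := by
  rw [← Function.iterate_add_apply]
  have h : i * (v - 1) + i = i * v := by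
    obtain ⟨w, rfl⟩ : ∃ w, v = w + 1 := ⟨v - 1, by omega⟩
    simp [Nat.mul_succ]
  rw [h, sh_mul hq]

theorem sh_inj {v : ℕ} (hv : 1 ≤ v) {q q' : Q} (hq : q ∈ shC f v) (hq' : q' ∈ shC f v) (i : ℕ)
    (h : f^[i] q = f^[i] q') : q = q' := by
  rw [← sh_back hv hq i, ← sh_back hv hq' i, h]

theorem sh_mod {v : ℕ} {q : Q} (hq : q ∈ shC f v) (i : ℕ) : f^[i % v] q = f^[i] q := by
  rw [sh_mem] at hq
  rw [← hq]
  exact Function.iterate_mod_minimalPeriod_eq

theorem sh_transfer {v : ℕ} (hv : 1 ≤ v) {q q' : Q} (hq : q ∈ shC f v) (hq' : q' ∈ shC f v)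
    {i j : ℕ} (h : f^[i] q = f^[j] q) : f^[i] q' = f^[j] q' := by
  rw [← sh_mod hq i, ← sh_mod hq j] at h
  have h1 : i % v = j % v := by
    have hq0 := sh_mem.mp hq
    refine Function.iterate_injOn_Iio_minimalPeriod (f := f) (x := q) ?_ ?_ h
    · rw [hq0]; exact Nat.mod_lt _ (by omega)
    · rw [hq0]; exact Nat.mod_lt _ (by omega)
  rw [← sh_mod hq' i, ← sh_mod hq' j, h1]

theorem sh_uniq {v : ℕ} (hv : 1 ≤ v) (hu : ∀ x ∈ X, ∀ j, f^[j] x ∈ X → f^[j] x = x)
    {q : Q} (hq : q ∈ shC f v) {i j : ℕ} (hi : f^[i] q ∈ X) (hj : f^[j] q ∈ X) :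
    f^[j] q = f^[i] q := by
  have h1 : f^[j + i * (v - 1)] (f^[i] q) = f^[j] q := by
    rw [Function.iterate_add_apply, sh_back hv hq]
  have h2 := hu (f^[i] q) hi (j + i * (v - 1)) (by rw [h1]; exact hj)
  rw [← h1, h2]

/-- the exits of the cycles of length `v` -/
theorem sh_exits {v : ℕ} (hv : 1 ≤ v) (hu : ∀ x ∈ X, ∀ j, f^[j] x ∈ X → f^[j] x = x) :
    v * (shC f v ∩ X).card ≤ (shC f v).card := by
  have h1 : v * (shC f v ∩ X).card = (range v ×ˢ (shC f v ∩ X)).card := by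
    rw [card_product, card_range]
  rw [h1]
  refine card_le_card_of_injOn (fun p => f^[p.1] p.2) ?_ ?_
  · intro p hp
    have hp' := mem_product.mp (mem_coe.mp hp)
    exact mem_coe.mpr (sh_iter hv (mem_inter.mp hp'.2).1 _)
  · intro p hp p' hp' h0
    have h : f^[p.1] p.2 = f^[p'.1] p'.2 := h0
    have hp1 := mem_product.mp (mem_coe.mp hp)
    have hp2 := mem_product.mp (mem_coe.mp hp')
    have hc := mem_inter.mp hp1.2
    have hc' := mem_inter.mp hp2.2
    have h2 : f^[p.1 * (v - 1) + p'.1] p'.2 = p.2 := by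
      rw [Function.iterate_add_apply, ← h]
      exact sh_back hv hc.1 _
    have h3 := hu p'.2 hc'.2 (p.1 * (v - 1) + p'.1) (by rw [h2]; exact hc.2)
    rw [h2] at h3
    refine Prod.ext ?_ h3
    have h4 : f^[p.1] p.2 = f^[p'.1] p.2 := by
      rw [h3]
      rw [h3] at h
      exact h
    have hq0 := sh_mem.mp hc.1
    refine Function.iterate_injOn_Iio_minimalPeriod (f := f) (x := p.2) ?_ ?_ h4
    · rw [hq0]; exact mem_range.mp hp1.1
    · rw [hq0]; exact mem_range.mp hp2.1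

theorem sh_main {v : ℕ} (hv : 2 ≤ v) (hu : ∀ x ∈ X, ∀ j, f^[j] x ∈ X → f^[j] x = x)
    (hex : ∀ q ∈ shC f v, ∃ j, f^[j] q ∈ X) (D : Finset (Q × Q))
    (hD : ∀ r1 ∈ shC f v, ∀ r2 ∈ shC f v, (∀ j, f^[j] r1 ≠ r2) →
      (∀ j, ¬ (f^[j] r1 ∈ X ∧ f^[j] r2 ∈ X)) → ∃ j, j < v ∧ (f^[j] r1, f^[j] r2) ∈ D) :
    ((v : ℝ) - 1) * (((shC f v).card : ℝ) - v) * (shC f v).card ≤ (v : ℝ) ^ 2 * D.card := by
  classical
  have hv1 : 1 ≤ v := by omega
  set C := shC f v with hC
  set G : Q → Finset Q := fun r1 => C.filter fun r2 => (∀ j, f^[j] r1 ≠ r2) ∧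
    (∀ j, ¬ (f^[j] r1 ∈ X ∧ f^[j] r2 ∈ X)) with hG
  have hexits := sh_exits (f := f) (X := X) hv1 hu
  rw [← hC] at hexits
  -- the number of partners of `r1`
  have h1 : ∀ r1 ∈ C, ((v : ℝ) - 1) * ((C.card : ℝ) - v) ≤ v * ((G r1).card : ℝ) := by
    intro r1 hr1
    obtain ⟨i, hi⟩ := hex r1 hr1
    have hE : ((C.filter fun r2 => (∀ j, f^[j] r1 ≠ r2) ∧ f^[i] r2 ∈ X)).card + 1 ≤
        (C ∩ X).card := by
      have hx : f^[i] r1 ∈ C ∩ X := mem_inter.mpr ⟨sh_iter hv1 hr1 i, hi⟩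
      rw [← card_erase_add_one hx]
      refine Nat.succ_le_succ (card_le_card_of_injOn (fun r2 => f^[i] r2) ?_ ?_)
      · intro r2 hr2
        have h := mem_filter.mp (mem_coe.mp hr2)
        refine mem_coe.mpr (mem_erase.mpr ⟨?_, mem_inter.mpr ⟨sh_iter hv1 h.1 i, h.2.2⟩⟩)
        intro he
        exact h.2.1 0 (sh_inj hv1 hr1 h.1 i he.symm)
      · intro r2 hr2 r3 hr3 h
        exact sh_inj hv1 (mem_filter.mp (mem_coe.mp hr2)).1 (mem_filter.mp (mem_coe.mp hr3)).1 i h
    have hsub : C ⊆ ((range v).image fun j => f^[j] r1) ∪ (G r1 ∪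
        (C.filter fun r2 => (∀ j, f^[j] r1 ≠ r2) ∧ f^[i] r2 ∈ X)) := by
      intro r2 hr2
      by_cases hs : ∀ j, f^[j] r1 ≠ r2
      · refine mem_union_right _ ?_
        by_cases hb : ∀ j, ¬ (f^[j] r1 ∈ X ∧ f^[j] r2 ∈ X)
        · exact mem_union_left _ (mem_filter.mpr ⟨hr2, hs, hb⟩)
        · push Not at hb
          obtain ⟨j, hj1, hj2⟩ := hb
          refine mem_union_right _ (mem_filter.mpr ⟨hr2, hs, ?_⟩)
          have h2 := sh_uniq hv1 hu hr1 hi hj1
          rw [sh_transfer hv1 hr1 hr2 h2.symm]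
          exact hj2
      · push Not at hs
        obtain ⟨j, hj⟩ := hs
        refine mem_union_left _ (mem_image.mpr ⟨j % v, mem_range.mpr (Nat.mod_lt _ (by omega)), ?_⟩)
        rw [sh_mod hr1, hj]
    have h2 := (card_le_card hsub).trans ((card_union_le _ _).trans
      (Nat.add_le_add (card_image_le) (card_union_le _ _)))
    rw [card_range] at h2
    have h3 : v * C.card + v ≤ v * v + v * (G r1).card + C.card := by
      have h4 : C.card + 1 ≤ v + (G r1).card + (C ∩ X).card := by omega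
      have h5 := Nat.mul_le_mul_left v h4
      have h6 : v * (v + (G r1).card + (C ∩ X).card) =
        v * v + v * (G r1).card + v * (C ∩ X).card := by ring
      have h7 : v * (C.card + 1) = v * C.card + v := by ring
      omega
    have h4 : (v : ℝ) * C.card + v ≤ v * v + v * (G r1).card + C.card := by exact_mod_cast h3
    nlinarith
  -- all pairs
  set GP : Finset (Q × Q) := C.biUnion fun r1 => (G r1).image fun r2 => (r1, r2) with hGP
  have hcard : GP.card = ∑ r1 ∈ C, (G r1).card := by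
    rw [hGP, card_biUnion]
    · refine sum_congr rfl fun r1 _ => ?_
      rw [card_image_of_injective]
      intro a b h
      exact (Prod.mk.inj h).2
    · intro x _ y _ hxy
      rw [Function.onFun, disjoint_left]
      intro p hp hp'
      obtain ⟨a, -, ha⟩ := mem_image.mp hp
      obtain ⟨b, -, hb⟩ := mem_image.mp hp'
      rw [← hb] at ha
      exact hxy (Prod.mk.inj ha).1
  have hmem : ∀ p ∈ GP, p.1 ∈ C ∧ p.2 ∈ C ∧ (∀ j, f^[j] p.1 ≠ p.2) ∧
      (∀ j, ¬ (f^[j] p.1 ∈ X ∧ f^[j] p.2 ∈ X)) := by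
    intro p hp
    obtain ⟨a, ha, hp1⟩ := mem_biUnion.mp hp
    obtain ⟨b, hb, rfl⟩ := mem_image.mp hp1
    have hb' := mem_filter.mp hb
    exact ⟨ha, hb'.1, hb'.2.1, hb'.2.2⟩
  have h2 : GP.card ≤ v * D.card := by
    have hsub : GP ⊆ (range v).biUnion fun j => GP.filter fun p => (f^[j] p.1, f^[j] p.2) ∈ D := by
      intro p hp
      obtain ⟨h1, h2, h3, h4⟩ := hmem p hp
      obtain ⟨j, hj, hj'⟩ := hD _ h1 _ h2 h3 h4
      exact mem_biUnion.mpr ⟨j, mem_range.mpr hj, mem_filter.mpr ⟨hp, hj'⟩⟩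
    refine (card_le_card hsub).trans (card_biUnion_le.trans ?_)
    have h3 : ∀ j ∈ range v, (GP.filter fun p => (f^[j] p.1, f^[j] p.2) ∈ D).card ≤ D.card := by
      intro j _
      refine card_le_card_of_injOn (fun p => (f^[j] p.1, f^[j] p.2)) ?_ ?_
      · intro p hp
        exact (mem_filter.mp (mem_coe.mp hp)).2
      · intro p hp p' hp' h
        obtain ⟨h1, h2, -, -⟩ := hmem p (mem_filter.mp (mem_coe.mp hp)).1
        obtain ⟨h3, h4, -, -⟩ := hmem p' (mem_filter.mp (mem_coe.mp hp')).1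
        obtain ⟨h5, h6⟩ := Prod.mk.inj h
        exact Prod.ext (sh_inj hv1 h1 h3 j h5) (sh_inj hv1 h2 h4 j h6)
    refine (sum_le_sum h3).trans ?_
    rw [sum_const, card_range, smul_eq_mul]
  have h3 : (∑ r1 ∈ C, ((v : ℝ) - 1) * ((C.card : ℝ) - v)) ≤
      ∑ r1 ∈ C, (v : ℝ) * ((G r1).card : ℝ) := sum_le_sum h1
  rw [sum_const, nsmul_eq_mul, ← mul_sum] at h3
  have h4 : (∑ r1 ∈ C, ((G r1).card : ℝ)) ≤ v * D.card := by
    have : ((GP.card : ℕ) : ℝ) ≤ ((v * D.card : ℕ) : ℝ) := by exact_mod_cast h2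
    rw [hcard] at this
    push_cast at this
    exact this
  have h5 : (0 : ℝ) ≤ v := Nat.cast_nonneg _
  have h6 := mul_le_mul_of_nonneg_left h4 h5
  calc ((v : ℝ) - 1) * ((C.card : ℝ) - v) * C.card
      = C.card * (((v : ℝ) - 1) * ((C.card : ℝ) - v)) := by ring
    _ ≤ _ := h3
    _ ≤ _ := h6
    _ = _ := by ring

/-- a nonempty class has at least `v` elements -/
theorem sh_card {v : ℕ} (hv : 1 ≤ v) (h : (shC f v).Nonempty) : v ≤ (shC f v).card := by
  obtain ⟨q, hq⟩ := h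
  calc v = (range v).card := (card_range v).symm
    _ ≤ _ := by
      refine card_le_card_of_injOn (fun j => f^[j] q) ?_ ?_
      · intro j _
        exact mem_coe.mpr (sh_iter hv hq j)
      · intro i hi j hj h
        have hq0 := sh_mem.mp hq
        refine Function.iterate_injOn_Iio_minimalPeriod (f := f) (x := q) ?_ ?_ h
        · rw [hq0]; exact mem_range.mp (mem_coe.mp hi)
        · rw [hq0]; exact mem_range.mp (mem_coe.mp hj)

end SH

variable {Q A : Type} [DecidableEq Q] [Fintype Q] {M : Sys Q A} {β : ℕ}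

/-- the pairs with positive slack -/
def shD (M : Sys Q A) (a : A) (X : Finset Q) (E : Finset Q) : Finset (Q × Q) :=
  (E ×ˢ univ).filter fun p => p.1 ∉ X ∧ 1 ≤ M.df a {p.1, p.2}

/-- the slack along a periodic pair -/
theorem sh_slack (a : A) {v : ℕ} (hv : 1 ≤ v) {r1 r2 : Q} (h1 : (M.σ a)^[v] r1 = r1)
    (h2 : (M.σ a)^[v] r2 = r2) :
    ∃ j, j < v ∧ 1 ≤ M.df a {(M.σ a)^[j] r1, (M.σ a)^[j] r2} := by
  by_contra h
  push Not at h
  have key : ∀ j, j ≤ v → M.V {(M.σ a)^[j] r1, (M.σ a)^[j] r2} + j = M.V {r1, r2} := by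
    intro j
    induction j with
    | zero => intro _; simp
    | succ j ih =>
      intro hj
      have h3 := ih (by omega)
      have h4 := M.df_add a {(M.σ a)^[j] r1, (M.σ a)^[j] r2}
      have h5 := h j (by omega)
      rw [image_insert, image_singleton, ← Function.iterate_succ_apply' (M.σ a) j r1,
        ← Function.iterate_succ_apply' (M.σ a) j r2, Nat.succ_eq_add_one] at h4
      omega
  have h3 := key v le_rfl
  rw [h1, h2] at h3
  omega

/-- the number of pairs with positive slack -/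
theorem sh_pairs (a : A) (P : Path M) (X : Finset Q) (hR : Rule M a P X)
    (ht : Fintype.card Q ≤ P.L + β) (T : ℕ) (hT1 : 1 ≤ T) (B : ℕ → Finset Q) (S : ℝ)
    (hB : Lead M P β 1 T B S) (κ' : ℕ) (hT : P.L < T + κ') :
    ((shD M a X (univ.filter fun q => 2 ≤ M.len a q)).card : ℝ) ≤
      Fintype.card Q * (S + 2 * β + κ') := by
  classical
  set n := Fintype.card Q with hn
  set DD := shD M a X (univ.filter fun q => 2 ≤ M.len a q) with hDD
  have hinj : Set.InjOn P.ρ (Icc 2 T : Finset ℕ) := by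
    intro i hi j hj h
    have hi' := mem_Icc.mp (mem_coe.mp hi)
    have hj' := mem_Icc.mp (mem_coe.mp hj)
    have := hB.le
    exact P.inj i j (by omega) (by omega) (by omega) (by omega) h
  have hcard : ((Icc 2 T).image P.ρ).card = T - 1 := by
    rw [card_image_of_injOn hinj, Nat.card_Icc]
    omega
  have hTn : T - 1 ≤ n := by
    rw [← hcard]
    exact card_le_univ _
  set U1 : Finset (Q × Q) := ((Icc 2 T).image P.ρ)ᶜ ×ˢ univ with hU1
  have hU1c : U1.card ≤ (β + κ') * n := by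
    rw [hU1, card_product, card_compl, hcard, card_univ, ← hn]
    exact Nat.mul_le_mul_right _ (by omega)
  set Dt : ℕ → Finset Q := fun τ => univ.filter fun r => (P.ρ τ, r) ∈ DD with hDt
  have hsub : DD ⊆ U1 ∪ (Icc 2 T).biUnion fun τ => (Dt τ).image fun r => (P.ρ τ, r) := by
    intro p hp
    by_cases h : p.1 ∈ (Icc 2 T).image P.ρ
    · obtain ⟨τ, hτ, hτ'⟩ := mem_image.mp h
      refine mem_union_right _ (mem_biUnion.mpr ⟨τ, hτ, mem_image.mpr ⟨p.2, ?_, ?_⟩⟩)
      · rw [hDt, mem_filter]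
        refine ⟨mem_univ _, ?_⟩
        rw [hτ']
        exact hp
      · rw [hτ']
    · exact mem_union_left _ (mem_product.mpr ⟨mem_compl.mpr h, mem_univ _⟩)
  have h1 : DD.card ≤ (β + κ') * n + ∑ τ ∈ Icc 2 T, (Dt τ).card := by
    refine (card_le_card hsub).trans ((card_union_le _ _).trans (Nat.add_le_add hU1c ?_))
    refine card_biUnion_le.trans (sum_le_sum fun τ _ => ?_)
    exact card_image_le
  have h2 : ∀ τ ∈ Icc 2 T, ((Dt τ).card : ℝ) ≤ β +
      ∑ R ∈ Fintype.piFinset (fun _ : Fin 1 => B τ),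
        (M.df (P.y τ) (insert (P.ρ τ) (univ.image R)) : ℝ) := by
    intro τ hτ
    have hτ' := mem_Icc.mp hτ
    have h3 : Dt τ ⊆ (B τ)ᶜ ∪ (B τ).filter fun r => (P.ρ τ, r) ∈ DD := by
      intro r hr
      by_cases hrB : r ∈ B τ
      · exact mem_union_right _ (mem_filter.mpr ⟨hrB, (mem_filter.mp hr).2⟩)
      · exact mem_union_left _ (mem_compl.mpr hrB)
    have h4 : ((B τ)ᶜ).card ≤ β := by
      rw [card_compl]
      have := hB.card τ (by omega) hτ'.2
      omega
    have h5 : (Dt τ).card ≤ β + ((B τ).filter fun r => (P.ρ τ, r) ∈ DD).card :=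
      (card_le_card h3).trans ((card_union_le _ _).trans (Nat.add_le_add_right h4 _))
    have h6 : (((B τ).filter fun r => (P.ρ τ, r) ∈ DD).card : ℝ) ≤
        ∑ r ∈ B τ, (M.df (P.y τ) {P.ρ τ, r} : ℝ) := by
      rw [card_filter, Nat.cast_sum]
      refine sum_le_sum fun r _ => ?_
      split_ifs with h
      · rw [hDD, shD, mem_filter, mem_product, mem_filter] at h
        obtain ⟨⟨⟨-, h7⟩, -⟩, h8, h9⟩ := h
        have hL := hB.le
        have h10 := (hR.follow τ (by omega) (by omega) h7 h8).2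
        rw [h10]
        exact_mod_cast h9
      · rw [Nat.cast_zero]
        exact Nat.cast_nonneg _
    have h7 : (∑ r ∈ B τ, (M.df (P.y τ) {P.ρ τ, r} : ℝ)) =
        ∑ R ∈ Fintype.piFinset (fun _ : Fin 1 => B τ),
          (M.df (P.y τ) (insert (P.ρ τ) (univ.image R)) : ℝ) := by
      refine sum_nbij' (fun r => fun _ => r) (fun R => R 0) ?_ ?_ ?_ ?_ ?_
      · intro r hr
        exact Fintype.mem_piFinset.mpr fun _ => hr
      · intro R hR'
        exact Fintype.mem_piFinset.mp hR' 0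
      · intro r _
        rfl
      · intro R _
        funext i
        rw [Subsingleton.elim i 0]
      · intro r _
        have : (univ : Finset (Fin 1)).image (fun _ => r) = {r} := by
          simp
        rw [this]
    rw [← h7]
    have h8 : ((Dt τ).card : ℝ) ≤ β + (((B τ).filter fun r => (P.ρ τ, r) ∈ DD).card : ℝ) := by
      exact_mod_cast h5
    linarith
  have h3 : ((∑ τ ∈ Icc 2 T, (Dt τ).card : ℕ) : ℝ) ≤ n * β + n * S := by
    rw [Nat.cast_sum]
    refine (sum_le_sum h2).trans ?_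
    rw [sum_add_distrib, sum_const, Nat.card_Icc, nsmul_eq_mul]
    have h4 := hB.sum
    rw [pow_one, ← hn] at h4
    have h5 : ((T + 1 - 2 : ℕ) : ℝ) ≤ n := by exact_mod_cast (by omega : T + 1 - 2 ≤ n)
    have h6 := mul_le_mul_of_nonneg_right h5 (Nat.cast_nonneg (α := ℝ) β)
    linarith
  have h4 : (DD.card : ℝ) ≤ (β + κ') * n + ((∑ τ ∈ Icc 2 T, (Dt τ).card : ℕ) : ℝ) := by
    exact_mod_cast h1
  nlinarith

/-- SHORT -/
theorem short (a : A) (P : Path M) (X : Finset Q) (hR : Rule M a P X)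
    (ht : Fintype.card Q ≤ P.L + β) (T : ℕ) (hT1 : 1 ≤ T) (B : ℕ → Finset Q) (S : ℝ)
    (hB : Lead M P β 1 T B S) (κ' : ℕ) (hT : P.L < T + κ') (Λ : ℕ) (hΛ : 1 ≤ Λ) :
    ((univ.filter fun q => 2 ≤ M.len a q ∧ M.len a q ≤ Λ).card : ℝ) ≤
      (Λ : ℝ) ^ 2 + 2 * Λ * Real.sqrt (Fintype.card Q * (S + 2 * β + κ')) := by
  classical
  set f := M.σ a with hf
  set W : ℝ := Fintype.card Q * (S + 2 * β + κ') with hW
  have hpairs := sh_pairs a P X hR ht T hT1 B S hB κ' hT
  rw [← hW] at hpairs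
  have hW0 : 0 ≤ W := (Nat.cast_nonneg _).trans hpairs
  -- every class
  have h1 : ∀ v ∈ Icc 2 Λ, ((shC f v).card : ℝ) * ((shC f v).card - v) ≤
      4 * v * ((shD M a X (shC f v)).card : ℝ) := by
    intro v hv
    have hv2 : 2 ≤ v := (mem_Icc.mp hv).1
    have hm := sh_main (f := f) (X := X) hv2 (fun x hx j hj => hR.uniq x hx j hj)
      (fun q hq => by
        obtain ⟨j, -, hj⟩ := hR.ex q (by
          have := sh_mem.mp hq
          unfold Sys.len
          rw [← hf, this]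
          exact hv2)
        exact ⟨j, hj⟩)
      (shD M a X (shC f v) ∪ (shD M a X (shC f v)).image Prod.swap)
      (fun r1 hr1 r2 hr2 _ hX => by
        obtain ⟨j, hj, hj'⟩ := sh_slack (M := M) a (v := v) (by omega)
          (r1 := r1) (r2 := r2) (by simpa using sh_mul hr1 1) (by simpa using sh_mul hr2 1)
        refine ⟨j, hj, ?_⟩
        by_cases hx : f^[j] r1 ∈ X
        · have hx2 : f^[j] r2 ∉ X := fun h => hX j ⟨hx, h⟩
          refine mem_union_right _ (mem_image.mpr ⟨(f^[j] r2, f^[j] r1), ?_, rfl⟩)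
          rw [shD, mem_filter, mem_product]
          refine ⟨⟨sh_iter (by omega) hr2 j, mem_univ _⟩, hx2, ?_⟩
          rw [pair_comm]
          exact hj'
        · refine mem_union_left _ ?_
          rw [shD, mem_filter, mem_product]
          exact ⟨⟨sh_iter (by omega) hr1 j, mem_univ _⟩, hx, hj'⟩)
    have hc : ((shD M a X (shC f v) ∪ (shD M a X (shC f v)).image Prod.swap).card : ℝ) ≤
        2 * ((shD M a X (shC f v)).card : ℝ) := by
      have h2 : (shD M a X (shC f v) ∪ (shD M a X (shC f v)).image Prod.swap).card ≤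
          2 * (shD M a X (shC f v)).card := by
        refine (card_union_le _ _).trans ?_
        have := card_image_le (s := shD M a X (shC f v)) (f := Prod.swap)
        omega
      exact_mod_cast h2
    have hv0 : (2 : ℝ) ≤ v := by exact_mod_cast hv2
    have hc0 : (0 : ℝ) ≤ ((shC f v).card : ℝ) * ((shC f v).card - v) := by
      rcases (shC f v).eq_empty_or_nonempty with h | h
      · rw [h]; simp
      · have := sh_card (f := f) (v := v) (by omega) h
        have h3 : (v : ℝ) ≤ (shC f v).card := by exact_mod_cast this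
        exact mul_nonneg (Nat.cast_nonneg _) (by linarith)
    have h3 : (v : ℝ) ^ 2 * ((shD M a X (shC f v) ∪
        (shD M a X (shC f v)).image Prod.swap).card : ℝ) ≤
        (v : ℝ) ^ 2 * (2 * ((shD M a X (shC f v)).card : ℝ)) :=
      mul_le_mul_of_nonneg_left hc (by positivity)
    have h4 : (v : ℝ) * (((shC f v).card : ℝ) * ((shC f v).card - v)) ≤
        v * (4 * v * ((shD M a X (shC f v)).card : ℝ)) := by
      nlinarith
    exact le_of_mul_le_mul_left h4 (by linarith)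
  -- sum of the pairs
  have h2 : (∑ v ∈ Icc 2 Λ, ((shD M a X (shC f v)).card : ℝ)) ≤ W := by
    refine le_trans ?_ hpairs
    have h3 : ∑ v ∈ Icc 2 Λ, (shD M a X (shC f v)).card =
        ((Icc 2 Λ).biUnion fun v => shD M a X (shC f v)).card := by
      rw [card_biUnion]
      intro x _ y _ hxy
      rw [Function.onFun, disjoint_left]
      intro p hp hp'
      rw [shD, mem_filter, mem_product, sh_mem] at hp hp'
      exact hxy (hp.1.1.symm.trans hp'.1.1)
    have h4 : ((Icc 2 Λ).biUnion fun v => shD M a X (shC f v)) ⊆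
        shD M a X (univ.filter fun q => 2 ≤ M.len a q) := by
      intro p hp
      obtain ⟨v, hv, hp'⟩ := mem_biUnion.mp hp
      rw [shD, mem_filter, mem_product, sh_mem] at hp'
      rw [shD, mem_filter, mem_product, mem_filter]
      refine ⟨⟨⟨mem_univ _, ?_⟩, mem_univ _⟩, hp'.2⟩
      unfold Sys.len
      rw [← hf, hp'.1.1]
      exact (mem_Icc.mp hv).1
    have h5 := card_le_card h4
    rw [← h3] at h5
    exact_mod_cast h5
  -- the classes
  have h3 : ((univ.filter fun q => 2 ≤ M.len a q ∧ M.len a q ≤ Λ).card : ℝ) =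
      ∑ v ∈ Icc 2 Λ, ((shC f v).card : ℝ) := by
    have h4 : (univ.filter fun q => 2 ≤ M.len a q ∧ M.len a q ≤ Λ) =
        (Icc 2 Λ).biUnion fun v => shC f v := by
      ext q
      rw [mem_filter, mem_biUnion]
      constructor
      · rintro ⟨-, h⟩
        exact ⟨M.len a q, mem_Icc.mpr h, sh_mem.mpr rfl⟩
      · rintro ⟨v, hv, hq⟩
        have := sh_mem.mp hq
        refine ⟨mem_univ _, ?_⟩
        unfold Sys.len
        rw [← hf, this]
        exact mem_Icc.mp hv
    rw [h4, card_biUnion]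
    · push_cast
      rfl
    · intro x _ y _ hxy
      rw [Function.onFun, disjoint_left]
      intro q hq hq'
      exact hxy ((sh_mem.mp hq).symm.trans (sh_mem.mp hq'))
  have hL0 : (0 : ℝ) ≤ Λ := Nat.cast_nonneg _
  have h4 : ∀ v ∈ Icc 2 Λ, ((shC f v).card : ℝ) ≤
      v + Real.sqrt (((shC f v).card : ℝ) * ((shC f v).card - v)) := by
    intro v hv
    have hv2 : 2 ≤ v := (mem_Icc.mp hv).1
    rcases (shC f v).eq_empty_or_nonempty with h | h
    · rw [h]
      simp
    · have := sh_card (f := f) (v := v) (by omega) h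
      have h5 : (v : ℝ) ≤ (shC f v).card := by exact_mod_cast this
      have h6 : ((shC f v).card : ℝ) - v ≤
          Real.sqrt (((shC f v).card : ℝ) * ((shC f v).card - v)) := by
        refine Real.le_sqrt_of_sq_le ?_
        have h7 : (0 : ℝ) ≤ v := Nat.cast_nonneg _
        nlinarith
      linarith
  have h5 : (∑ v ∈ Icc 2 Λ, (v : ℝ)) ≤ (Λ : ℝ) ^ 2 := by
    calc (∑ v ∈ Icc 2 Λ, (v : ℝ)) ≤ ∑ v ∈ Icc 2 Λ, (Λ : ℝ) := by
          refine sum_le_sum fun v hv => ?_
          exact_mod_cast (mem_Icc.mp hv).2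
      _ = ((Λ + 1 - 2 : ℕ) : ℝ) * Λ := by rw [sum_const, Nat.card_Icc, nsmul_eq_mul]
      _ ≤ (Λ : ℝ) * Λ := by
          refine mul_le_mul_of_nonneg_right ?_ hL0
          exact_mod_cast (by omega : Λ + 1 - 2 ≤ Λ)
      _ = _ := by ring
  have hnn : ∀ v ∈ Icc 2 Λ, (0 : ℝ) ≤ ((shC f v).card : ℝ) * ((shC f v).card - v) := by
    intro v hv
    have hv2 : 2 ≤ v := (mem_Icc.mp hv).1
    rcases (shC f v).eq_empty_or_nonempty with h | h
    · rw [h]; simp
    · have := sh_card (f := f) (v := v) (by omega) h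
      have h3 : (v : ℝ) ≤ (shC f v).card := by exact_mod_cast this
      exact mul_nonneg (Nat.cast_nonneg _) (by linarith)
  have h6 : (∑ v ∈ Icc 2 Λ, Real.sqrt (((shC f v).card : ℝ) * ((shC f v).card - v))) ≤
      2 * Λ * Real.sqrt W := by
    have h7 : (∑ v ∈ Icc 2 Λ, Real.sqrt (((shC f v).card : ℝ) * ((shC f v).card - v))) ^ 2 ≤
        (2 * Λ * Real.sqrt W) ^ 2 := by
      refine (sq_sum_le_card_mul_sum_sq).trans ?_
      rw [Nat.card_Icc]
      have h8 : (∑ v ∈ Icc 2 Λ,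
          Real.sqrt (((shC f v).card : ℝ) * ((shC f v).card - v)) ^ 2) ≤ 4 * Λ * W := by
        calc _ ≤ ∑ v ∈ Icc 2 Λ, 4 * (Λ : ℝ) * ((shD M a X (shC f v)).card : ℝ) := by
              refine sum_le_sum fun v hv => ?_
              rw [Real.sq_sqrt (hnn v hv)]
              refine (h1 v hv).trans ?_
              have h9 : (v : ℝ) ≤ Λ := by exact_mod_cast (mem_Icc.mp hv).2
              refine mul_le_mul_of_nonneg_right ?_ (Nat.cast_nonneg _)
              linarith
          _ = 4 * (Λ : ℝ) * ∑ v ∈ Icc 2 Λ, ((shD M a X (shC f v)).card : ℝ) := by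
              rw [mul_sum]
          _ ≤ _ := mul_le_mul_of_nonneg_left h2 (by positivity)
      calc ((Λ + 1 - 2 : ℕ) : ℝ) * _ ≤ (Λ : ℝ) * (4 * Λ * W) := by
            refine mul_le_mul ?_ h8 (sum_nonneg fun _ _ => by positivity) hL0
            exact_mod_cast (by omega : Λ + 1 - 2 ≤ Λ)
        _ = _ := by
            rw [mul_pow, Real.sq_sqrt hW0]
            ring
    exact (sq_le_sq₀ (sum_nonneg fun _ _ => Real.sqrt_nonneg _) (by positivity)).mp h7
  rw [h3]
  calc _ ≤ ∑ v ∈ Icc 2 Λ, ((v : ℝ) +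
        Real.sqrt (((shC f v).card : ℝ) * ((shC f v).card - v))) := sum_le_sum h4
    _ = _ := sum_add_distrib
    _ ≤ _ := add_le_add h5 h6

end MortUB
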