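import Pool.Agent.Lib.MP_e1e800_lc_UB.Letter
import Pool.Agent.Lib.MP_e1e800_lc_UB.PathEx
import Pool.Agent.Lib.MP_e1e800_lc_UB.Leader
import Pool.Agent.Lib.MP_e1e800_lc_UB.Short
import Pool.Agent.Lib.MP_e1e800_lc_UB.Long

/-!
# MP_e1e800_lc, project UB: the combinatorial core
-/

namespace MortUB

open Finset

variable {Q A : Type} [DecidableEq Q] [Fintype Q] [Nonempty Q] [Fintype A] {M : Sys Q A}
  {β W0 : ℕ}

theorem scales_cover (a : A) (Λ r : ℕ) (hΛ : 4 ≤ Λ) (hr : Fintype.card Q < Λ ^ (r + 1)) :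
    (univ.filter fun q => 2 ≤ M.len a q) ⊆
      (univ.filter fun q => 2 ≤ M.len a q ∧ M.len a q ≤ Λ) ∪
        (Icc 1 r).biUnion fun i => cls M a (Λ ^ i) Λ := by
  intro q hq
  rw [mem_filter] at hq
  rw [mem_union]
  by_cases h : M.len a q ≤ Λ
  · left; simp [hq.2, h]
  · right
    rw [not_le] at h
    have hlen : M.len a q ≤ Fintype.card Q := by
      unfold Sys.len
      have hper : q ∈ Function.periodicPts (M.σ a) := by
        by_contra hc
        have := Function.minimalPeriod_eq_zero_of_notMem_periodicPts hc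
        unfold Sys.len at h
        omega
      have hinj : Set.InjOn (fun i => (M.σ a)^[i] q)
          ((range (Function.minimalPeriod (M.σ a) q) : Finset ℕ) : Set ℕ) := by
        intro i hi j hj hij
        simp only [coe_range, Set.mem_Iio] at hi hj
        have := Function.iterate_injOn_Iio_minimalPeriod (f := M.σ a) (x := q) hi hj hij
        exact this
      have := card_image_of_injOn hinj
      rw [card_range] at this
      rw [← this]
      exact card_le_univ _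
    have hne : M.len a q ≠ 0 := by omega
    refine mem_biUnion.2 ⟨Nat.log Λ (M.len a q), ?_, ?_⟩
    · rw [mem_Icc]
      constructor
      · exact Nat.log_pos (by omega) (by omega)
      · have h1 : Λ ^ Nat.log Λ (M.len a q) ≤ M.len a q := Nat.pow_log_le_self Λ hne
        have h2 : Λ ^ Nat.log Λ (M.len a q) < Λ ^ (r + 1) := by omega
        have := (Nat.pow_lt_pow_iff_right (by omega : 1 < Λ)).1 h2
        omega
    · unfold cls
      rw [mem_filter]
      refine ⟨mem_univ _, Nat.pow_log_le_self Λ hne, ?_⟩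
      have := Nat.lt_pow_succ_log_self (b := Λ) (by omega) (M.len a q)
      rw [pow_succ] at this
      rw [mul_comm]
      exact this

/-- CORE: everything before the numerics. -/
theorem core (hN : Near M β W0) (h κ κ' t Λ r : ℕ) (η c : ℝ) (hh : 1 ≤ h)
    (hW : 4 * h * Fintype.card Q ≤ W0) (hβn : β + 1 < Fintype.card Q) (ht : 1 ≤ t)
    (hκ : 2 ≤ κ) (hκβ : β ≤ κ) (hκn : 4 * κ ≤ Fintype.card Q) (hκ' : 1 ≤ κ')
    (hκ'n : κ' + β ≤ Fintype.card Q) (hΛ : 4 ≤ Λ) (hr : Fintype.card Q < Λ ^ (r + 1))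
    (hη : 0 < η) (hη1 : η ≤ 1) (hc : 0 < c)
    (h1 : (Fintype.card A : ℝ) * ((Λ : ℝ) ^ 2 + 2 * Λ * Real.sqrt (Fintype.card Q *
      (errS (Fintype.card Q) β κ κ' t 2 + 2 * β + κ')) + 2 * c * r + β) + β + 1 <
      Fintype.card Q)
    (h2 : (β : ℝ) + κ' ≤ c / 2) (h3 : 16 * (Λ : ℝ) * β ≤ c * η ^ 2)
    (h4 : 4 * h * errS (Fintype.card Q) β κ κ' t (4 * h) *
        (Fintype.card Q : ℝ) ^ (4 * h - 1) / c ^ (4 * h) +
      (4 * h * Fintype.card Q + 1) * (2 ^ (4 * h) *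
        (((Fintype.card Q : ℝ) / Λ + β + κ') / c) ^ (2 * h) +
        2 * 2 ^ (4 * h) * (4 * h) ^ (4 * h) * (η * Fintype.card Q / c) ^ h) < 1) : False := by
  have hnW : Fintype.card Q ≤ W0 := by nlinarith
  obtain ⟨a, ha⟩ := hN.letter hnW hβn
  obtain ⟨P, X, hR⟩ := exists_path M a
  have htop : Fintype.card Q ≤ M.V {P.ρ P.L} + β := by
    obtain ⟨q, hq⟩ := hN.top
    have := hR.start q
    omega
  have hL : Fintype.card Q ≤ P.L + β := P.le_L β htop
  have hκL : κ' ≤ P.L := by omega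
  -- short cycles
  obtain ⟨T, hT, hT1, B, hB⟩ := leader hN P htop 1 (by nlinarith) κ κ' t ht hκ hκβ hκn hκ' hκL
  have hshort := short a P X hR hL T hT1 B _ hB κ' hT Λ (by omega)
  have e2 : ((1 : ℕ) : ℝ) + 1 = 2 := by norm_num
  rw [e2] at hshort
  -- a large class
  have hcard : Fintype.card Q ≤ Fintype.card A *
      ((univ.filter fun q => 2 ≤ M.len a q).card + β) + β + 1 := ha
  have hex : ∃ i ∈ Icc 1 r, 2 * c ≤ ((cls M a (Λ ^ i) Λ).card : ℝ) := by
    by_contra hcon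
    push Not at hcon
    have hsub := card_le_card (scales_cover (M := M) a Λ r hΛ hr)
    have hle : (univ.filter fun q => 2 ≤ M.len a q).card ≤
        (univ.filter fun q => 2 ≤ M.len a q ∧ M.len a q ≤ Λ).card +
          ∑ i ∈ Icc 1 r, (cls M a (Λ ^ i) Λ).card :=
      hsub.trans ((card_union_le _ _).trans (Nat.add_le_add_left card_biUnion_le _))
    have hle' : ((univ.filter fun q => 2 ≤ M.len a q).card : ℝ) ≤
        ((univ.filter fun q => 2 ≤ M.len a q ∧ M.len a q ≤ Λ).card : ℝ) +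
          ∑ i ∈ Icc 1 r, ((cls M a (Λ ^ i) Λ).card : ℝ) := by exact_mod_cast hle
    have hsum : ∑ i ∈ Icc 1 r, ((cls M a (Λ ^ i) Λ).card : ℝ) ≤ 2 * c * r := by
      calc ∑ i ∈ Icc 1 r, ((cls M a (Λ ^ i) Λ).card : ℝ) ≤ ∑ i ∈ Icc 1 r, 2 * c :=
            sum_le_sum fun i hi => (hcon i hi).le
        _ = 2 * c * r := by simp; ring
    have hcard' : (Fintype.card Q : ℝ) ≤ Fintype.card A *
        (((univ.filter fun q => 2 ≤ M.len a q).card : ℝ) + β) + β + 1 := by exact_mod_cast hcard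
    have hA : (0 : ℝ) ≤ Fintype.card A := Nat.cast_nonneg _
    have := mul_le_mul_of_nonneg_left (show
      (((univ.filter fun q => 2 ≤ M.len a q).card : ℝ) + β) ≤ (Λ : ℝ) ^ 2 + 2 * Λ * Real.sqrt
        (Fintype.card Q * (errS (Fintype.card Q) β κ κ' t 2 + 2 * β + κ')) + 2 * c * r + β by
        linarith) hA
    linarith
  obtain ⟨i, hi, hci⟩ := hex
  rw [mem_Icc] at hi
  have hℓΛ : Λ ≤ Λ ^ i := by
    calc Λ = Λ ^ 1 := (pow_one _).symm
      _ ≤ Λ ^ i := Nat.pow_le_pow_right (by omega) hi.1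
  -- long cycles
  obtain ⟨T', hT', hT1', B', hB'⟩ := leader hN P htop (4 * h - 1)
    (by rw [Nat.sub_add_cancel (by omega)]; exact hW) κ κ' t ht hκ hκβ hκn hκ' hκL
  have hΛr : (4 : ℝ) ≤ Λ := by exact_mod_cast hΛ
  have hℓr : (Λ : ℝ) ≤ ((Λ ^ i : ℕ) : ℝ) := by exact_mod_cast hℓΛ
  have hCn : ((cls M a (Λ ^ i) Λ).card : ℝ) ≤ Fintype.card Q := by
    exact_mod_cast card_le_univ _
  have hC0 : (0 : ℝ) ≤ ((cls M a (Λ ^ i) Λ).card : ℝ) := Nat.cast_nonneg _
  have hdiv4 : ((cls M a (Λ ^ i) Λ).card : ℝ) / ((Λ ^ i : ℕ) : ℝ) ≤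
      ((cls M a (Λ ^ i) Λ).card : ℝ) / 4 :=
    div_le_div_of_nonneg_left hC0 (by norm_num) (hΛr.trans hℓr)
  have hdivΛ : ((cls M a (Λ ^ i) Λ).card : ℝ) / ((Λ ^ i : ℕ) : ℝ) ≤
      (Fintype.card Q : ℝ) / Λ := by
    calc ((cls M a (Λ ^ i) Λ).card : ℝ) / ((Λ ^ i : ℕ) : ℝ)
        ≤ ((cls M a (Λ ^ i) Λ).card : ℝ) / Λ :=
          div_le_div_of_nonneg_left hC0 (by linarith) hℓr
      _ ≤ (Fintype.card Q : ℝ) / Λ := div_le_div_of_nonneg_right hCn (by linarith)
  have hlong := long a P X hR hL h hh T' hT1' B' _ hB' κ' hT' (Λ ^ i) Λ (by omega) (by omega) η hη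
    hη1 c hc hci (by linarith) h3
  have e4 : ((4 * h - 1 : ℕ) : ℝ) + 1 = 4 * h := by
    rw [Nat.cast_sub (by omega)]; push_cast; ring
  rw [e4] at hlong
  have hmono : (((cls M a (Λ ^ i) Λ).card : ℝ) / ((Λ ^ i : ℕ) : ℝ) + β + κ') / c ≤
      ((Fintype.card Q : ℝ) / Λ + β + κ') / c :=
    div_le_div_of_nonneg_right (by linarith) hc.le
  have hpow : ((((cls M a (Λ ^ i) Λ).card : ℝ) / ((Λ ^ i : ℕ) : ℝ) + β + κ') / c) ^ (2 * h) ≤
      (((Fintype.card Q : ℝ) / Λ + β + κ') / c) ^ (2 * h) :=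
    pow_le_pow_left₀ (by positivity) hmono _
  have h20 : (0 : ℝ) ≤ 2 ^ (4 * h) := by positivity
  have hfin := mul_le_mul_of_nonneg_left (add_le_add_left (mul_le_mul_of_nonneg_left hpow h20)
    (2 * 2 ^ (4 * h) * (4 * h) ^ (4 * h) * (η * Fintype.card Q / c) ^ h))
    (show (0 : ℝ) ≤ 4 * h * Fintype.card Q + 1 by positivity)
  push_cast at hlong h4 hfin ⊢
  linarith

end MortUB
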