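import Pool.Agent.Lib.MP_e1e800_lc_UB.NearL
import Pool.Agent.Lib.MP_e1e800_lc_UB.PathL

/-!
# MP_e1e800_lc, project UB: covering
-/

namespace MortUB

open Finset

variable {Q A : Type} [DecidableEq Q] [Fintype Q] {M : Sys Q A} {β W0 : ℕ}

theorem cover_key (P : Path M) (t y x z z' : ℕ) (h1 : 1 ≤ x) (h2 : x ≤ y) (h3 : y ≤ P.L)
    (he : M.mv (P.wd y x) (P.ρ z) = P.ρ z') (hz : ¬ (t : ℤ) < |(P.F y z : ℤ) - y - z|)
    (hz' : ¬ (t : ℤ) < |(P.F x z' : ℤ) - x - z'|) : z ≤ z' + 2 * t := by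
  have h4 := P.V_wd y x h1 h2 h3 {P.ρ z}
  rw [image_singleton, he] at h4
  have h5 : P.F y z ≤ (y - x) + P.F x z' := h4
  rw [not_lt, abs_le] at hz hz'
  omega

theorem cover_lem (P : Path M) (hL : Fintype.card Q ≤ P.L + β) (t lo : ℕ)
    (l : List (ℕ × ℕ)) (hl : ∀ p ∈ l, 1 ≤ p.2 ∧ p.2 ≤ p.1 ∧ p.1 ≤ P.L) :
    ∀ (Z : Finset ℕ) (c : ℕ), Z ⊆ Icc 1 P.L →
      Set.InjOn (fun z => M.mv (P.wds l) (P.ρ z)) (Z : Set ℕ) → (∀ z ∈ Z, lo ≤ z + c) →
      ∃ Z' : Finset ℕ, Z' ⊆ Icc 1 P.L ∧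
        (∀ z' ∈ Z', ∃ z ∈ Z, M.mv (P.wds l) (P.ρ z) = P.ρ z') ∧
        Z.card ≤ Z'.card + l.length * β + (l.map fun p => P.E t p.1 + P.E t p.2).sum ∧
        ∀ z' ∈ Z', lo ≤ z' + c + 2 * l.length * t := by
  classical
  induction l with
  | nil =>
    intro Z c hZ _ hlo
    refine ⟨Z, hZ, fun z hz => ⟨z, hz, rfl⟩, by simp, fun z hz => ?_⟩
    have := hlo z hz
    simp
    omega
  | cons p l ih =>
    intro Z c hZ hinj hlo
    have hp := hl p List.mem_cons_self
    -- the set of the good images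
    set g : ℕ → Q := fun z => M.mv (P.wd p.1 p.2) (P.ρ z) with hg
    have hmv : ∀ z, M.mv (P.wds (p :: l)) (P.ρ z) = M.mv (P.wds l) (g z) := by
      intro z
      rw [P.wds_cons, M.mv_append]
    have hginj : Set.InjOn g (Z : Set ℕ) := by
      intro z hz z' hz' he
      apply hinj hz hz'
      show M.mv (P.wds (p :: l)) (P.ρ z) = M.mv (P.wds (p :: l)) (P.ρ z')
      rw [hmv, hmv, he]
    set Z1 : Finset ℕ := (Icc 1 P.L).filter fun z' =>
      (¬ (t : ℤ) < |(P.F p.2 z' : ℤ) - p.2 - z'|) ∧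
        ∃ z ∈ Z, (¬ (t : ℤ) < |(P.F p.1 z : ℤ) - p.1 - z|) ∧ g z = P.ρ z' with hZ1
    have hZ1inj : Set.InjOn (fun z => M.mv (P.wds l) (P.ρ z)) (Z1 : Set ℕ) := by
      intro a ha b hb he
      rw [mem_coe, hZ1, mem_filter] at ha hb
      obtain ⟨za, hza, _, hga⟩ := ha.2.2
      obtain ⟨zb, hzb, _, hgb⟩ := hb.2.2
      have he' : M.mv (P.wds (p :: l)) (P.ρ za) = M.mv (P.wds (p :: l)) (P.ρ zb) := by
        rw [hmv, hmv, hga, hgb]
        exact he
      have hzz : za = zb := hinj hza hzb he'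
      rw [hzz, hgb] at hga
      exact P.injOn (mem_coe.2 ha.1) (mem_coe.2 hb.1) hga.symm
    have hZ1lo : ∀ z' ∈ Z1, lo ≤ z' + (c + 2 * t) := by
      intro z' hz'
      rw [hZ1, mem_filter] at hz'
      obtain ⟨z, hz, hze, hgz⟩ := hz'.2.2
      have h1 := cover_key P t p.1 p.2 z z' hp.1 hp.2.1 hp.2.2 hgz hze hz'.2.1
      have h2 := hlo z hz
      omega
    have hcount : Z.card ≤ Z1.card + β + (P.E t p.1 + P.E t p.2) := by
      -- split Z
      have hsub : Z ⊆ ((Icc 1 P.L).filter fun x => (t : ℤ) < |(P.F p.1 x : ℤ) - p.1 - x|) ∪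
          (Z.filter fun z => ¬ (t : ℤ) < |(P.F p.1 z : ℤ) - p.1 - z|) := by
        intro z hz
        rw [mem_union, mem_filter, mem_filter]
        by_cases h : (t : ℤ) < |(P.F p.1 z : ℤ) - p.1 - z|
        · left; exact ⟨hZ hz, h⟩
        · right; exact ⟨hz, h⟩
      have c1 := (card_le_card hsub).trans (card_union_le _ _)
      have c2 : (Z.filter fun z => ¬ (t : ℤ) < |(P.F p.1 z : ℤ) - p.1 - z|).card =
          ((Z.filter fun z => ¬ (t : ℤ) < |(P.F p.1 z : ℤ) - p.1 - z|).image g).card := by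
        rw [card_image_of_injOn]
        exact hginj.mono (by exact_mod_cast filter_subset _ _)
      have hsub2 : (Z.filter fun z => ¬ (t : ℤ) < |(P.F p.1 z : ℤ) - p.1 - z|).image g ⊆
          (univ \ (Icc 1 P.L).image P.ρ) ∪
          (((Icc 1 P.L).filter fun x => (t : ℤ) < |(P.F p.2 x : ℤ) - p.2 - x|).image P.ρ ∪
            Z1.image P.ρ) := by
        intro q hq
        rw [mem_image] at hq
        obtain ⟨z, hz, rfl⟩ := hq
        rw [mem_filter] at hz
        rw [mem_union, mem_union]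
        by_cases h : g z ∈ (Icc 1 P.L).image P.ρ
        · right
          rw [mem_image] at h
          obtain ⟨z', hz', he⟩ := h
          by_cases h' : (t : ℤ) < |(P.F p.2 z' : ℤ) - p.2 - z'|
          · left
            rw [mem_image]
            exact ⟨z', mem_filter.2 ⟨hz', h'⟩, he⟩
          · right
            rw [mem_image]
            exact ⟨z', by rw [hZ1, mem_filter]; exact ⟨hz', h', z, hz.1, hz.2, he.symm⟩, he⟩
        · left
          exact mem_sdiff.2 ⟨mem_univ _, h⟩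
      have c3 := (card_le_card hsub2).trans (card_union_le _ _)
      have c4 := card_union_le (((Icc 1 P.L).filter fun x =>
        (t : ℤ) < |(P.F p.2 x : ℤ) - p.2 - x|).image P.ρ) (Z1.image P.ρ)
      have c5 : (((Icc 1 P.L).filter fun x =>
        (t : ℤ) < |(P.F p.2 x : ℤ) - p.2 - x|).image P.ρ).card ≤ P.E t p.2 := card_image_le
      have c6 : (Z1.image P.ρ).card ≤ Z1.card := card_image_le
      have c7 := P.off_card β hL
      have c8 : ((Icc 1 P.L).filter fun x => (t : ℤ) < |(P.F p.1 x : ℤ) - p.1 - x|).card =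
        P.E t p.1 := rfl
      omega
    obtain ⟨Z', h1, h2, h3, h4⟩ := ih (fun q hq => hl q (List.mem_cons_of_mem _ hq)) Z1
      (c + 2 * t) (by rw [hZ1]; exact filter_subset _ _) hZ1inj hZ1lo
    refine ⟨Z', h1, ?_, ?_, ?_⟩
    · intro z' hz'
      obtain ⟨z1, hz1, he1⟩ := h2 z' hz'
      rw [hZ1, mem_filter] at hz1
      obtain ⟨z, hz, _, hgz⟩ := hz1.2.2
      refine ⟨z, hz, ?_⟩
      rw [hmv, hgz, he1]
    · rw [List.length_cons, List.map_cons, List.sum_cons, Nat.succ_mul]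
      omega
    · intro z' hz'
      have := h4 z' hz'
      rw [List.length_cons]
      have e : 2 * (l.length + 1) * t = 2 * l.length * t + 2 * t := by ring
      rw [e]
      omega

/-- COVER -/
theorem cover (h : Near M β W0) (P : Path M) (ht : Fintype.card Q ≤ M.V {P.ρ P.L} + β) (t : ℕ)
    (l : List (ℕ × ℕ)) (hl : ∀ p ∈ l, 1 ≤ p.2 ∧ p.2 ≤ p.1 ∧ p.1 ≤ P.L)
    (hlen : (P.wds l).length ≤ W0) (m : ℕ) (hm : β ≤ m) (S : Finset Q)
    (hS : Fintype.card Q ≤ S.card + m + β) (hh : ∀ q ∈ S, m - β ≤ M.V {q}) :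
    ((Icc m P.L).filter fun z => P.ρ z ∉ S.image (M.mv (P.wds l))).card ≤
      2 * l.length * t + (l.length + 4) * β + 1 +
        (l.map fun p => P.E t p.1 + P.E t p.2).sum := by
  classical
  have hL := P.le_L β ht
  have hβ := h.one
  by_cases hmL : P.L < m
  · rw [Icc_eq_empty_of_lt hmL, filter_empty, card_empty]
    exact Nat.zero_le _
  rw [not_lt] at hmL
  -- the initial indices
  set Z0 : Finset ℕ := (Icc 1 P.L).filter fun z => P.ρ z ∈ S with hZ0
  have hZ0c : S.card + P.L ≤ Z0.card + Fintype.card Q := by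
    have := P.idx_card' S
    rw [hZ0]
    convert this
  obtain ⟨B, hBS, hBc, hBinj⟩ := h.transv (P.wds l) hlen (Z0.image P.ρ)
  have hZ0i : (Z0.image P.ρ).card = Z0.card := by
    rw [card_image_of_injOn]
    exact P.injOn.mono (by rw [hZ0]; exact_mod_cast filter_subset _ _)
  set Z : Finset ℕ := Z0.filter fun z => P.ρ z ∈ B with hZ
  have hZB : B ⊆ Z.image P.ρ := by
    intro q hq
    have := hBS hq
    rw [mem_image] at this
    obtain ⟨z, hz, rfl⟩ := this
    rw [mem_image]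
    exact ⟨z, by rw [hZ, mem_filter]; exact ⟨hz, hq⟩, rfl⟩
  have hZc : B.card ≤ Z.card := (card_le_card hZB).trans card_image_le
  have hZsub : Z ⊆ Icc 1 P.L := by
    intro z hz
    rw [hZ, mem_filter, hZ0, mem_filter] at hz
    exact hz.1.1
  have hZinj : Set.InjOn (fun z => M.mv (P.wds l) (P.ρ z)) (Z : Set ℕ) := by
    intro a ha b hb he
    have ha' := mem_coe.1 ha
    have hb' := mem_coe.1 hb
    rw [hZ, mem_filter] at ha' hb'
    have := hBinj (mem_coe.2 ha'.2) (mem_coe.2 hb'.2) he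
    exact P.injOn (mem_coe.2 (hZsub (mem_coe.1 ha))) (mem_coe.2 (hZsub (mem_coe.1 hb))) this
  have hZlo : ∀ z ∈ Z, m ≤ z + β := by
    intro z hz
    rw [hZ, mem_filter, hZ0, mem_filter, mem_Icc] at hz
    have h1 := hh _ hz.1.2
    have h2 := P.h_le z hz.1.1.1 hz.1.1.2
    omega
  obtain ⟨Z', h1, h2, h3, h4⟩ := cover_lem P hL t m l hl Z β hZsub hZinj hZlo
  -- count
  have hsub : (Icc m P.L) ⊆ ((Icc m P.L).filter fun z => P.ρ z ∉ S.image (M.mv (P.wds l))) ∪
      (Z'.filter fun z => m ≤ z) ∪ ((Icc m P.L).filter fun z =>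
        P.ρ z ∈ S.image (M.mv (P.wds l)) ∧ z ∉ Z') := by
    intro z hz
    rw [mem_union, mem_union, mem_filter, mem_filter, mem_filter]
    rw [mem_Icc] at hz ⊢
    tauto
  -- elements of Z' above m are covered
  have hcov : (Z'.filter fun z => m ≤ z) ⊆ (Icc m P.L).filter fun z =>
      P.ρ z ∈ S.image (M.mv (P.wds l)) := by
    intro z hz
    rw [mem_filter] at hz
    have hz1 := h1 hz.1
    rw [mem_Icc] at hz1
    rw [mem_filter, mem_Icc]
    refine ⟨⟨hz.2, hz1.2⟩, ?_⟩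
    obtain ⟨z0, hz0, he⟩ := h2 z hz.1
    rw [mem_image]
    refine ⟨P.ρ z0, ?_, he⟩
    rw [hZ, mem_filter, hZ0, mem_filter] at hz0
    exact hz0.1.2
  have c1 := card_le_card hcov
  have c2 := card_filter_add_card_filter_not (s := Icc m P.L) (fun z =>
      P.ρ z ∈ S.image (M.mv (P.wds l)))
  rw [Nat.card_Icc] at c2
  have c3 : Z'.card ≤ (Z'.filter fun z => m ≤ z).card + (β + 2 * l.length * t) := by
    have hs : Z' ⊆ (Z'.filter fun z => m ≤ z) ∪ Ico (m - (β + 2 * l.length * t)) m := by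
      intro z hz
      rw [mem_union, mem_filter, mem_Ico]
      by_cases hc : m ≤ z
      · left; exact ⟨hz, hc⟩
      · right
        have := h4 z hz
        omega
    have := (card_le_card hs).trans (card_union_le _ _)
    rw [Nat.card_Ico] at this
    omega
  have e : (l.length + 4) * β = l.length * β + 4 * β := by ring
  rw [e]
  omega

end MortUB
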