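import Mathlib

/-!
# MP_e1e800_lc, project UB: definitions

An abstract system: total maps `σ x` (the letters, undefined transitions replaced by the identity),
the predicate `kl x q` (the letter `x` is undefined at `q`) and the cost `V S` (length of a
shortest word which kills all states of `S`).
-/

namespace MortUB

open Finset

/-- Abstract killing systems. -/
structure Sys (Q A : Type) [DecidableEq Q] where
  /-- the action of the letters (total maps) -/
  σ : A → Q → Q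
  /-- the letter kills the state -/
  kl : A → Q → Prop
  /-- the cost of a set -/
  V : Finset Q → ℕ
  mono : ∀ S T : Finset Q, S ⊆ T → V S ≤ V T
  empty : V ∅ = 0
  pos : ∀ q, 1 ≤ V {q}
  step : ∀ (x : A) (S : Finset Q), V S ≤ 1 + V (S.image (σ x))
  kill : ∀ (x : A) (q : Q) (S : Finset Q), kl x q → V (insert q S) ≤ 1 + V (S.image (σ x))
  greedy : ∀ q, ∃ x, kl x q ∨ V {σ x q} + 1 = V {q}

variable {Q A : Type} [DecidableEq Q]

/-- The action of a word. -/
def Sys.mv (M : Sys Q A) (w : List A) (q : Q) : Q := w.foldl (fun p x => M.σ x p) q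

/-- The slack of the letter `x` at the set `S`. -/
def Sys.df (M : Sys Q A) (x : A) (S : Finset Q) : ℕ := 1 + M.V (S.image (M.σ x)) - M.V S

/-- The length of the cycle of `q` under the letter `a` (`0` if `q` is not periodic). -/
noncomputable def Sys.len (M : Sys Q A) (a : A) (q : Q) : ℕ := Function.minimalPeriod (M.σ a) q

/-- Near-extremality with error `β`, for words of length at most `W0`. -/
structure Near [Fintype Q] (M : Sys Q A) (β W0 : ℕ) : Prop where
  one : 1 ≤ β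
  rk : ∀ w : List A, w.length ≤ W0 → Fintype.card Q ≤ (univ.image (M.mv w)).card + β
  top : ∃ q, Fintype.card Q ≤ M.V {q} + β
  good : ∀ m, β ≤ m → m < Fintype.card Q → ∃ S : Finset Q, S.card + m ≤ Fintype.card Q ∧
    Fintype.card Q ≤ S.card + m + β ∧
    ∀ T : Finset Q, T ⊆ S → T.Nonempty → (m - β) * T.card ≤ M.V T

/-- A simple path `ρ L, …, ρ 1` of states, read by the letters `y L, …, y 1`; `ρ 1` is killed by
`y 1`. -/
structure Path (M : Sys Q A) where
  L : ℕ
  ρ : ℕ → Q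
  y : ℕ → A
  Lpos : 1 ≤ L
  inj : ∀ i j, 1 ≤ i → i ≤ L → 1 ≤ j → j ≤ L → ρ i = ρ j → i = j
  nxt : ∀ τ, 1 ≤ τ → τ < L → M.σ (y (τ + 1)) (ρ (τ + 1)) = ρ τ
  fin : M.kl (y 1) (ρ 1)

variable {M : Sys Q A}

/-- The word `y(s) y(s-1) ⋯ y(x+1)` which leads from `ρ s` to `ρ x`. -/
def Path.wd (P : Path M) (s x : ℕ) : List A := (List.range (s - x)).map fun i => P.y (s - i)

/-- The cost of a pair of states of the path. -/
def Path.F (P : Path M) (s x : ℕ) : ℕ := M.V {P.ρ s, P.ρ x}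

/-- The number of exceptional partners of `s`. -/
def Path.E (P : Path M) (t s : ℕ) : ℕ :=
  ((Icc 1 P.L).filter fun x => (t : ℤ) < |(P.F s x : ℤ) - s - x|).card

/-- The word of a list of pairs `(s₁,x₁), (s₂,x₂), …`. -/
def Path.wds (P : Path M) (l : List (ℕ × ℕ)) : List A := (l.map fun p => P.wd p.1 p.2).flatten

/-- The tuple of the states `ρ(x_i) · w_{i+1} ⋯ w_K` of a tuple of pairs `z_i = (y_i, x_i)`. -/
def Path.tup (P : Path M) {K : ℕ} (z : Fin K → ℕ × ℕ) (i : Fin K) : Q :=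
  M.mv (P.wds ((List.ofFn z).drop (i + 1))) (P.ρ (z i).2)

/-- The error term for `K`-tuples. -/
noncomputable def errT (n β κ t K : ℝ) : ℝ :=
  2 * K ^ 2 * (κ + β) + K ^ 3 * (2 * n * t + 8 * n * β) / κ +
    1000 * K ^ 3 * β * n ^ 4 / (t ^ 2 * κ ^ 2)

/-- The error term of the leader bound. -/
noncomputable def errS (n β κ κ' t K : ℝ) : ℝ :=
  n * (errT n β κ t K + 6 * K ^ 3 * β) / κ'

/-- The rule: `X` is a set of exits of the nontrivial `a`-cycles and the path `P` follows every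
nontrivial `a`-cycle up to its exit. -/
structure Rule [Fintype Q] (M : Sys Q A) (a : A) (P : Path M) (X : Finset Q) : Prop where
  start : ∀ q, M.V {q} ≤ M.V {P.ρ P.L}
  two : ∀ x ∈ X, 2 ≤ M.len a x
  ex : ∀ q, 2 ≤ M.len a q → ∃ j, j < M.len a q ∧ (M.σ a)^[j] q ∈ X
  uniq : ∀ x ∈ X, ∀ j, (M.σ a)^[j] x ∈ X → (M.σ a)^[j] x = x
  follow : ∀ τ, 1 ≤ τ → τ ≤ P.L → 2 ≤ M.len a (P.ρ τ) → P.ρ τ ∉ X → 2 ≤ τ ∧ P.y τ = a

/-- The companion sets of the leaders `ρ τ`, `τ ≤ T`, for `k` companions, with total slack at most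
`n^k * S`. -/
structure Lead [Fintype Q] (M : Sys Q A) (P : Path M) (β k T : ℕ) (B : ℕ → Finset Q) (S : ℝ) :
    Prop where
  le : T ≤ P.L
  card : ∀ τ, 1 ≤ τ → τ ≤ T → Fintype.card Q ≤ (B τ).card + β
  mem : ∀ τ, 1 ≤ τ → τ < T → ∀ s ∈ B (τ + 1), M.σ (P.y (τ + 1)) s ∈ B τ
  sum : (∑ τ ∈ Icc 2 T, ∑ R ∈ Fintype.piFinset (fun _ : Fin k => B τ),
    (M.df (P.y τ) (insert (P.ρ τ) (univ.image R)) : ℝ)) ≤ (Fintype.card Q : ℝ) ^ k * S

/-- The scale class: the states whose `a`-cycle has length in `[ℓ, Λ ℓ)`. -/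
noncomputable def cls [Fintype Q] (M : Sys Q A) (a : A) (ℓ Λ : ℕ) : Finset Q :=
  univ.filter fun q => ℓ ≤ M.len a q ∧ M.len a q < Λ * ℓ

/-- The times of the leaders in a class `C` (no exits). -/
def lds (P : Path M) (X C : Finset Q) (T : ℕ) : Finset ℕ :=
  (Icc 2 T).filter fun τ => P.ρ τ ∈ C ∧ P.ρ τ ∉ X

/-- The number of leaders (with times in `U`) whose companion set misses `s`. -/
def miss (B : ℕ → Finset Q) (U : Finset ℕ) (s : Q) : ℕ := (U.filter fun τ => s ∉ B τ).card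

open Classical in
/-- The states of `C` whose cycle contains a special site. -/
noncomputable def spec (M : Sys Q A) (a : A) (C : Finset Q) (B : ℕ → Finset Q) (U : Finset ℕ)
    (η : ℝ) : Finset Q :=
  C.filter fun q => ∃ j : ℕ, η * (U.card : ℝ) ≤ (miss B U ((M.σ a)^[j] q) : ℝ)

end MortUB
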