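import Pool.Agent.Lib.MP_e1e800_lc_UB.Basic

/-!
# MP_e1e800_lc, project UB: exits and entries
-/

namespace MortUB

open Finset

variable {Q A : Type} [DecidableEq Q] [Fintype Q] {M : Sys Q A} {β : ℕ}

omit [Fintype Q] in
theorem Exits_mem (a : A) (C : Finset Q) (hC : ∀ q ∈ C, M.σ a q ∈ C) (j : ℕ) :
    ∀ q ∈ C, (M.σ a)^[j] q ∈ C := by
  induction j with
  | zero => exact fun q hq => hq
  | succ j ih =>
    intro q hq
    rw [Function.iterate_succ_apply]
    exact ih _ (hC q hq)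

theorem Exits_disj (a : A) (P : Path M) (X : Finset Q) (hR : Rule M a P X) {x x' : Q}
    (hx : x ∈ X) (hx' : x' ∈ X) {i j : ℕ} (hj : j < M.len a x')
    (h : (M.σ a)^[i] x = (M.σ a)^[j] x') : x = x' := by
  have h1 : (M.σ a)^[M.len a x' - j + i] x = x' := by
    rw [Function.iterate_add_apply, h, ← Function.iterate_add_apply, Nat.sub_add_cancel hj.le]
    exact Function.iterate_minimalPeriod
  have h2 := hR.uniq x hx (M.len a x' - j + i) (by rw [h1]; exact hx')
  rw [h1] at h2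
  exact h2.symm

/-- EXITS: the number of exits in a class of cycles of length at least `ℓ`. -/
theorem exits_card (a : A) (P : Path M) (X : Finset Q) (hR : Rule M a P X) (C : Finset Q)
    (hC : ∀ q ∈ C, M.σ a q ∈ C) (ℓ : ℕ) (hℓ : ∀ q ∈ C, ℓ ≤ M.len a q) :
    (C.filter fun q => q ∈ X).card * ℓ ≤ C.card := by
  have h1 : ∀ x ∈ C.filter (fun q => q ∈ X),
      ((range (M.len a x)).image fun j => (M.σ a)^[j] x).card = M.len a x := by
    intro x hx
    rw [card_image_of_injOn, card_range]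
    rw [coe_range]
    exact Function.iterate_injOn_Iio_minimalPeriod
  have h2 : ((C.filter fun q => q ∈ X).biUnion fun x =>
      (range (M.len a x)).image fun j => (M.σ a)^[j] x) ⊆ C := by
    intro y hy
    rw [mem_biUnion] at hy
    obtain ⟨x, hx, hy⟩ := hy
    rw [mem_image] at hy
    obtain ⟨j, _, rfl⟩ := hy
    exact Exits_mem a C hC j x (mem_filter.1 hx).1
  have h3 := card_le_card h2
  rw [card_biUnion] at h3
  · rw [sum_congr rfl h1] at h3
    refine le_trans ?_ h3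
    rw [← smul_eq_mul, ← sum_const]
    apply sum_le_sum
    intro x hx
    exact hℓ x (mem_filter.1 hx).1
  · intro x hx x' hx' hne
    rw [Function.onFun, disjoint_left]
    intro y hy hy'
    rw [mem_image] at hy hy'
    obtain ⟨i, hi, rfl⟩ := hy
    obtain ⟨j, hj, h⟩ := hy'
    exact hne (Exits_disj a P X hR (mem_filter.1 hx).2 (mem_filter.1 hx').2
      (mem_range.1 hj) h.symm)

theorem Exits_run (a : A) (P : Path M) (X : Finset Q) (hR : Rule M a P X) (C : Finset Q)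
    (hC : ∀ q ∈ C, M.σ a q ∈ C) (h2 : ∀ q ∈ C, 2 ≤ M.len a q) (T : ℕ) (hT : T ≤ P.L)
    (τ : ℕ) (hτ : τ ∈ lds P X C T) :
    ∃ e, 1 ≤ e ∧ e < τ ∧ P.ρ e ∈ C ∧ P.ρ e ∈ X ∧
      ∀ i, e < i → i ≤ τ → i ∈ lds P X C T := by
  unfold lds at hτ
  rw [mem_filter, mem_Icc] at hτ
  obtain ⟨⟨hτ2, hτT⟩, hτC, hτX⟩ := hτ
  have hex : ∃ j, (M.σ a)^[j] (P.ρ τ) ∈ X := by
    obtain ⟨j, _, hj⟩ := hR.ex (P.ρ τ) (h2 _ hτC)
    exact ⟨j, hj⟩
  classical
  obtain ⟨j, hj, hmin⟩ : ∃ j, (M.σ a)^[j] (P.ρ τ) ∈ X ∧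
      ∀ i, i < j → (M.σ a)^[i] (P.ρ τ) ∉ X :=
    ⟨Nat.find hex, Nat.find_spec hex, fun i hi => Nat.find_min hex hi⟩
  have hj0 : 1 ≤ j := by
    rcases Nat.eq_zero_or_pos j with h | h
    · subst h
      exact absurd hj hτX
    · exact h
  have key : ∀ i, i ≤ j → i < τ ∧ P.ρ (τ - i) = (M.σ a)^[i] (P.ρ τ) := by
    intro i
    induction i with
    | zero =>
      intro _
      exact ⟨by omega, rfl⟩
    | succ i ih =>
      intro hi
      obtain ⟨h3, h4⟩ := ih (by omega)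
      have h5 : P.ρ (τ - i) ∉ X := by
        rw [h4]
        exact hmin i (by omega)
      have h6 : P.ρ (τ - i) ∈ C := by
        rw [h4]
        exact Exits_mem a C hC i _ hτC
      obtain ⟨h7, h8⟩ := hR.follow (τ - i) (by omega) (by omega) (h2 _ h6) h5
      have h9 := P.nxt (τ - i - 1) (by omega) (by omega)
      rw [Nat.sub_add_cancel (by omega), h8, h4] at h9
      refine ⟨by omega, ?_⟩
      rw [Function.iterate_succ_apply', h9]
      congr 1
  obtain ⟨h3, h4⟩ := key j le_rfl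
  refine ⟨τ - j, by omega, by omega, ?_, ?_, ?_⟩
  · rw [h4]
    exact Exits_mem a C hC j _ hτC
  · rw [h4]
    exact hj
  · intro i hi1 hi2
    obtain ⟨h5, h6⟩ := key (τ - i) (by omega)
    have h7 : τ - (τ - i) = i := by omega
    rw [h7] at h6
    unfold lds
    rw [mem_filter, mem_Icc]
    refine ⟨⟨by omega, by omega⟩, ?_, ?_⟩
    · rw [h6]
      exact Exits_mem a C hC _ _ hτC
    · rw [h6]
      exact hmin _ (by omega)

/-- ENTRY: the path enters every cycle at most once. -/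
theorem entries_card (a : A) (P : Path M) (X : Finset Q) (hR : Rule M a P X) (C : Finset Q)
    (hC : ∀ q ∈ C, M.σ a q ∈ C) (h2 : ∀ q ∈ C, 2 ≤ M.len a q) (T : ℕ) (hT : T ≤ P.L) :
    ((lds P X C T).filter fun τ => τ + 1 ∉ lds P X C T).card ≤
      (C.filter fun q => q ∈ X).card := by
  have h := Exits_run a P X hR C hC h2 T hT
  choose! e he1 he2 he3 he4 he5 using h
  have hle : ∀ τ ∈ lds P X C T, τ ≤ T := by
    intro τ hτ
    unfold lds at hτ
    rw [mem_filter, mem_Icc] at hτ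
    exact hτ.1.2
  apply card_le_card_of_injOn (fun τ => P.ρ (e τ))
  · intro τ hτ
    have hτ' := (mem_filter.1 (mem_coe.1 hτ)).1
    exact mem_coe.2 (mem_filter.2 ⟨he3 τ hτ', he4 τ hτ'⟩)
  · intro τ hτ τ' hτ' heq
    have m1 := mem_filter.1 (mem_coe.1 hτ)
    have m2 := mem_filter.1 (mem_coe.1 hτ')
    have l1 := hle τ m1.1
    have l2 := hle τ' m2.1
    have b1 := he2 τ m1.1
    have b2 := he2 τ' m2.1
    have h3 : e τ = e τ' := P.inj _ _ (he1 τ m1.1) (by omega) (he1 τ' m2.1) (by omega) heq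
    by_contra hne
    rcases Nat.lt_or_gt_of_ne hne with h4 | h4
    · exact m1.2 (he5 τ' m2.1 (τ + 1) (by omega) (by omega))
    · exact m2.2 (he5 τ m1.1 (τ' + 1) (by omega) (by omega))

end MortUB
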