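import Mathlib

/-!
# MP_e1e800_lc, project UB: counting with one free coordinate
-/

namespace MortUB

open Finset

/-- FIBRE: counting with one free coordinate. -/
theorem fibre_count {α : Type} [DecidableEq α] (K : ℕ) (Z : Finset α) (j : Fin K)
    (p : (Fin K → α) → Prop) [DecidablePred p] (b : (Fin K → α) → ℝ)
    (hb : ∀ z ∈ Fintype.piFinset (fun _ : Fin K => Z),
      ((Z.filter fun u => p (Function.update z j u)).card : ℝ) ≤ b z) :
    (((Fintype.piFinset (fun _ : Fin K => Z)).filter p).card : ℝ) * Z.card ≤
      ∑ z ∈ Fintype.piFinset (fun _ : Fin K => Z), b z := by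
  have h1 : (((Fintype.piFinset (fun _ : Fin K => Z)).filter p) ×ˢ Z).card ≤
      ((Fintype.piFinset (fun _ : Fin K => Z)).sigma
        (fun z => Z.filter fun u => p (Function.update z j u))).card := by
    apply card_le_card_of_injOn (fun a => ⟨Function.update a.1 j a.2, a.1 j⟩)
    · intro a ha
      rw [mem_coe, mem_product, mem_filter, Fintype.mem_piFinset] at ha
      rw [mem_coe, mem_sigma]
      refine ⟨?_, ?_⟩
      · rw [Fintype.mem_piFinset]
        intro i
        by_cases hi : i = j
        · subst hi; simpa using ha.2
        · simp only [Function.update_of_ne hi]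
          exact ha.1.1 i
      · rw [mem_filter]
        refine ⟨ha.1.1 j, ?_⟩
        simp only [Function.update_idem, Function.update_eq_self]
        exact ha.1.2
    · rintro ⟨a, u⟩ ha ⟨a', u'⟩ ha' h
      simp only [Sigma.mk.injEq, heq_eq_eq] at h
      obtain ⟨h1, h2⟩ := h
      have e1 : u = u' := by
        have := congrFun h1 j
        simpa using this
      have e2 : a = a' := by
        funext i
        by_cases hi : i = j
        · subst hi; exact h2
        · have := congrFun h1 i
          simpa [Function.update_of_ne hi] using this
      rw [e1, e2]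
  rw [card_product, card_sigma] at h1
  have h2 : ((((Fintype.piFinset (fun _ : Fin K => Z)).filter p).card * Z.card : ℕ) : ℝ) ≤
      ((∑ z ∈ Fintype.piFinset (fun _ : Fin K => Z),
        (Z.filter fun u => p (Function.update z j u)).card : ℕ) : ℝ) := by exact_mod_cast h1
  push_cast at h2
  exact h2.trans (sum_le_sum hb)

end MortUB
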