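import Pool.Agent.Lib.MP_e1e800_lc_UB.Basic

/-!
# MP_e1e800_lc, project UB: the mean slack
-/

namespace MortUB

open Finset

variable {Q A : Type} [DecidableEq Q] [Fintype Q] {M : Sys Q A} {β : ℕ}

theorem per_injOn (a : A) (C : Finset Q) (hp : ∀ q ∈ C, 1 ≤ M.len a q) :
    Set.InjOn (M.σ a) (C : Set Q) := by
  have h : ∀ q ∈ C, q ∈ Function.periodicPts (M.σ a) := by
    intro q hq
    exact Function.minimalPeriod_pos_iff_mem_periodicPts.1 (hp q hq)
  intro q hq q' hq' he
  exact (Function.bijOn_periodicPts (M.σ a)).injOn (h q hq) (h q' hq') he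

/-- IDENT: the mean slack of a letter over the tuples of an invariant set of periodic states. -/
theorem mean_slack (a : A) (C : Finset Q) (hC : ∀ q ∈ C, M.σ a q ∈ C)
    (hp : ∀ q ∈ C, 1 ≤ M.len a q) (K : ℕ) :
    ∑ R ∈ Fintype.piFinset (fun _ : Fin K => C), M.df a (univ.image R) = C.card ^ K := by
  have hinj := per_injOn (M := M) a C hp
  have himg : C.image (M.σ a) = C := by
    apply eq_of_subset_of_card_le
    · intro p hp'
      rw [mem_image] at hp'
      obtain ⟨q, hq, rfl⟩ := hp'
      exact hC q hq
    · rw [card_image_of_injOn hinj]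
  have h1 : ∑ R ∈ Fintype.piFinset (fun _ : Fin K => C), M.df a (univ.image R) +
      ∑ R ∈ Fintype.piFinset (fun _ : Fin K => C), M.V (univ.image R) = C.card ^ K +
      ∑ R ∈ Fintype.piFinset (fun _ : Fin K => C), M.V (univ.image fun i => M.σ a (R i)) := by
    rw [← sum_add_distrib]
    have : ∀ R ∈ Fintype.piFinset (fun _ : Fin K => C), M.df a (univ.image R) +
        M.V (univ.image R) = 1 + M.V (univ.image fun i => M.σ a (R i)) := by
      intro R _
      rw [M.df_add, image_image]
      rfl
    rw [sum_congr rfl this, sum_add_distrib, sum_const, Fintype.card_piFinset_const, smul_eq_mul,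
      mul_one]
  have h2 : ∑ R ∈ Fintype.piFinset (fun _ : Fin K => C), M.V (univ.image fun i => M.σ a (R i)) =
      ∑ R ∈ Fintype.piFinset (fun _ : Fin K => C), M.V (univ.image R) := by
    apply sum_nbij (fun R i => M.σ a (R i))
    · intro R hR
      rw [Fintype.mem_piFinset] at hR ⊢
      intro i
      exact hC _ (hR i)
    · intro R hR R' hR' he
      rw [mem_coe, Fintype.mem_piFinset] at hR hR'
      funext i
      exact hinj (hR i) (hR' i) (congrFun he i)
    · intro R hR
      rw [mem_coe, Fintype.mem_piFinset] at hR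
      have : ∀ i, ∃ q ∈ C, M.σ a q = R i := by
        intro i
        have := hR i
        rw [← himg, mem_image] at this
        exact this
      choose f hf1 hf2 using this
      refine ⟨f, ?_, ?_⟩
      · rw [mem_coe, Fintype.mem_piFinset]
        exact hf1
      · funext i
        exact hf2 i
    · intro R _
      rfl
  omega

end MortUB
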