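import Mathlib

/-!
# MP_e1e800_lc, project UB: the square inequality
-/

namespace MortUB

open Finset

theorem l2_sum_id (L : ℕ) : ∑ s ∈ Icc 1 L, (s : ℝ) = (L : ℝ) * (L + 1) / 2 := by
  induction L with
  | zero => simp
  | succ L ih => rw [sum_Icc_succ_top (by omega), ih]; push_cast; ring

theorem l2_sum_sq (L : ℕ) : ∑ s ∈ Icc 1 L, (s : ℝ) ^ 2 = (L : ℝ) * (L + 1) * (2 * L + 1) / 6 := by
  induction L with
  | zero => simp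
  | succ L ih => rw [sum_Icc_succ_top (by omega), ih]; push_cast; ring

/-- L2 -/
theorem l2_bound (n β L : ℕ) (F : ℕ → ℕ → ℝ) (hβ : 1 ≤ β) (hL : L ≤ n)
    (hL' : n ≤ L + β) (hs : ∀ s x, F s x = F x s)
    (h1 : ∀ s ∈ Icc 1 L, ∑ x ∈ Icc 1 L, F s x ≤ (n : ℝ) * s + (n : ℝ) ^ 2 / 2 + 2 * β * n)
    (h2 : ∀ s ∈ Icc 1 L, ∑ x ∈ Icc 1 L, F s x ^ 2 ≤
      (n : ℝ) * s ^ 2 + s * (n : ℝ) ^ 2 + (n : ℝ) ^ 3 / 3 + 6 * β * (n : ℝ) ^ 2)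
    (h3 : (n : ℝ) ^ 3 - 100 * β * (n : ℝ) ^ 2 ≤ ∑ s ∈ Icc 1 L, ∑ x ∈ Icc 1 L, F s x) :
    ∑ s ∈ Icc 1 L, ∑ x ∈ Icc 1 L, (F s x - s - x) ^ 2 ≤ 500 * β * (n : ℝ) ^ 3 := by
  have hβr : (1 : ℝ) ≤ β := by exact_mod_cast hβ
  have hLr : (L : ℝ) ≤ n := by exact_mod_cast hL
  have hLr' : (n : ℝ) ≤ L + β := by exact_mod_cast hL'
  have hL0 : (0 : ℝ) ≤ L := Nat.cast_nonneg _
  have hn0 : (0 : ℝ) ≤ n := Nat.cast_nonneg _
  rcases Nat.eq_zero_or_pos n with hn | hn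
  · have : L = 0 := by omega
    subst this
    simp only [zero_lt_one, Icc_eq_empty_of_lt, sum_empty]
    positivity
  have hn1 : (1 : ℝ) ≤ n := by exact_mod_cast hn
  set r : ℕ → ℝ := fun s => ∑ x ∈ Icc 1 L, F s x with hr
  set R : ℕ → ℝ := fun s => (n : ℝ) * s + (n : ℝ) ^ 2 / 2 + 2 * β * n with hR
  have hcard : ((Icc 1 L).card : ℝ) = L := by rw [Nat.card_Icc]; simp
  -- expansion
  have e0 : ∑ s ∈ Icc 1 L, ∑ x ∈ Icc 1 L, F s x * x = ∑ s ∈ Icc 1 L, s * r s := by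
    rw [sum_comm]
    apply sum_congr rfl
    intro s _
    rw [hr, mul_sum]
    apply sum_congr rfl
    intro x _
    rw [hs x s]; ring
  have e1 : ∑ s ∈ Icc 1 L, ∑ x ∈ Icc 1 L, (F s x - s - x) ^ 2 =
      ∑ s ∈ Icc 1 L, ∑ x ∈ Icc 1 L, F s x ^ 2 - 4 * ∑ s ∈ Icc 1 L, (s : ℝ) * r s +
      ∑ s ∈ Icc 1 L, ∑ x ∈ Icc 1 L, ((s : ℝ) + x) ^ 2 := by
    have : ∀ s ∈ Icc 1 L, ∑ x ∈ Icc 1 L, (F s x - s - x) ^ 2 =
        ∑ x ∈ Icc 1 L, F s x ^ 2 - 2 * (s * r s) - 2 * ∑ x ∈ Icc 1 L, F s x * x +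
        ∑ x ∈ Icc 1 L, ((s : ℝ) + x) ^ 2 := by
      intro s _
      rw [hr, mul_sum, mul_sum, mul_sum, ← sum_sub_distrib, ← sum_sub_distrib, ← sum_add_distrib]
      apply sum_congr rfl
      intro x _
      ring
    rw [sum_congr rfl this, sum_add_distrib, sum_sub_distrib, sum_sub_distrib, ← mul_sum,
      ← mul_sum, e0]
    ring
  rw [e1]
  -- the sum of s r_s
  have s1 : ∑ s ∈ Icc 1 L, R s ≤ (n : ℝ) ^ 3 + (n : ℝ) ^ 2 / 2 + 2 * β * (n : ℝ) ^ 2 := by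
    have : ∑ s ∈ Icc 1 L, R s = (n : ℝ) * (L * (L + 1) / 2) + L * ((n : ℝ) ^ 2 / 2) +
        L * (2 * β * n) := by
      rw [hR, sum_add_distrib, sum_add_distrib, ← mul_sum, l2_sum_id, sum_const, sum_const,
        nsmul_eq_mul, nsmul_eq_mul, hcard]
    rw [this]
    have a1 : (L : ℝ) * (L + 1) ≤ n * (n + 1) := mul_le_mul hLr (by linarith) (by linarith) hn0
    have a2 : (n : ℝ) * (L * (L + 1) / 2) ≤ n * (n * (n + 1) / 2) :=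
      mul_le_mul_of_nonneg_left (by linarith) hn0
    have a3 : (L : ℝ) * ((n : ℝ) ^ 2 / 2) ≤ n * ((n : ℝ) ^ 2 / 2) :=
      mul_le_mul_of_nonneg_right hLr (by positivity)
    have a4 : (L : ℝ) * (2 * β * n) ≤ n * (2 * β * n) :=
      mul_le_mul_of_nonneg_right hLr (by positivity)
    nlinarith
  have s2 : ∑ s ∈ Icc 1 L, (R s - r s) ≤ 103 * β * (n : ℝ) ^ 2 := by
    rw [sum_sub_distrib]
    have : (n : ℝ) ^ 2 ≤ β * (n : ℝ) ^ 2 := by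
      have : (0 : ℝ) ≤ (n : ℝ) ^ 2 := by positivity
      nlinarith
    have h3' : (n : ℝ) ^ 3 - 100 * β * (n : ℝ) ^ 2 ≤ ∑ s ∈ Icc 1 L, r s := h3
    have h4 : (0 : ℝ) ≤ (n : ℝ) ^ 2 := by positivity
    linarith
  have s3 : ∑ s ∈ Icc 1 L, (s : ℝ) * (R s - r s) ≤ 103 * β * (n : ℝ) ^ 3 := by
    calc ∑ s ∈ Icc 1 L, (s : ℝ) * (R s - r s) ≤ ∑ s ∈ Icc 1 L, (n : ℝ) * (R s - r s) := by
          apply sum_le_sum
          intro s hs'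
          have hsn : (s : ℝ) ≤ n := by
            rw [mem_Icc] at hs'
            exact_mod_cast hs'.2.trans hL
          exact mul_le_mul_of_nonneg_right hsn (by
            have := h1 s hs'
            show 0 ≤ ((n : ℝ) * s + (n : ℝ) ^ 2 / 2 + 2 * β * n) - ∑ x ∈ Icc 1 L, F s x
            linarith)
      _ = n * ∑ s ∈ Icc 1 L, (R s - r s) := by rw [mul_sum]
      _ ≤ n * (103 * β * (n : ℝ) ^ 2) := mul_le_mul_of_nonneg_left s2 hn0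
      _ = 103 * β * (n : ℝ) ^ 3 := by ring
  have s4 : ∑ s ∈ Icc 1 L, (s : ℝ) * r s = ∑ s ∈ Icc 1 L, (s : ℝ) * R s -
      ∑ s ∈ Icc 1 L, (s : ℝ) * (R s - r s) := by
    rw [← sum_sub_distrib]
    apply sum_congr rfl
    intro s _
    ring
  have s5 : ∑ s ∈ Icc 1 L, (s : ℝ) * R s = n * (L * (L + 1) * (2 * L + 1) / 6) +
      ((n : ℝ) ^ 2 / 2 + 2 * β * n) * (L * (L + 1) / 2) := by
    rw [← l2_sum_sq, ← l2_sum_id, mul_sum, mul_sum, ← sum_add_distrib]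
    apply sum_congr rfl
    intro s _
    rw [hR]; ring
  -- the sum of squares
  have s6 : ∑ s ∈ Icc 1 L, ∑ x ∈ Icc 1 L, F s x ^ 2 ≤
      n * (L * (L + 1) * (2 * L + 1) / 6) + (n : ℝ) ^ 2 * (L * (L + 1) / 2) +
      L * ((n : ℝ) ^ 3 / 3 + 6 * β * (n : ℝ) ^ 2) := by
    refine (sum_le_sum h2).trans (le_of_eq ?_)
    have e : ∑ s ∈ Icc 1 L, ((n : ℝ) * s ^ 2 + s * (n : ℝ) ^ 2 + (n : ℝ) ^ 3 / 3 +
        6 * β * (n : ℝ) ^ 2) = n * ∑ s ∈ Icc 1 L, (s : ℝ) ^ 2 + (n : ℝ) ^ 2 * ∑ s ∈ Icc 1 L, (s : ℝ)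
        + ∑ s ∈ Icc 1 L, ((n : ℝ) ^ 3 / 3 + 6 * β * (n : ℝ) ^ 2) := by
      rw [mul_sum, mul_sum, ← sum_add_distrib, ← sum_add_distrib]
      apply sum_congr rfl
      intro s _
      ring
    rw [e, l2_sum_sq, l2_sum_id, sum_const, nsmul_eq_mul, hcard]
  have s7 : ∑ s ∈ Icc 1 L, ∑ x ∈ Icc 1 L, ((s : ℝ) + x) ^ 2 =
      2 * L * (L * (L + 1) * (2 * L + 1) / 6) + 2 * (L * (L + 1) / 2) ^ 2 := by
    have e : ∀ s ∈ Icc 1 L, ∑ x ∈ Icc 1 L, ((s : ℝ) + x) ^ 2 = L * (s : ℝ) ^ 2 +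
        2 * s * (L * (L + 1) / 2) + L * (L + 1) * (2 * L + 1) / 6 := by
      intro s _
      rw [← l2_sum_sq, ← l2_sum_id, mul_sum]
      have : (L : ℝ) * (s : ℝ) ^ 2 = ∑ x ∈ Icc 1 L, (s : ℝ) ^ 2 := by
        rw [sum_const, nsmul_eq_mul, hcard]
      rw [this, ← sum_add_distrib, ← sum_add_distrib]
      apply sum_congr rfl
      intro x _
      ring
    rw [sum_congr rfl e, sum_add_distrib, sum_add_distrib, ← mul_sum, l2_sum_sq, sum_const,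
      nsmul_eq_mul, hcard]
    have : ∑ s ∈ Icc 1 L, 2 * (s : ℝ) * (L * (L + 1) / 2) =
        2 * (L * (L + 1) / 2) * ∑ s ∈ Icc 1 L, (s : ℝ) := by
      rw [mul_sum]
      apply sum_congr rfl
      intro s _
      ring
    rw [this, l2_sum_id]
    ring
  rw [s7, s4, s5]
  -- final inequality
  have p1 : (0 : ℝ) ≤ n - L := by linarith
  have p2 : (n : ℝ) - L ≤ β := by linarith
  have q1 : (L : ℝ) ^ 2 ≤ n ^ 2 := pow_le_pow_left₀ hL0 hLr 2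
  have q2 : (L : ℝ) ^ 3 ≤ n ^ 3 := pow_le_pow_left₀ hL0 hLr 3
  have q3 : (n : ℝ) ^ 2 ≤ (n : ℝ) ^ 3 := by nlinarith [sq_nonneg (n : ℝ)]
  have q4 : (n : ℝ) ^ 3 ≤ β * (n : ℝ) ^ 3 := by
    have : (0 : ℝ) ≤ (n : ℝ) ^ 3 := by positivity
    nlinarith
  -- (2/3) n L (n^2 - L^2) ≤ (4/3) β n^3
  have w1 : (n : ℝ) * L * (n ^ 2 - L ^ 2) ≤ 2 * β * (n : ℝ) ^ 3 := by
    have : (n : ℝ) ^ 2 - L ^ 2 ≤ β * (2 * n) := by
      have : (n : ℝ) ^ 2 - L ^ 2 = (n - L) * (n + L) := by ring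
      rw [this]
      exact mul_le_mul p2 (by linarith) (by linarith) (by linarith)
    calc (n : ℝ) * L * (n ^ 2 - L ^ 2) ≤ n * L * (β * (2 * n)) :=
          mul_le_mul_of_nonneg_left this (by positivity)
      _ ≤ n * n * (β * (2 * n)) := by
          apply mul_le_mul_of_nonneg_right _ (by positivity)
          exact mul_le_mul_of_nonneg_left hLr hn0
      _ = 2 * β * (n : ℝ) ^ 3 := by ring
  have w2 : (L : ℝ) * (6 * β * (n : ℝ) ^ 2) ≤ 6 * β * (n : ℝ) ^ 3 := by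
    have := mul_le_mul_of_nonneg_right hLr (show (0 : ℝ) ≤ 6 * β * (n : ℝ) ^ 2 by positivity)
    nlinarith
  have w3 : (0 : ℝ) ≤ 2 * β * n * (L * (L + 1) / 2) := by positivity
  have w4 : (L : ℝ) ^ 3 * (n - L) ≥ 0 := by positivity
  have w5 : (L : ℝ) ^ 2 * (n ^ 2 - L ^ 2) ≥ 0 := mul_nonneg (by positivity) (by linarith)
  have w6 : (L : ℝ) ^ 2 * (n - L) ≥ 0 := by positivity
  have w7 : (L : ℝ) * (n - L) ≥ 0 := by positivity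
  have w8 : (0 : ℝ) ≤ n ^ 2 * L := by positivity
  have w9 : (0 : ℝ) ≤ n * L := by positivity
  have w10 : (n : ℝ) * L ≤ n ^ 3 := by
    calc (n : ℝ) * L ≤ n * n := mul_le_mul_of_nonneg_left hLr hn0
      _ = n ^ 2 := by ring
      _ ≤ n ^ 3 := q3
  have w11 : (L : ℝ) ^ 3 ≤ β * n ^ 3 := q2.trans q4
  nlinarith [w1, w2, w3, w4, w5, w6, w7, w8, w9, w10, w11, s6, s3, q4]

end MortUB
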