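import Pool.Agent.Lib.MP_e1e800_lc_UB.Exits
import Pool.Agent.Lib.MP_e1e800_lc_UB.PathL

/-!
# MP_e1e800_lc, project UB: leaders in a class
-/

namespace MortUB

open Finset

variable {Q A : Type} [DecidableEq Q] [Fintype Q] {M : Sys Q A} {β : ℕ}

/-- LDS: almost all states of `C` are leaders. -/
theorem lds_card (a : A) (P : Path M) (X : Finset Q) (hR : Rule M a P X)
    (ht : Fintype.card Q ≤ P.L + β) (C : Finset Q) (T : ℕ) (hT1 : 1 ≤ T) (hT : T ≤ P.L) (κ' : ℕ)
    (hTκ : P.L < T + κ') :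
    C.card ≤ (lds P X C T).card + (C.filter fun q => q ∈ X).card + β + κ' := by
  have hinj : Set.InjOn P.ρ (Icc 2 T : Finset ℕ) := by
    intro i hi j hj hij
    rw [coe_Icc, Set.mem_Icc] at hi hj
    exact P.inj i j (by omega) (by omega) (by omega) (by omega) hij
  have hI : ((Icc 2 T).image P.ρ).card = T - 1 := by
    rw [card_image_of_injOn hinj, Nat.card_Icc]
    omega
  have hcompl : (univ \ (Icc 2 T).image P.ρ).card ≤ β + κ' := by
    rw [card_sdiff_of_subset (subset_univ _), hI, card_univ]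
    omega
  have hsub : C ⊆ ((lds P X C T).image P.ρ ∪ C.filter fun q => q ∈ X) ∪
      (univ \ (Icc 2 T).image P.ρ) := by
    intro q hq
    rw [mem_union, mem_union, mem_filter, mem_sdiff, mem_image, mem_image]
    by_cases hX : q ∈ X
    · exact Or.inl (Or.inr ⟨hq, hX⟩)
    · by_cases hi : ∃ τ ∈ Icc 2 T, P.ρ τ = q
      · obtain ⟨τ, hτ, rfl⟩ := hi
        refine Or.inl (Or.inl ⟨τ, ?_, rfl⟩)
        unfold lds
        rw [mem_filter]
        exact ⟨hτ, hq, hX⟩
      · exact Or.inr ⟨mem_univ _, hi⟩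
  have h1 := card_le_card hsub
  have h2 := card_union_le ((lds P X C T).image P.ρ ∪ C.filter fun q => q ∈ X)
    (univ \ (Icc 2 T).image P.ρ)
  have h3 := card_union_le ((lds P X C T).image P.ρ) (C.filter fun q => q ∈ X)
  have h4 : ((lds P X C T).image P.ρ).card ≤ (lds P X C T).card := card_image_le
  omega

/-- STEP: the number of missing leaders increases slowly along a cycle. -/
theorem miss_step (a : A) (P : Path M) (X : Finset Q) (hR : Rule M a P X) (C : Finset Q)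
    (hC : ∀ q ∈ C, M.σ a q ∈ C) (h2 : ∀ q ∈ C, 2 ≤ M.len a q) (k T : ℕ) (B : ℕ → Finset Q)
    (S : ℝ) (hB : Lead M P β k T B S) (s : Q) :
    miss B (lds P X C T) (M.σ a s) ≤
      miss B (lds P X C T) s + (C.filter fun q => q ∈ X).card := by
  have he := entries_card a P X hR C hC h2 T hB.le
  have hmem : ∀ τ, τ ∈ lds P X C T ↔ (2 ≤ τ ∧ τ ≤ T) ∧ P.ρ τ ∈ C ∧ P.ρ τ ∉ X := by
    intro τ
    unfold lds
    rw [mem_filter, mem_Icc]
  set U := lds P X C T with hU
  have hinj : Set.InjOn (fun τ : ℕ => τ + 1)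
      ((U.filter fun τ => M.σ a s ∉ B τ ∧ τ + 1 ∈ U : Finset ℕ) : Set ℕ) := by
    intro i _ j _ hij
    exact Nat.succ_injective hij
  have hA1 : (U.filter fun τ => M.σ a s ∉ B τ ∧ τ + 1 ∈ U).card ≤
      (U.filter fun τ => s ∉ B τ).card := by
    rw [← card_image_of_injOn hinj]
    apply card_le_card
    intro x hx
    rw [mem_image] at hx
    obtain ⟨τ, hτ, rfl⟩ := hx
    rw [mem_filter] at hτ ⊢
    obtain ⟨hτU, h3, h4⟩ := hτ
    refine ⟨h4, ?_⟩
    intro hs
    apply h3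
    have h5 := (hmem τ).1 hτU
    have h6 := (hmem (τ + 1)).1 h4
    have hTL := hB.le
    have h7 := hR.follow (τ + 1) (by omega) (by omega) (h2 _ h6.2.1) h6.2.2
    have h8 := hB.mem τ (by omega) (by omega) s hs
    rwa [h7.2] at h8
  have hsub : (U.filter fun τ => M.σ a s ∉ B τ) ⊆
      (U.filter fun τ => M.σ a s ∉ B τ ∧ τ + 1 ∈ U) ∪ (U.filter fun τ => τ + 1 ∉ U) := by
    intro τ hτ
    rw [mem_filter] at hτ
    rw [mem_union, mem_filter, mem_filter]
    by_cases h : τ + 1 ∈ U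
    · exact Or.inl ⟨hτ.1, hτ.2, h⟩
    · exact Or.inr ⟨hτ.1, h⟩
  have h3 := card_le_card hsub
  have h4 := card_union_le (U.filter fun τ => M.σ a s ∉ B τ ∧ τ + 1 ∈ U)
    (U.filter fun τ => τ + 1 ∉ U)
  unfold miss
  omega

end MortUB
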