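import Pool.Agent.Lib.MP_e1e800_lc_UB.NearL

/-!
# MP_e1e800_lc, project UB: a letter with many moved states
-/

namespace MortUB

open Finset

/-- A point in the image of the `n`-th iterate is periodic. -/
theorem iterate_card_periodic {Q : Type} [Fintype Q] [DecidableEq Q] (f : Q → Q) (p : Q) :
    f^[Fintype.card Q] p ∈ Function.periodicPts f := by
  have h : ∃ i j : ℕ, i < j ∧ j ≤ Fintype.card Q ∧ f^[i] p = f^[j] p := by
    by_contra hcon
    push Not at hcon
    have hinj : Set.InjOn (fun i => f^[i] p) (range (Fintype.card Q + 1) : Finset ℕ) := by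
      intro i hi j hj hij
      rw [mem_coe, mem_range] at hi hj
      by_contra hne
      rcases lt_or_gt_of_ne hne with hlt | hlt
      · exact hcon i j hlt (by omega) hij
      · exact hcon j i hlt (by omega) hij.symm
    have h1 := card_image_of_injOn hinj
    rw [card_range] at h1
    have h2 := card_le_univ ((range (Fintype.card Q + 1)).image fun i => f^[i] p)
    omega
  obtain ⟨i, j, hij, hj, he⟩ := h
  have hper : f^[i] p ∈ Function.periodicPts f := by
    refine ⟨j - i, by omega, ?_⟩
    unfold Function.IsPeriodicPt Function.IsFixedPt
    rw [← Function.iterate_add_apply, Nat.sub_add_cancel hij.le, he]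
  have e : Fintype.card Q = (Fintype.card Q - i) + i := by omega
  rw [e, Function.iterate_add_apply]
  obtain ⟨m, hm, hp⟩ := hper
  exact ⟨m, hm, hp.apply_iterate _⟩

theorem Near.letter {Q A : Type} [Fintype Q] [DecidableEq Q] [Fintype A] {M : Sys Q A} {β W0 : ℕ}
    (h : Near M β W0) (hW : Fintype.card Q ≤ W0) (hn : β + 1 < Fintype.card Q) :
    ∃ a : A, Fintype.card Q ≤
      Fintype.card A * ((univ.filter fun q => 2 ≤ M.len a q).card + β) + β + 1 := by
  classical
  have h1 := M.cnt_one β h.top
  -- states of height at least two are moved by some letter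
  have h2 : (univ.filter fun q : Q => ¬ M.V {q} ≤ 1) ⊆
      univ.biUnion fun a : A => univ.filter fun q => M.σ a q ≠ q := by
    intro q hq
    rw [mem_filter] at hq
    obtain ⟨x, hx⟩ := M.greedy q
    rcases hx with hx | hx
    · exact absurd (M.kl_one x q hx).le hq.2
    · rw [mem_biUnion]
      refine ⟨x, mem_univ _, mem_filter.2 ⟨mem_univ _, ?_⟩⟩
      intro he
      rw [he] at hx
      omega
  have h3 : Fintype.card Q ≤ (univ.filter fun q : Q => ¬ M.V {q} ≤ 1).card + (β + 1) := by
    have := card_filter_add_card_filter_not (s := (univ : Finset Q)) (fun q => M.V {q} ≤ 1)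
    rw [card_univ] at this
    omega
  have h4 := (card_le_card h2).trans card_biUnion_le
  have hne : (univ : Finset A).Nonempty := by
    by_contra hcon
    rw [not_nonempty_iff_eq_empty] at hcon
    rw [hcon, sum_empty] at h4
    omega
  obtain ⟨a, _, ha⟩ := exists_max_image univ (fun a : A => (univ.filter fun q => M.σ a q ≠ q).card)
    hne
  have h5 : ∑ x : A, (univ.filter fun q => M.σ x q ≠ q).card ≤
      Fintype.card A * (univ.filter fun q => M.σ a q ≠ q).card := by
    have := sum_le_card_nsmul univ (fun x : A => (univ.filter fun q => M.σ x q ≠ q).card) _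
      (fun x hx => ha x hx)
    rwa [card_univ, smul_eq_mul] at this
  have h6 : (univ.filter fun q => M.σ a q ≠ q).card ≤
      (univ.filter fun q => 2 ≤ M.len a q).card + β := by
    have hsub : (univ.filter fun q => M.σ a q ≠ q) ⊆ (univ.filter fun q => 2 ≤ M.len a q) ∪
        (univ \ univ.image (M.mv (List.replicate (Fintype.card Q) a))) := by
      intro q hq
      rw [mem_filter] at hq
      rw [mem_union]
      by_cases hp : q ∈ Function.periodicPts (M.σ a)
      · left
        rw [mem_filter]
        refine ⟨mem_univ _, ?_⟩
        have h7 : 0 < Function.minimalPeriod (M.σ a) q :=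
          Function.minimalPeriod_pos_of_mem_periodicPts hp
        have h8 : Function.minimalPeriod (M.σ a) q ≠ 1 := by
          intro he
          rw [Function.minimalPeriod_eq_one_iff_isFixedPt] at he
          exact hq.2 he
        unfold Sys.len
        omega
      · right
        rw [mem_sdiff]
        refine ⟨mem_univ _, ?_⟩
        intro hmem
        rw [mem_image] at hmem
        obtain ⟨p, _, rfl⟩ := hmem
        rw [M.mv_replicate] at hp
        exact hp (iterate_card_periodic (M.σ a) p)
    have h7 := (card_le_card hsub).trans (card_union_le _ _)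
    have h8 := h.rk (List.replicate (Fintype.card Q) a) (by rw [List.length_replicate]; exact hW)
    have h9 := card_sdiff_add_card_eq_card
      (subset_univ (univ.image (M.mv (List.replicate (Fintype.card Q) a))))
    rw [card_univ] at h9
    omega
  refine ⟨a, ?_⟩
  have h10 := Nat.mul_le_mul_left (Fintype.card A) h6
  omega

end MortUB
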