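import Pool.Agent.Lib.MP_e1e800_lc_UB.Aut
import Pool.Agent.Lib.MP_e1e800_lc_UB.Basic

/-!
# MP_e1e800_lc, project UB: rank and height in near-extremal automata
-/

namespace MortUB

open Finset

theorem nearA_sum_one (n r : ℕ) (h : r ≤ n) :
    2 * ∑ i ∈ range r, (n - i) + (n - r) * (n - r + 1) = n * (n + 1) := by
  induction r with
  | zero => simp
  | succ r ih =>
    have h1 := ih (by omega)
    rw [sum_range_succ]
    obtain ⟨m, hm⟩ : ∃ m, n - r = m + 1 := ⟨n - r - 1, by omega⟩
    have h2 : n - (r + 1) = m := by omega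
    rw [h2]
    rw [hm] at h1 ⊢
    nlinarith

theorem nearA_sum_two (H k : ℕ) :
    2 * ∑ j ∈ range (H + k), min (H + k - j) H + k * (k + 1) = (H + k) * (H + k + 1) := by
  induction k with
  | zero =>
    have h1 := nearA_sum_one H H le_rfl
    have h2 : ∑ j ∈ range (H + 0), min (H + 0 - j) H = ∑ i ∈ range H, (H - i) := by
      apply sum_congr rfl
      intro j _
      rw [add_zero]
      exact min_eq_left (Nat.sub_le _ _)
    rw [h2]
    simpa using h1
  | succ k ih =>
    have h1 : ∑ j ∈ range (H + (k + 1)), min (H + (k + 1) - j) H =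
        ∑ j ∈ range (H + k), min (H + k - j) H + H := by
      rw [← add_assoc, sum_range_succ']
      congr 1
      · apply sum_congr rfl
        intro j _
        congr 1
        omega
      · apply min_eq_right
        omega
    rw [h1]
    nlinarith

section

variable {Q A : Type} [DecidableEq Q] (δ : Q → A → Option Q)
  (hm : ∃ w : List A, MPe1e800.Mortal δ w)

theorem nearA_run (w : List A) (q r : Q) (h : MPe1e800.run δ q w = some r) :
    (sysOf δ hm).mv w q = r := by
  induction w generalizing q with
  | nil =>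
    rw [MPe1e800INJ.run_nil'] at h
    rw [Sys.mv_nil]
    exact Option.some_injective _ h
  | cons x w ih =>
    rw [Sys.mv_cons]
    cases hx : δ q x with
    | none =>
      rw [MPe1e800INJ.run_cons_none δ q x w hx] at h
      exact absurd h (by simp)
    | some p =>
      rw [MPe1e800INJ.run_cons_some δ q p x w hx] at h
      have h1 : (sysOf δ hm).σ x q = p := by
        change (δ q x).getD q = p
        rw [hx]
        rfl
      rw [h1]
      exact ih p h

include hm in
theorem nearA_cost (w : List A) (S : Set Q) : MPe1e800INJ.cost δ S ≤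
    w.length + MPe1e800INJ.cost δ {r | ∃ q ∈ S, MPe1e800.run δ q w = some r} := by
  obtain ⟨v, hv, hl⟩ := MPe1e800INJ.exists_opt hm {r | ∃ q ∈ S, MPe1e800.run δ q w = some r}
  rw [← hl, ← List.length_append]
  apply MPe1e800INJ.cost_le
  intro q hq
  cases h : MPe1e800.run δ q w with
  | none => exact MPe1e800INJ.run_append_none δ q w v h
  | some r =>
    rw [MPe1e800INJ.run_append_some δ q r w v h]
    exact hv r ⟨q, hq, h⟩

theorem nearA_key [Fintype Q] (H : ℕ) (hH : ∀ q, (sysOf δ hm).V {q} ≤ H) (s : ℕ) :
    ∀ S : Finset Q, S.card ≤ s → MPe1e800INJ.cost δ (S : Set Q) ≤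
      ∑ j ∈ range s, min (Fintype.card Q - j) H := by
  classical
  induction s with
  | zero =>
    intro S hS
    have : S = ∅ := Finset.card_eq_zero.1 (by omega)
    subst this
    exact le_of_eq_of_le (sysOf δ hm).empty (Nat.zero_le _)
  | succ s ih =>
    intro S hS
    rw [sum_range_succ]
    by_cases hs : S.card ≤ s
    · exact (ih S hs).trans (Nat.le_add_right _ _)
    · have hne : S.Nonempty := by
        rw [← Finset.card_pos]
        omega
      obtain ⟨q, hq, hmin⟩ := S.exists_min_image (fun q => (sysOf δ hm).V {q}) hne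
      have hj := (sysOf δ hm).h_le q
      have h1 := (sysOf δ hm).cnt ((sysOf δ hm).V {q}) (by omega)
      have h2 : S.card ≤ (univ.filter fun p : Q =>
          (sysOf δ hm).V {q} ≤ (sysOf δ hm).V {p}).card := by
        apply card_le_card
        intro p hp
        rw [mem_filter]
        exact ⟨mem_univ _, hmin p hp⟩
      have h3 := hH q
      obtain ⟨u, hu, hl⟩ := MPe1e800INJ.exists_opt hm (({q} : Finset Q) : Set Q)
      have hl' : u.length = (sysOf δ hm).V {q} := hl
      let T : Finset Q := univ.filter (fun r => ∃ p ∈ S.erase q, MPe1e800.run δ p u = some r)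
      have hT : T.card ≤ s := by
        have e1 : T ⊆ (S.erase q).image (fun p => (MPe1e800.run δ p u).getD q) := by
          intro r hr
          simp only [T, Finset.mem_filter, Finset.mem_univ, true_and] at hr
          obtain ⟨p, hp, hpr⟩ := hr
          rw [Finset.mem_image]
          exact ⟨p, hp, by simp [hpr]⟩
        have e2 := Finset.card_le_card e1
        have e3 : ((S.erase q).image (fun p => (MPe1e800.run δ p u).getD q)).card ≤
            (S.erase q).card := Finset.card_image_le
        have e4 : (S.erase q).card = S.card - 1 := Finset.card_erase_of_mem hq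
        omega
      have h4 := ih T hT
      have h5 := nearA_cost δ hm u (S : Set Q)
      have h6 : MPe1e800INJ.cost δ {r | ∃ p ∈ (S : Set Q), MPe1e800.run δ p u = some r} ≤
          MPe1e800INJ.cost δ (T : Set Q) := by
        apply MPe1e800INJ.cost_mono hm
        rintro r ⟨p, hp, hpr⟩
        simp only [T, Finset.coe_filter, Finset.mem_univ, true_and, Set.mem_setOf_eq]
        refine ⟨p, Finset.mem_erase.2 ⟨?_, by simpa using hp⟩, hpr⟩
        rintro rfl
        rw [hu p (by simp)] at hpr
        exact absurd hpr (by simp)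
      have h7 : (sysOf δ hm).V {q} ≤ min (Fintype.card Q - s) H := by
        apply le_min _ h3
        omega
      omega

end

variable {Q A : Type} [Fintype Q] [DecidableEq Q] [Nonempty Q] (δ : Q → A → Option Q)
  (hm : ∃ w : List A, MPe1e800.Mortal δ w) (D W0 β : ℕ)
  (hD : Fintype.card Q * (Fintype.card Q + 1) ≤ 2 * MPe1e800.threshold δ + 2 * D)
  (hDβ : 2 * (W0 + D) ≤ β ^ 2)

include hD hDβ

/-- NEARA -/
theorem sysOf_rk (w : List A) (hw : w.length ≤ W0) :
    Fintype.card Q ≤ (univ.image ((sysOf δ hm).mv w)).card + β := by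
  classical
  let T : Finset Q := univ.filter (fun r => ∃ p, MPe1e800.run δ p w = some r)
  have hT : T ⊆ univ.image ((sysOf δ hm).mv w) := by
    intro r hr
    simp only [T, Finset.mem_filter, Finset.mem_univ, true_and] at hr
    obtain ⟨p, hp⟩ := hr
    rw [mem_image]
    exact ⟨p, mem_univ _, nearA_run δ hm w p r hp⟩
  have h1 := card_le_card hT
  have h2 := nearA_key δ hm (Fintype.card Q) (fun q => (sysOf δ hm).h_le q) T.card T le_rfl
  have h3 := nearA_cost δ hm w Set.univ
  rw [MPe1e800INJ.cost_univ hm] at h3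
  have h4 : MPe1e800INJ.cost δ {r | ∃ p ∈ (Set.univ : Set Q), MPe1e800.run δ p w = some r} ≤
      MPe1e800INJ.cost δ (T : Set Q) := by
    apply MPe1e800INJ.cost_mono hm
    rintro r ⟨p, _, hpr⟩
    simp only [T, Finset.coe_filter, Finset.mem_univ, true_and, Set.mem_setOf_eq]
    exact ⟨p, hpr⟩
  have h5 : ∑ j ∈ range T.card, min (Fintype.card Q - j) (Fintype.card Q) =
      ∑ j ∈ range T.card, (Fintype.card Q - j) := by
    apply sum_congr rfl
    intro j _
    exact min_eq_left (Nat.sub_le _ _)
  rw [h5] at h2
  have h6 := nearA_sum_one (Fintype.card Q) T.card (card_le_univ T)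
  by_contra hcon
  rw [not_le] at hcon
  have h7 : β + 1 ≤ Fintype.card Q - T.card := by omega
  have h8 : (β + 1) * (β + 1) ≤
      (Fintype.card Q - T.card) * (Fintype.card Q - T.card + 1) :=
    Nat.mul_le_mul h7 (by omega)
  nlinarith

theorem sysOf_top : ∃ q, Fintype.card Q ≤ (sysOf δ hm).V {q} + β := by
  classical
  obtain ⟨q, _, hmax⟩ := (univ : Finset Q).exists_max_image (fun q => (sysOf δ hm).V {q})
    univ_nonempty
  refine ⟨q, ?_⟩
  have h1 := nearA_key δ hm ((sysOf δ hm).V {q}) (fun p => hmax p (mem_univ _))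
    (Fintype.card Q) univ (by rw [card_univ])
  rw [coe_univ, MPe1e800INJ.cost_univ hm] at h1
  have hle := (sysOf δ hm).h_le q
  obtain ⟨k, hk⟩ := Nat.exists_eq_add_of_le hle
  have h2 := nearA_sum_two ((sysOf δ hm).V {q}) k
  rw [← hk] at h2
  by_contra hcon
  rw [not_le] at hcon
  have h3 : β + 1 ≤ k := by omega
  have h4 : (β + 1) * (β + 1) ≤ k * (k + 1) := Nat.mul_le_mul h3 (by omega)
  nlinarith

end MortUB
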