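import Pool.Agent.Lib.MP_e1e800_lc_UB.Defs

/-!
# MP_e1e800_lc, project UB: numerics
-/

namespace MortUB

open Finset

private theorem pw {v : ℝ} (hv : 1 ≤ v) {i j : ℕ} (h : i ≤ j) : v ^ i ≤ v ^ j :=
  pow_le_pow_right₀ hv h

private theorem errT_le {a v β κ t K : ℝ} (ha : 1 ≤ a) (hv : 5 ≤ v) (hK : 1 ≤ K)
    (hβ0 : 0 ≤ β) (hβ : β ≤ 5 * a) (ht : a * v ^ 112 ≤ t) (ht2 : t ≤ 2 * (a * v ^ 112))
    (hκ : a * v ^ 120 ≤ κ) (hκ2 : κ ≤ 2 * (a * v ^ 120)) :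
    errT (a * v ^ 128) β κ t K ≤ 5050 * K ^ 3 * (a * v ^ 120) := by
  have hv1 : 1 ≤ v := by linarith
  have hv0 : 0 < v := by linarith
  have ha0 : 0 < a := by linarith
  have hK0 : 0 < K := by linarith
  have hκ0 : 0 < κ := lt_of_lt_of_le (by positivity) hκ
  have ht0 : 0 < t := lt_of_lt_of_le (by positivity) ht
  have e1 : 5 * a ≤ a * v ^ 120 := by
    have h1 : v ^ 1 ≤ v ^ 120 := pw hv1 (by norm_num)
    nlinarith
  have t1 : 2 * K ^ 2 * (κ + β) ≤ 6 * K ^ 3 * (a * v ^ 120) := by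
    have h1 : κ + β ≤ 3 * (a * v ^ 120) := by linarith
    have h2 : K ^ 2 ≤ K ^ 3 := pw hK (by norm_num)
    calc 2 * K ^ 2 * (κ + β) ≤ 2 * K ^ 3 * (3 * (a * v ^ 120)) := by gcongr
      _ = 6 * K ^ 3 * (a * v ^ 120) := by ring
  have t2 : K ^ 3 * (2 * (a * v ^ 128) * t + 8 * (a * v ^ 128) * β) / κ ≤
      44 * K ^ 3 * (a * v ^ 120) := by
    rw [div_le_iff₀ hκ0]
    have h1 : v ^ 128 ≤ v ^ 240 := pw hv1 (by norm_num)
    calc K ^ 3 * (2 * (a * v ^ 128) * t + 8 * (a * v ^ 128) * β)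
        ≤ K ^ 3 * (2 * (a * v ^ 128) * (2 * (a * v ^ 112)) + 8 * (a * v ^ 128) * (5 * a)) := by
          gcongr
      _ = K ^ 3 * a ^ 2 * (4 * v ^ 240 + 40 * v ^ 128) := by ring
      _ ≤ K ^ 3 * a ^ 2 * (4 * v ^ 240 + 40 * v ^ 240) := by gcongr
      _ = 44 * K ^ 3 * (a * v ^ 120) * (a * v ^ 120) := by ring
      _ ≤ 44 * K ^ 3 * (a * v ^ 120) * κ := by gcongr
  have t3 : 1000 * K ^ 3 * β * (a * v ^ 128) ^ 4 / (t ^ 2 * κ ^ 2) ≤
      5000 * K ^ 3 * (a * v ^ 120) := by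
    rw [div_le_iff₀ (by positivity)]
    have h1 : v ^ 512 ≤ v ^ 584 := pw hv1 (by norm_num)
    calc 1000 * K ^ 3 * β * (a * v ^ 128) ^ 4
        ≤ 1000 * K ^ 3 * (5 * a) * (a * v ^ 128) ^ 4 := by gcongr
      _ = 5000 * K ^ 3 * a ^ 5 * v ^ 512 := by ring
      _ ≤ 5000 * K ^ 3 * a ^ 5 * v ^ 584 := by gcongr
      _ = 5000 * K ^ 3 * (a * v ^ 120) * ((a * v ^ 112) ^ 2 * (a * v ^ 120) ^ 2) := by ring
      _ ≤ 5000 * K ^ 3 * (a * v ^ 120) * (t ^ 2 * κ ^ 2) := by gcongr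
  unfold errT
  linarith

private theorem errS_le {a v β κ κ' t K : ℝ} (ha : 1 ≤ a) (hv : 5 ≤ v) (hK : 1 ≤ K)
    (hβ0 : 0 ≤ β) (hβ : β ≤ 5 * a) (ht : a * v ^ 112 ≤ t) (ht2 : t ≤ 2 * (a * v ^ 112))
    (hκ : a * v ^ 120 ≤ κ) (hκ2 : κ ≤ 2 * (a * v ^ 120)) (hκ' : a * v ^ 124 ≤ κ') :
    errS (a * v ^ 128) β κ κ' t K ≤ 5080 * K ^ 3 * (a * v ^ 124) := by
  have h1 := errT_le ha hv hK hβ0 hβ ht ht2 hκ hκ2
  have hv1 : 1 ≤ v := by linarith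
  have hv0 : 0 < v := by linarith
  have ha0 : 0 < a := by linarith
  have hK0 : 0 < K := by linarith
  have hκ0 : 0 < κ' := lt_of_lt_of_le (by positivity) hκ'
  have h2 : a ≤ a * v ^ 120 := by
    have : (1 : ℝ) ≤ v ^ 120 := one_le_pow₀ hv1
    nlinarith
  unfold errS
  rw [div_le_iff₀ hκ0]
  calc a * v ^ 128 * (errT (a * v ^ 128) β κ t K + 6 * K ^ 3 * β)
      ≤ a * v ^ 128 * (5050 * K ^ 3 * (a * v ^ 120) + 6 * K ^ 3 * (5 * (a * v ^ 120))) := by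
        gcongr
        linarith
    _ = 5080 * K ^ 3 * (a * v ^ 124) * (a * v ^ 124) := by ring
    _ ≤ 5080 * K ^ 3 * (a * v ^ 124) * κ' := by gcongr

private theorem errS_nonneg {n β κ κ' t K : ℝ} (hn : 0 ≤ n) (hβ : 0 ≤ β) (hκ : 0 ≤ κ)
    (hκ' : 0 ≤ κ') (ht : 0 ≤ t) (hK : 0 ≤ K) : 0 ≤ errS n β κ κ' t K := by
  unfold errS errT
  positivity

/-- the main condition -/
private theorem main_le {a v u β κ κ' t Λ m r c₁ : ℝ} (ha : 1 ≤ a) (hv : 5 ≤ v)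
    (hβ0 : 0 ≤ β) (hβ : β ≤ 5 * a) (ht : a * v ^ 112 ≤ t) (ht2 : t ≤ 2 * (a * v ^ 112))
    (hκ : a * v ^ 120 ≤ κ) (hκ2 : κ ≤ 2 * (a * v ^ 120)) (hκ' : a * v ^ 124 ≤ κ')
    (hκ'2 : κ' ≤ 2 * (a * v ^ 124)) (hΛ0 : 0 ≤ Λ) (hΛ : Λ ≤ 2 * v) (hm : m ≤ u)
    (hu : 1 ≤ u) (hr0 : 0 ≤ r) (hur : 8 * r ≤ u) (huv : 3256 * u ≤ v)
    (hc : c₁ * u ^ 2 = a * v ^ 128) :
    m * (Λ ^ 2 + 2 * Λ * Real.sqrt ((a * v ^ 128) *
      (errS (a * v ^ 128) β κ κ' t 2 + 2 * β + κ')) + 2 * c₁ * r + β) + β + 1 < a * v ^ 128 := by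
  have hv1 : 1 ≤ v := by linarith
  have hv0 : 0 < v := by linarith
  have ha0 : 0 < a := by linarith
  have hu0 : 0 < u := by linarith
  have hc0 : 0 < c₁ := by
    have h1 : 0 < c₁ * u ^ 2 := by rw [hc]; positivity
    exact (pos_iff_pos_of_mul_pos h1).mpr (by positivity)
  have h1 := errS_le ha hv (K := 2) (by norm_num) hβ0 hβ ht ht2 hκ hκ2 hκ'
  have h2 : a ≤ a * v ^ 124 := by
    have : (1 : ℝ) ≤ v ^ 124 := one_le_pow₀ hv1
    nlinarith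
  have h3 : errS (a * v ^ 128) β κ κ' t 2 + 2 * β + κ' ≤ 40652 * (a * v ^ 124) := by
    have : (5080 : ℝ) * 2 ^ 3 = 40640 := by norm_num
    rw [this] at h1
    linarith
  have h4 : Real.sqrt ((a * v ^ 128) * (errS (a * v ^ 128) β κ κ' t 2 + 2 * β + κ')) ≤
      202 * (a * v ^ 126) := by
    rw [Real.sqrt_le_iff]
    refine ⟨by positivity, ?_⟩
    calc (a * v ^ 128) * (errS (a * v ^ 128) β κ κ' t 2 + 2 * β + κ')
        ≤ (a * v ^ 128) * (40652 * (a * v ^ 124)) := by gcongr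
      _ = 40652 * (a * v ^ 126) ^ 2 := by ring
      _ ≤ 40804 * (a * v ^ 126) ^ 2 := by gcongr; norm_num
      _ = (202 * (a * v ^ 126)) ^ 2 := by ring
  have h5 : Λ ^ 2 ≤ a * v ^ 127 := by
    have e1 : v ^ 3 ≤ v ^ 127 := pw hv1 (by norm_num)
    calc Λ ^ 2 ≤ (2 * v) ^ 2 := by gcongr
      _ = 4 * v ^ 2 := by ring
      _ ≤ v * v ^ 2 := by gcongr; linarith
      _ = 1 * v ^ 3 := by ring
      _ ≤ a * v ^ 127 := by gcongr
  have h6 : 2 * Λ * Real.sqrt ((a * v ^ 128) * (errS (a * v ^ 128) β κ κ' t 2 + 2 * β + κ')) ≤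
      808 * (a * v ^ 127) := by
    calc 2 * Λ * Real.sqrt ((a * v ^ 128) * (errS (a * v ^ 128) β κ κ' t 2 + 2 * β + κ'))
        ≤ 2 * (2 * v) * (202 * (a * v ^ 126)) := by gcongr
      _ = 808 * (a * v ^ 127) := by ring
  have h7 : β ≤ 5 * (a * v ^ 127) := by
    have : (1 : ℝ) ≤ v ^ 127 := one_le_pow₀ hv1
    nlinarith
  have h8 : u * (2 * c₁ * r) ≤ a * v ^ 128 / 4 := by
    rw [← hc]
    have : c₁ * u * (8 * r) ≤ c₁ * u * u := by gcongr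
    nlinarith
  have h9 : u * (814 * (a * v ^ 127)) ≤ a * v ^ 128 / 4 := by
    have : 3256 * u * (a * v ^ 127) ≤ v * (a * v ^ 127) := by gcongr
    have e : v * (a * v ^ 127) = a * v ^ 128 := by ring
    rw [e] at this
    linarith
  have h10 : β + 1 ≤ a * v ^ 128 / 4 := by
    have e1 : v ^ 2 ≤ v ^ 128 := pw hv1 (by norm_num)
    have e2 : (24 : ℝ) ≤ v ^ 128 := by nlinarith
    nlinarith
  have h11 : m * (Λ ^ 2 + 2 * Λ * Real.sqrt ((a * v ^ 128) *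
      (errS (a * v ^ 128) β κ κ' t 2 + 2 * β + κ')) + 2 * c₁ * r + β) ≤
      u * (814 * (a * v ^ 127) + 2 * c₁ * r) := by
    apply mul_le_mul hm _ _ hu0.le
    · linarith
    · have := Real.sqrt_nonneg ((a * v ^ 128) *
        (errS (a * v ^ 128) β κ κ' t 2 + 2 * β + κ'))
      positivity
  have h12 : 0 < a * v ^ 128 := by positivity
  rw [mul_add] at h11
  linarith

/-- the last condition -/
private theorem last_le (h : ℕ) (hh : 1 ≤ h) : ∃ U0 X0 : ℝ, ∀ {a v u β κ κ' t Λ η c₁ : ℝ},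
    U0 ≤ u → X0 ≤ a * v ^ 128 → 1 ≤ a → 5 ≤ v → 1 ≤ u → v = u ^ (200 * h) →
    (a * v ^ 128) ^ 4 ≤ v ^ h → 
    0 ≤ β → β ≤ 5 * a → a * v ^ 112 ≤ t → t ≤ 2 * (a * v ^ 112) →
    a * v ^ 120 ≤ κ → κ ≤ 2 * (a * v ^ 120) → a * v ^ 124 ≤ κ' →
    κ' ≤ 2 * (a * v ^ 124) → v ≤ Λ → c₁ * u ^ 2 = a * v ^ 128 → η * v ^ 16 = 1 →
    4 * h * errS (a * v ^ 128) β κ κ' t (4 * h) * (a * v ^ 128) ^ (4 * h - 1) / c₁ ^ (4 * h) +
      (4 * h * (a * v ^ 128) + 1) *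
      (2 ^ (4 * h) * (((a * v ^ 128) / Λ + β + κ') / c₁) ^ (2 * h) +
        2 * 2 ^ (4 * h) * (4 * h) ^ (4 * h) * (η * (a * v ^ 128) / c₁) ^ h) < 1 := by
  refine ⟨4 * 1300480 * (h : ℝ) ^ 4 + 1, 20 * h * 1024 ^ h + 
    40 * h * 16 ^ h * (4 * h) ^ (4 * h) + 1, ?_⟩
  intro a v u β κ κ' t Λ η c₁ hu0 hx0 ha hv hu hvu hxv hβ0 hβ ht ht2 hκ hκ2 hκ' hκ'2 hΛ hc hη
  have hv1 : 1 ≤ v := by linarith
  have hv0 : 0 < v := by linarith
  have ha0 : 0 < a := by linarith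
  have hup : 0 < u := by linarith
  have hh' : (1 : ℝ) ≤ h := by exact_mod_cast hh
  have hhp : (0 : ℝ) < h := by linarith
  have hS := errS_le ha hv (K := 4 * h) (by linarith) hβ0 hβ ht ht2 hκ hκ2 hκ'
  have hS0 : 0 ≤ errS (a * v ^ 128) β κ κ' t (4 * h) := by
    apply errS_nonneg <;> first | positivity | (exact le_trans (by positivity) hκ) |
      (exact le_trans (by positivity) hκ') | (exact le_trans (by positivity) ht)
  have hκ'0 : 0 < κ' := lt_of_lt_of_le (by positivity) hκ'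
  have hΛ0 : 0 < Λ := lt_of_lt_of_le hv0 hΛ
  set x : ℝ := a * v ^ 128 with hx
  have hxp : 0 < x := by rw [hx]; positivity
  have hx1 : 1 ≤ x := by
    rw [hx]
    have : (1 : ℝ) ≤ v ^ 128 := one_le_pow₀ hv1
    nlinarith
  have hc0 : 0 < c₁ := by
    have h1 : 0 < c₁ * u ^ 2 := by rw [hc]; exact hxp
    exact (pos_iff_pos_of_mul_pos h1).mpr (by positivity)
  have hη0 : 0 < η := by
    have h1 : 0 < η * v ^ 16 := by rw [hη]; exact one_pos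
    exact (pos_iff_pos_of_mul_pos h1).mpr (by positivity)
  -- first term
  have f1 : 4 * h * errS x β κ κ' t (4 * h) * x ^ (4 * h - 1) / c₁ ^ (4 * h) ≤ 1 / 4 := by
    rw [div_le_iff₀ (by positivity)]
    have e0 : x ^ (4 * h - 1) * x = x ^ (4 * h) := by
      rw [← pow_succ]
      congr 1
      omega
    have e1 : x ^ (4 * h) = c₁ ^ (4 * h) * u ^ (8 * h) := by
      rw [← hc, mul_pow, ← pow_mul]
      congr 2
      ring
    have e2 : a * v ^ 124 * v ^ 4 = x := by rw [hx]; ring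
    have e3 : u ^ (8 * h) * (4 * 1300480 * (h : ℝ) ^ 4) ≤ v ^ 4 := by
      have g1 : v ^ 4 = u ^ (8 * h) * u ^ (792 * h) := by
        rw [hvu, ← pow_mul, ← pow_add]
        congr 1
        ring
      rw [g1]
      have g2 : u ^ 1 ≤ u ^ (792 * h) := pow_le_pow_right₀ hu (by omega)
      have g3 : 4 * 1300480 * (h : ℝ) ^ 4 ≤ u ^ (792 * h) := by
        rw [pow_one] at g2
        linarith
      gcongr
    have e4 : 4 * h * errS x β κ κ' t (4 * h) * x ^ (4 * h - 1) ≤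
        1300480 * (h : ℝ) ^ 4 * (a * v ^ 124) * x ^ (4 * h - 1) := by
      have : 4 * h * errS x β κ κ' t (4 * h) ≤ 1300480 * (h : ℝ) ^ 4 * (a * v ^ 124) := by
        calc 4 * h * errS x β κ κ' t (4 * h) ≤ 4 * h * (5080 * (4 * h) ^ 3 * (a * v ^ 124)) := by
              gcongr
          _ = 1300480 * (h : ℝ) ^ 4 * (a * v ^ 124) := by ring
      gcongr
    refine e4.trans ?_
    -- multiply by `v ^ 4`
    have hv4 : 0 < v ^ 4 := by positivity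
    rw [← mul_le_mul_iff_of_pos_right hv4]
    calc 1300480 * (h : ℝ) ^ 4 * (a * v ^ 124) * x ^ (4 * h - 1) * v ^ 4
        = 1300480 * (h : ℝ) ^ 4 * (x ^ (4 * h - 1) * (a * v ^ 124 * v ^ 4)) := by ring
      _ = 1300480 * (h : ℝ) ^ 4 * (c₁ ^ (4 * h) * u ^ (8 * h)) := by rw [e2, e0, e1]
      _ = c₁ ^ (4 * h) / 4 * (u ^ (8 * h) * (4 * 1300480 * (h : ℝ) ^ 4)) := by ring
      _ ≤ c₁ ^ (4 * h) / 4 * v ^ 4 := by gcongr
      _ = 1 / 4 * c₁ ^ (4 * h) * v ^ 4 := by ring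
  -- second term
  have hvh : x ^ 4 * u ^ (4 * h) ≤ v ^ (2 * h) := by
    have g1 : v ^ (2 * h) = v ^ h * v ^ h := by rw [← pow_add]; congr 1; ring
    have g2 : u ^ (4 * h) ≤ v ^ h := by
      rw [hvu, ← pow_mul]
      apply pow_le_pow_right₀ hu
      nlinarith
    rw [g1]
    gcongr
  have f2a : ((x / Λ + β + κ') / c₁) ^ (2 * h) ≤ 64 ^ h / x ^ 4 := by
    have g1 : (x / Λ + β + κ') / c₁ ≤ 8 * u ^ 2 / v := by
      rw [div_le_div_iff₀ hc0 hv0]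
      have g2 : x / Λ ≤ a * v ^ 127 := by
        rw [div_le_iff₀ hΛ0]
        calc x = a * v ^ 127 * v := by rw [hx]; ring
          _ ≤ a * v ^ 127 * Λ := by gcongr
      have g3 : a ≤ a * v ^ 127 := by
        have : (1 : ℝ) ≤ v ^ 127 := one_le_pow₀ hv1
        nlinarith
      have g4 : a * v ^ 124 ≤ a * v ^ 127 := by
        have : v ^ 124 ≤ v ^ 127 := pw hv1 (by norm_num)
        gcongr
      have g5 : x / Λ + β + κ' ≤ 8 * (a * v ^ 127) := by linarith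
      calc (x / Λ + β + κ') * v ≤ 8 * (a * v ^ 127) * v := by gcongr
        _ = 8 * x := by rw [hx]; ring
        _ = 8 * u ^ 2 * c₁ := by rw [← hc]; ring
    have g0 : 0 ≤ (x / Λ + β + κ') / c₁ := by positivity
    calc ((x / Λ + β + κ') / c₁) ^ (2 * h) ≤ (8 * u ^ 2 / v) ^ (2 * h) := by gcongr
      _ = 64 ^ h * u ^ (4 * h) / v ^ (2 * h) := by
          rw [div_pow, mul_pow, ← pow_mul, pow_mul 8 2 h, show 2 * (2 * h) = 4 * h by ring]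
          norm_num
      _ ≤ 64 ^ h / x ^ 4 := by
          rw [div_le_div_iff₀ (by positivity) (by positivity)]
          calc 64 ^ h * u ^ (4 * h) * x ^ 4 = 64 ^ h * (x ^ 4 * u ^ (4 * h)) := by ring
            _ ≤ 64 ^ h * v ^ (2 * h) := by gcongr
  have f3a : (η * x / c₁) ^ h ≤ 1 / x ^ 4 := by
    have g1 : η * x / c₁ = u ^ 2 / v ^ 16 := by
      rw [div_eq_div_iff hc0.ne' (by positivity), ← hc]
      calc η * (c₁ * u ^ 2) * v ^ 16 = (η * v ^ 16) * (c₁ * u ^ 2) := by ring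
        _ = u ^ 2 * c₁ := by rw [hη]; ring
    rw [g1, div_pow, div_le_div_iff₀ (by positivity) (by positivity), one_mul]
    calc (u ^ 2) ^ h * x ^ 4 = x ^ 4 * u ^ (2 * h) := by rw [← pow_mul]; ring
      _ ≤ x ^ 4 * u ^ (4 * h) := by
          have : u ^ (2 * h) ≤ u ^ (4 * h) := pow_le_pow_right₀ hu (by omega)
          gcongr
      _ ≤ v ^ (2 * h) := hvh
      _ ≤ v ^ (16 * h) := pow_le_pow_right₀ hv1 (by omega)
      _ = (v ^ 16) ^ h := by rw [← pow_mul]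
  have f4 : 4 * h * x + 1 ≤ 5 * h * x := by nlinarith
  have e16 : (2 : ℝ) ^ (4 * h) = 16 ^ h := by rw [pow_mul]; norm_num
  have hx3 : x ≤ x ^ 3 := by
    calc x = x ^ 1 := (pow_one x).symm
      _ ≤ x ^ 3 := pow_le_pow_right₀ hx1 (by norm_num)
  have hA : 0 ≤ 20 * (h : ℝ) * 1024 ^ h := by positivity
  have hB : 0 ≤ 40 * (h : ℝ) * 16 ^ h * (4 * h) ^ (4 * h) := by positivity
  have f5 : 5 * h * x * (16 ^ h * (64 ^ h / x ^ 4)) ≤ 1 / 4 := by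
    have g1 : 5 * h * x * (16 ^ h * (64 ^ h / x ^ 4)) = 5 * h * 1024 ^ h / x ^ 3 := by
      rw [show (1024 : ℝ) ^ h = 16 ^ h * 64 ^ h by rw [← mul_pow]; norm_num]
      field_simp
    rw [g1, div_le_iff₀ (by positivity)]
    linarith
  have f6 : 5 * h * x * (2 * 16 ^ h * (4 * h) ^ (4 * h) * (1 / x ^ 4)) ≤ 1 / 4 := by
    have g1 : 5 * h * x * (2 * 16 ^ h * (4 * h) ^ (4 * h) * (1 / x ^ 4)) =
        10 * h * 16 ^ h * (4 * h) ^ (4 * h) / x ^ 3 := by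
      field_simp
      ring
    rw [g1, div_le_iff₀ (by positivity)]
    linarith
  have f7 : (4 * h * x + 1) * (2 ^ (4 * h) * ((x / Λ + β + κ') / c₁) ^ (2 * h) +
        2 * 2 ^ (4 * h) * (4 * h) ^ (4 * h) * (η * x / c₁) ^ h) ≤
      5 * h * x * (16 ^ h * (64 ^ h / x ^ 4) +
        2 * 16 ^ h * (4 * h) ^ (4 * h) * (1 / x ^ 4)) := by
    rw [e16]
    gcongr
  rw [mul_add] at f7
  linarith

private theorem ceil_two {z : ℝ} (hz : 1 ≤ z) : z ≤ (⌈z⌉₊ : ℝ) ∧ (⌈z⌉₊ : ℝ) ≤ 2 * z := by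
  refine ⟨Nat.le_ceil z, ?_⟩
  have := Nat.ceil_lt_add_one (show 0 ≤ z by linarith)
  linarith

/-- all conditions, in terms of `u` and `v` -/
private theorem core (h r : ℕ) (hh : 1 ≤ h) : ∃ U0 X0 : ℝ, ∀ (n m : ℕ) (a v u : ℝ),
    U0 ≤ u → X0 ≤ n → (n : ℝ) = a * v ^ 128 → v ^ 384 ≤ a → v = u ^ (200 * h) →
    (n : ℝ) ^ 4 ≤ v ^ h → (m : ℝ) ≤ u → (n : ℝ) < v ^ (r + 1) →
    ∃ (D W0 β κ κ' t Λ : ℕ) (η c₁ : ℝ),
    a ^ 2 + n ≤ D ∧ 2 * (W0 + D) ≤ β ^ 2 ∧ 1 ≤ β ∧ 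
    4 * h * n ≤ W0 ∧ β + 1 < n ∧ 1 ≤ t ∧ 2 ≤ κ ∧ β ≤ κ ∧ 4 * κ ≤ n ∧ 1 ≤ κ' ∧ κ' + β ≤ n ∧
    4 ≤ Λ ∧ n < Λ ^ (r + 1) ∧ 0 < η ∧ η ≤ 1 ∧ 0 < c₁ ∧
    (m : ℝ) * ((Λ : ℝ) ^ 2 + 2 * Λ * Real.sqrt (n *
      (errS n β κ κ' t 2 + 2 * β + κ')) + 2 * c₁ * r + β) + β + 1 < n ∧
    (β : ℝ) + κ' ≤ c₁ / 2 ∧ 16 * (Λ : ℝ) * β ≤ c₁ * η ^ 2 ∧
    4 * h * errS n β κ κ' t (4 * h) * (n : ℝ) ^ (4 * h - 1) / c₁ ^ (4 * h) +
      (4 * h * n + 1) * (2 ^ (4 * h) * (((n : ℝ) / Λ + β + κ') / c₁) ^ (2 * h) +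
        2 * 2 ^ (4 * h) * (4 * h) ^ (4 * h) * (η * n / c₁) ^ h) < 1 := by
  obtain ⟨U1, X1, hlast⟩ := last_le h hh
  refine ⟨max U1 (max 3256 (max (8 * r) (8 * h + 4))), X1, ?_⟩
  intro n m a v u hu hx hn hva hvu hxv hm hnv
  have hu1 : U1 ≤ u := (le_max_left _ _).trans hu
  have hu2 : 3256 ≤ u := ((le_max_left _ _).trans (le_max_right _ _)).trans hu
  have hu3 : 8 * (r : ℝ) ≤ u :=
    ((le_max_left _ _).trans ((le_max_right _ _).trans (le_max_right _ _))).trans hu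
  have hu4 : 8 * (h : ℝ) + 4 ≤ u :=
    ((le_max_right _ _).trans ((le_max_right _ _).trans (le_max_right _ _))).trans hu
  have hup : 0 < u := by linarith
  have hu0 : 1 ≤ u := by linarith
  have hv2 : u ^ 3 ≤ v := by
    rw [hvu]
    apply pow_le_pow_right₀ hu0
    omega
  have huv1 : u ≤ v := by
    calc u = u ^ 1 := (pow_one u).symm
      _ ≤ u ^ 3 := pow_le_pow_right₀ hu0 (by norm_num)
      _ ≤ v := hv2
  have huv : 3256 * u ≤ v := by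
    calc 3256 * u ≤ u * u := by gcongr
      _ = u ^ 2 := by ring
      _ ≤ u ^ 3 := pow_le_pow_right₀ hu0 (by norm_num)
      _ ≤ v := hv2
  have hu2v : u ^ 2 ≤ v := by
    calc u ^ 2 ≤ u ^ 3 := pow_le_pow_right₀ hu0 (by norm_num)
      _ ≤ v := hv2
  have hv5 : 5 ≤ v := by linarith
  have hv3256 : 3256 ≤ v := by linarith
  have hv1 : 1 ≤ v := by linarith
  have hv0 : 0 < v := by linarith
  have ha : 1 ≤ a := le_trans (one_le_pow₀ hv1) hva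
  have ha0 : 0 < a := by linarith
  have hp : ∀ k : ℕ, 1 ≤ a * v ^ k := fun k => by
    have : (1 : ℝ) ≤ v ^ k := one_le_pow₀ hv1
    nlinarith
  -- the parameters
  have cβ1 : 4 * a ≤ (⌈4 * a⌉₊ : ℝ) := Nat.le_ceil _
  have cβ2 : (⌈4 * a⌉₊ : ℝ) ≤ 5 * a := by
    have := Nat.ceil_lt_add_one (show 0 ≤ 4 * a by linarith)
    linarith
  obtain ⟨ct1, ct2⟩ := ceil_two (hp 112)
  obtain ⟨cκ1, cκ2⟩ := ceil_two (hp 120)
  obtain ⟨cκ'1, cκ'2⟩ := ceil_two (hp 124)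
  obtain ⟨cΛ1, cΛ2⟩ := ceil_two hv1
  set β : ℕ := ⌈4 * a⌉₊ with hβ
  set t : ℕ := ⌈a * v ^ 112⌉₊ with ht
  set κ : ℕ := ⌈a * v ^ 120⌉₊ with hκ
  set κ' : ℕ := ⌈a * v ^ 124⌉₊ with hκ'
  set Λ : ℕ := ⌈v⌉₊ with hΛ
  set D : ℕ := ⌈a ^ 2 + (n : ℝ)⌉₊ with hD
  have hc0 : (n : ℝ) / u ^ 2 * u ^ 2 = a * v ^ 128 := by
    rw [div_mul_cancel₀ _ (by positivity), hn]
  have hnp : (0 : ℝ) < n := by rw [hn]; positivity
  have hη : 1 / v ^ 16 * v ^ 16 = 1 := by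
    rw [div_mul_cancel₀ _ (by positivity)]
  have h120 : a * v ^ 120 * v ^ 8 = n := by rw [hn]; ring
  have hv8 : v ≤ v ^ 8 := by
    calc v = v ^ 1 := (pow_one v).symm
      _ ≤ v ^ 8 := pw hv1 (by norm_num)
  have hv4 : v ≤ v ^ 4 := by
    calc v = v ^ 1 := (pow_one v).symm
      _ ≤ v ^ 4 := pw hv1 (by norm_num)
  refine ⟨D, 4 * h * n, β, κ, κ', t, Λ, 1 / v ^ 16, (n : ℝ) / u ^ 2, ?_, ?_, ?_, le_rfl, ?_, ?_,
    ?_, ?_, ?_, ?_, ?_, ?_, ?_, ?_, ?_, ?_, ?_, ?_, ?_, ?_⟩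
  · exact Nat.le_ceil _
  · -- `2 (W0 + D) ≤ β ^ 2`
    have h1 : (D : ℝ) ≤ a ^ 2 + n + 1 :=
      (Nat.ceil_lt_add_one (by positivity)).le
    have h2 : (8 * (h : ℝ) + 4) * n ≤ a ^ 2 := by
      have e1 : v ^ 129 ≤ a := (pw hv1 (by norm_num)).trans hva
      calc (8 * (h : ℝ) + 4) * n ≤ v * n := by gcongr; linarith
        _ = a * v ^ 129 := by rw [hn]; ring
        _ ≤ a * a := by gcongr
        _ = a ^ 2 := by ring
    have h3 : (4 * a) ^ 2 ≤ (β : ℝ) ^ 2 := by gcongr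
    have h4 : (1 : ℝ) ≤ n := by rw [hn]; exact hp 128
    have h5 : ((2 * (4 * h * n + D) : ℕ) : ℝ) ≤ ((β ^ 2 : ℕ) : ℝ) := by
      push_cast
      nlinarith
    exact_mod_cast h5
  · have : (1 : ℝ) ≤ β := by linarith
    exact_mod_cast this
  · have h1 : 24 * a ≤ n := by
      rw [hn]
      have : (24 : ℝ) ≤ v ^ 128 := by
        calc (24 : ℝ) ≤ v := by linarith
          _ = v ^ 1 := (pow_one v).symm
          _ ≤ v ^ 128 := pw hv1 (by norm_num)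
      nlinarith
    have : ((β + 1 : ℕ) : ℝ) < n := by push_cast; linarith
    exact_mod_cast this
  · have : (1 : ℝ) ≤ t := (hp 112).trans ct1
    exact_mod_cast this
  · have h1 : (2 : ℝ) ≤ a * v ^ 120 := by
      have : v ≤ v ^ 120 := by
        calc v = v ^ 1 := (pow_one v).symm
          _ ≤ v ^ 120 := pw hv1 (by norm_num)
      nlinarith
    have : (2 : ℝ) ≤ κ := h1.trans cκ1
    exact_mod_cast this
  · have h1 : 5 * a ≤ a * v ^ 120 := by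
      have : v ≤ v ^ 120 := by
        calc v = v ^ 1 := (pow_one v).symm
          _ ≤ v ^ 120 := pw hv1 (by norm_num)
      nlinarith
    have : (β : ℝ) ≤ κ := by linarith
    exact_mod_cast this
  · have h1 : 8 * (a * v ^ 120) ≤ n := by
      rw [← h120]
      have := hp 120
      nlinarith
    have : ((4 * κ : ℕ) : ℝ) ≤ n := by push_cast; linarith
    exact_mod_cast this
  · have : (1 : ℝ) ≤ κ' := (hp 124).trans cκ'1
    exact_mod_cast this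
  · have h1 : 7 * (a * v ^ 124) ≤ n := by
      have e : a * v ^ 124 * v ^ 4 = n := by rw [hn]; ring
      rw [← e]
      have := hp 124
      nlinarith
    have h2 : a ≤ a * v ^ 124 := by
      have : (1 : ℝ) ≤ v ^ 124 := one_le_pow₀ hv1
      nlinarith
    have : ((κ' + β : ℕ) : ℝ) ≤ n := by push_cast; linarith
    exact_mod_cast this
  · have : (4 : ℝ) ≤ Λ := by linarith
    exact_mod_cast this
  · have h1 : v ^ (r + 1) ≤ (Λ : ℝ) ^ (r + 1) := by gcongr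
    have : ((n : ℕ) : ℝ) < ((Λ ^ (r + 1) : ℕ) : ℝ) := by push_cast; linarith
    exact_mod_cast this
  · positivity
  · rw [div_le_one (by positivity)]
    exact one_le_pow₀ hv1
  · positivity
  · have := main_le (m := (m : ℝ)) (r := (r : ℝ)) ha hv5 (Nat.cast_nonneg β) cβ2 ct1 ct2 cκ1 cκ2
      cκ'1 cκ'2 (Nat.cast_nonneg Λ) cΛ2 hm hu0 (Nat.cast_nonneg r) hu3 huv hc0
    rw [← hn] at this
    exact this
  · -- `β + κ' ≤ c₁ / 2`
    have h1 : 14 * u ^ 2 ≤ v ^ 4 := by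
      calc 14 * u ^ 2 ≤ v * v := by gcongr; linarith
        _ = v ^ 2 := by ring
        _ ≤ v ^ 4 := pw hv1 (by norm_num)
    have h2 : a ≤ a * v ^ 124 := by
      have : (1 : ℝ) ≤ v ^ 124 := one_le_pow₀ hv1
      nlinarith
    have h3 : (β : ℝ) + κ' ≤ 7 * (a * v ^ 124) := by linarith
    refine h3.trans ?_
    rw [div_div, le_div_iff₀ (by positivity)]
    calc 7 * (a * v ^ 124) * (u ^ 2 * 2) = a * v ^ 124 * (14 * u ^ 2) := by ring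
      _ ≤ a * v ^ 124 * v ^ 4 := by gcongr
      _ = n := by rw [hn]; ring
  · -- `16 Λ β ≤ c₁ η ^ 2`
    have h1 : 16 * (Λ : ℝ) * β ≤ 160 * (a * v) := by
      calc 16 * (Λ : ℝ) * β ≤ 16 * (2 * v) * (5 * a) := by gcongr
        _ = 160 * (a * v) := by ring
    refine h1.trans ?_
    have h2 : (n : ℝ) / u ^ 2 * (1 / v ^ 16) ^ 2 = n / (u ^ 2 * v ^ 32) := by
      field_simp
    rw [h2, le_div_iff₀ (by positivity)]
    calc 160 * (a * v) * (u ^ 2 * v ^ 32) = a * (160 * u ^ 2 * v ^ 33) := by ring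
      _ ≤ a * (v * v * v ^ 33) := by gcongr; linarith
      _ = a * v ^ 35 := by ring
      _ ≤ a * v ^ 128 := by
          have := pw hv1 (show 35 ≤ 128 by norm_num)
          gcongr
      _ = n := hn.symm
  · have := hlast (κ := (κ : ℝ)) (t := (t : ℝ)) hu1 (by rw [← hn]; exact hx) ha hv5 hu0 hvu
      (by rw [← hn]; exact hxv) (Nat.cast_nonneg β) cβ2 ct1 ct2 cκ1 cκ2 cκ'1 cκ'2 cΛ1 hc0 hη
    rw [← hn] at this
    exact this

/-- NUM -/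
theorem num (c : ℝ) (hc : 0 < c) (hc1 : c ≤ 1 / 2) : ∃ c' : ℝ, 0 < c' ∧ ∃ N : ℕ, ∀ n : ℕ, N ≤ n →
    ∀ m : ℕ, (m : ℝ) ≤ (n : ℝ) ^ c' → ∃ (D W0 β h κ κ' t Λ r : ℕ) (η c₁ : ℝ),
    (n : ℝ) ^ (2 - c) + n ≤ D ∧ 2 * (W0 + D) ≤ β ^ 2 ∧ 1 ≤ β ∧ 1 ≤ h ∧
    4 * h * n ≤ W0 ∧ β + 1 < n ∧ 1 ≤ t ∧ 2 ≤ κ ∧ β ≤ κ ∧ 4 * κ ≤ n ∧ 1 ≤ κ' ∧ κ' + β ≤ n ∧
    4 ≤ Λ ∧ n < Λ ^ (r + 1) ∧ 0 < η ∧ η ≤ 1 ∧ 0 < c₁ ∧
    (m : ℝ) * ((Λ : ℝ) ^ 2 + 2 * Λ * Real.sqrt (n *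
      (errS n β κ κ' t 2 + 2 * β + κ')) + 2 * c₁ * r + β) + β + 1 < n ∧
    (β : ℝ) + κ' ≤ c₁ / 2 ∧ 16 * (Λ : ℝ) * β ≤ c₁ * η ^ 2 ∧
    4 * h * errS n β κ κ' t (4 * h) * (n : ℝ) ^ (4 * h - 1) / c₁ ^ (4 * h) +
      (4 * h * n + 1) * (2 ^ (4 * h) * (((n : ℝ) / Λ + β + κ') / c₁) ^ (2 * h) +
        2 * 2 ^ (4 * h) * (4 * h) ^ (4 * h) * (η * n / c₁) ^ h) < 1 := by
  set e : ℝ := c / 256 with he
  have he0 : 0 < e := by positivity
  set h : ℕ := ⌈4 / e⌉₊ with hh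
  have hh1 : 4 / e ≤ (h : ℝ) := Nat.le_ceil _
  have hhe : 4 ≤ e * h := by
    rw [div_le_iff₀ he0] at hh1
    linarith
  have hhp : (0 : ℝ) < h := lt_of_lt_of_le (by positivity) hh1
  have hh0 : 1 ≤ h := by
    have : 0 < h := by exact_mod_cast hhp
    omega
  set r : ℕ := ⌈1 / e⌉₊ with hr
  have hr1 : 1 / e ≤ (r : ℝ) := Nat.le_ceil _
  have hre : 1 ≤ e * r := by
    rw [div_le_iff₀ he0] at hr1
    linarith
  set c' : ℝ := e / (200 * h) with hc'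
  have hc'0 : 0 < c' := by positivity
  obtain ⟨U0, X0, hcore⟩ := core h r hh0
  refine ⟨c', hc'0, ?_⟩
  have hev : ∀ᶠ n : ℕ in Filter.atTop, U0 ≤ (n : ℝ) ^ c' ∧ X0 ≤ (n : ℝ) ∧ 2 ≤ n := by
    have h1 : Filter.Tendsto (fun n : ℕ => (n : ℝ) ^ c') Filter.atTop Filter.atTop :=
      (tendsto_rpow_atTop hc'0).comp tendsto_natCast_atTop_atTop
    have h2 : Filter.Tendsto (fun n : ℕ => (n : ℝ)) Filter.atTop Filter.atTop :=
      tendsto_natCast_atTop_atTop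
    filter_upwards [h1.eventually_ge_atTop U0, h2.eventually_ge_atTop X0,
      Filter.eventually_ge_atTop 2] with n a1 a2 a3
    exact ⟨a1, a2, a3⟩
  obtain ⟨N, hN⟩ := Filter.eventually_atTop.mp hev
  refine ⟨N, ?_⟩
  intro n hn m hm
  obtain ⟨n1, n2, n3⟩ := hN n hn
  have hx2 : (2 : ℝ) ≤ n := by exact_mod_cast n3
  have hx0 : (0 : ℝ) < n := by linarith
  have hx1 : (1 : ℝ) ≤ n := by linarith
  set x : ℝ := (n : ℝ) with hxdef
  have hv : (x ^ c') ^ (200 * h) = x ^ e := by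
    rw [← Real.rpow_natCast, ← Real.rpow_mul hx0.le]
    congr 1
    rw [hc']
    push_cast
    field_simp
  have hvk : ∀ k : ℕ, (x ^ e) ^ k = x ^ (e * k) := fun k => by
    rw [← Real.rpow_natCast, ← Real.rpow_mul hx0.le]
  have hv0 : 0 < x ^ e := Real.rpow_pos_of_pos hx0 _
  have hnx : x = x / (x ^ e) ^ 128 * (x ^ e) ^ 128 := by
    rw [div_mul_cancel₀ _ (by positivity)]
  have hva : (x ^ e) ^ 384 ≤ x / (x ^ e) ^ 128 := by
    rw [le_div_iff₀ (by positivity), ← pow_add, hvk]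
    calc x ^ (e * ((384 + 128 : ℕ) : ℝ)) ≤ x ^ (1 : ℝ) := by
          apply Real.rpow_le_rpow_of_exponent_le hx1
          rw [he]
          push_cast
          linarith
      _ = x := Real.rpow_one x
  have hxv : x ^ 4 ≤ (x ^ e) ^ h := by
    rw [hvk, ← Real.rpow_natCast]
    apply Real.rpow_le_rpow_of_exponent_le hx1
    push_cast
    exact hhe
  have hnv : x < (x ^ e) ^ (r + 1) := by
    rw [hvk]
    calc x = x ^ (1 : ℝ) := (Real.rpow_one x).symm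
      _ < x ^ (e * ((r + 1 : ℕ) : ℝ)) := by
          apply Real.rpow_lt_rpow_of_exponent_lt (by linarith)
          push_cast
          linarith
  obtain ⟨D, W0, β, κ, κ', t, Λ, η, c₁, g1, g2, g3, g4, g5, g6, g7, g8, g9, g10, g11, g12, g13,
    g14, g15, g16, g17, g18, g19, g20⟩ :=
    hcore n m (x / (x ^ e) ^ 128) (x ^ e) (x ^ c') n1 n2 hnx hva hv.symm hxv hm hnv
  refine ⟨D, W0, β, h, κ, κ', t, Λ, r, η, c₁, ?_, g2, g3, hh0, g4, g5, g6, g7, g8, g9, g10, g11,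
    g12, g13, g14, g15, g16, g17, g18, g19, g20⟩
  have h1 : x ^ (2 - c) = (x / (x ^ e) ^ 128) ^ 2 := by
    rw [div_pow, ← pow_mul, hvk, Real.rpow_sub hx0]
    congr 1
    · exact_mod_cast Real.rpow_natCast x 2
    · congr 1
      rw [he]
      push_cast
      ring
  rw [h1]
  exact g1

end MortUB
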