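import Pool.Agent.Lib.MP_e1e800_lc_UB.Core
import Pool.Agent.Lib.MP_e1e800_lc_UB.Num
import Pool.Agent.Lib.MP_e1e800_lc_UB.NearA
import Pool.Agent.Lib.MP_e1e800_lc_UB.NearB

/-!
# MP_e1e800_lc, project UB: the theorem
-/

namespace MortUB

open Finset MPe1e800

theorem main_half (c : ℝ) (hc : 0 < c) (hc1 : c ≤ 1 / 2) : ∃ c' : ℝ, 0 < c' ∧ ∃ N : ℕ,
    ∀ n : ℕ, N ≤ n → ∀ m : ℕ, (m : ℝ) ≤ (n : ℝ) ^ c' →
    ∀ δ : Fin n → Fin m → Option (Fin n), (∃ w : List (Fin m), Mortal δ w) →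
    (threshold δ : ℝ) ≤ (n : ℝ) ^ 2 / 2 - (n : ℝ) ^ (2 - c) := by
  obtain ⟨c', hc', N, hN⟩ := num c hc hc1
  refine ⟨c', hc', N, ?_⟩
  intro n hn m hm δ hδ
  obtain ⟨D, W0, β, h, κ, κ', t, Λ, r, η, c₁, hD, hDβ, hβ, hh, hW, hβn, ht, hκ, hκβ, hκn, hκ',
    hκ'n, hΛ, hr, hη, hη1, hc₁, h1, h2, h3, h4⟩ := hN n hn m hm
  by_contra hcon
  rw [not_le] at hcon
  have : Nonempty (Fin n) := ⟨⟨0, by omega⟩⟩
  have hthr : n * (n + 1) ≤ 2 * threshold δ + 2 * D := by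
    have : (n : ℝ) * (n + 1) ≤ 2 * (threshold δ : ℝ) + 2 * D := by
      have hn0 : (0 : ℝ) ≤ n := Nat.cast_nonneg _
      nlinarith
    exact_mod_cast this
  have hcQ : Fintype.card (Fin n) = n := Fintype.card_fin n
  have hcA : Fintype.card (Fin m) = m := Fintype.card_fin m
  have hthr' : Fintype.card (Fin n) * (Fintype.card (Fin n) + 1) ≤ 2 * threshold δ + 2 * D := by
    rw [hcQ]; exact hthr
  have hNear : Near (sysOf δ hδ) β W0 :=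
    ⟨hβ, fun w hw => sysOf_rk δ hδ D W0 β hthr' hDβ w hw, sysOf_top δ hδ D W0 β hthr' hDβ,
      fun m' h1' h2' => sysOf_good δ hδ D W0 β hthr' hDβ hβ m' h1' h2'⟩
  refine core hNear h κ κ' t Λ r η c₁ hh ?_ ?_ ht hκ hκβ ?_ hκ' ?_ hΛ ?_ hη hη1 hc₁ ?_ h2 h3 ?_
  all_goals ((try rw [hcQ]); (try rw [hcA]); assumption)

/-- **Theorem.** For every `c > 0` there is `c' > 0` such that for all large `n` and all
`m ≤ n ^ c'`, every partial automaton with `n` states and `m` letters which has a mortal word has a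
mortal word of length at most `n² / 2 - n ^ (2 - c)`. -/
theorem main (c : ℝ) (hc : 0 < c) : ∃ c' : ℝ, 0 < c' ∧ ∃ N : ℕ,
    ∀ n : ℕ, N ≤ n → ∀ m : ℕ, (m : ℝ) ≤ (n : ℝ) ^ c' →
    ∀ δ : Fin n → Fin m → Option (Fin n), (∃ w : List (Fin m), Mortal δ w) →
    (threshold δ : ℝ) ≤ (n : ℝ) ^ 2 / 2 - (n : ℝ) ^ (2 - c) := by
  obtain ⟨c', hc', N, hN⟩ := main_half (min c (1 / 2)) (lt_min hc (by norm_num)) (min_le_right _ _)
  refine ⟨c', hc', max N 1, ?_⟩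
  intro n hn m hm δ hδ
  have h := hN n ((le_max_left _ _).trans hn) m hm δ hδ
  have hn1 : (1 : ℝ) ≤ n := by exact_mod_cast (le_max_right N 1).trans hn
  have : (n : ℝ) ^ (2 - c) ≤ (n : ℝ) ^ (2 - min c (1 / 2)) :=
    Real.rpow_le_rpow_of_exponent_le hn1 (by linarith [min_le_left c (1 / 2)])
  linarith

/-- The uniform version with `mtd`. -/
theorem main_mtd (c : ℝ) (hc : 0 < c) : ∃ c' : ℝ, 0 < c' ∧ ∃ N : ℕ,
    ∀ n : ℕ, N ≤ n → ∀ m : ℕ, (m : ℝ) ≤ (n : ℝ) ^ c' →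
    (∀ δ : Fin n → Fin m → Option (Fin n), (∃ w : List (Fin m), Mortal δ w) →
      (threshold δ : ℝ) ≤ (n : ℝ) ^ 2 / 2 - (n : ℝ) ^ (2 - c)) ∧
    (mtd n m : ℝ) ≤ (n : ℝ) ^ 2 / 2 - (n : ℝ) ^ (2 - c) := by
  obtain ⟨c', hc', N, hN⟩ := main c hc
  have hlim2 : ∀ᶠ n : ℕ in Filter.atTop, (2 : ℝ) ≤ (n : ℝ) ^ c :=
    ((tendsto_rpow_atTop hc).comp tendsto_natCast_atTop_atTop).eventually_ge_atTop _
  obtain ⟨N', hN'⟩ := Filter.eventually_atTop.1 hlim2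
  refine ⟨c', hc', max (max N N') 1, fun n hn m hm => ?_⟩
  have hn1 : N ≤ n := (le_max_left _ _).trans ((le_max_left _ _).trans hn)
  have hn2 : N' ≤ n := (le_max_right _ _).trans ((le_max_left _ _).trans hn)
  have hn3 : 1 ≤ n := (le_max_right _ _).trans hn
  have hn3' : (1 : ℝ) ≤ n := by exact_mod_cast hn3
  have h2c := hN' n hn2
  have hpos : (0 : ℝ) ≤ (n : ℝ) ^ 2 / 2 - (n : ℝ) ^ (2 - c) := by
    have e : (n : ℝ) ^ (2 - c) * (n : ℝ) ^ c = (n : ℝ) ^ 2 := by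
      rw [← Real.rpow_add (by linarith), sub_add_cancel]
      norm_num
    have h0 : (0 : ℝ) ≤ (n : ℝ) ^ (2 - c) := by positivity
    nlinarith
  refine ⟨hN n hn1 m hm, ?_⟩
  have hbd : ∀ k ∈ {k : ℕ | ∃ δ : Fin n → Fin m → Option (Fin n),
      (∃ w : List (Fin m), Mortal δ w) ∧ threshold δ = k},
      k ≤ ⌊(n : ℝ) ^ 2 / 2 - (n : ℝ) ^ (2 - c)⌋₊ := by
    rintro k ⟨δ, hδ, rfl⟩
    exact Nat.le_floor (hN n hn1 m hm δ hδ)
  have : mtd n m ≤ ⌊(n : ℝ) ^ 2 / 2 - (n : ℝ) ^ (2 - c)⌋₊ := by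
    unfold mtd
    rcases Set.eq_empty_or_nonempty {k : ℕ | ∃ δ : Fin n → Fin m → Option (Fin n),
      (∃ w : List (Fin m), Mortal δ w) ∧ threshold δ = k} with h | h
    · rw [h]; simp
    · exact csSup_le h hbd
  calc (mtd n m : ℝ) ≤ (⌊(n : ℝ) ^ 2 / 2 - (n : ℝ) ^ (2 - c)⌋₊ : ℝ) := by exact_mod_cast this
    _ ≤ _ := Nat.floor_le hpos

end MortUB
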