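import Pool.Agent.Lib.MP_e1e800_lc_UB.Basic

/-!
# MP_e1e800_lc, project UB: consequences of the rank condition
-/

namespace MortUB

open Finset

variable {Q A : Type} [DecidableEq Q] [Fintype Q] {M : Sys Q A} {β W0 : ℕ}

theorem Near.image_card (h : Near M β W0) (w : List A) (hw : w.length ≤ W0) (S : Finset Q) :
    S.card ≤ (S.image (M.mv w)).card + β := by
  have h1 := h.rk w hw
  have h2 : (univ : Finset Q).image (M.mv w) ⊆ S.image (M.mv w) ∪ Sᶜ.image (M.mv w) := by
    rw [← image_union, union_compl]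
  have h3 := (card_le_card h2).trans (card_union_le _ _)
  have h4 : (Sᶜ.image (M.mv w)).card ≤ Sᶜ.card := card_image_le
  rw [card_compl] at h4
  have h5 := card_le_univ S
  omega

theorem Near.fiber (h : Near M β W0) (w : List A) (hw : w.length ≤ W0) (T : Finset Q) :
    (univ.filter fun q => M.mv w q ∈ T).card ≤ T.card + β := by
  have h1 := h.image_card w hw (univ.filter fun q => M.mv w q ∈ T)
  have h2 : (univ.filter fun q => M.mv w q ∈ T).image (M.mv w) ⊆ T := by
    intro p hp
    rw [mem_image] at hp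
    obtain ⟨q, hq, rfl⟩ := hp
    exact (mem_filter.1 hq).2
  have := card_le_card h2
  omega

theorem Near.transv (h : Near M β W0) (w : List A) (hw : w.length ≤ W0) (S : Finset Q) :
    ∃ B : Finset Q, B ⊆ S ∧ S.card ≤ B.card + β ∧ Set.InjOn (M.mv w) (B : Set Q) := by
  obtain ⟨B, hB, hbij⟩ := Set.exists_subset_bijOn (S : Set Q) (M.mv w)
  have hfin : B.Finite := S.finite_toSet.subset hB
  refine ⟨hfin.toFinset, ?_, ?_, ?_⟩
  · intro q hq
    rw [Set.Finite.mem_toFinset] at hq
    exact_mod_cast hB hq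
  · have h1 := h.image_card w hw S
    have h2 : S.image (M.mv w) = hfin.toFinset.image (M.mv w) := by
      apply coe_injective
      rw [coe_image, coe_image, Set.Finite.coe_toFinset, hbij.image_eq]
    rw [h2] at h1
    exact h1.trans (Nat.add_le_add_right card_image_le _)
  · rw [Set.Finite.coe_toFinset]
    exact hbij.injOn

theorem Near.sum_le (h : Near M β W0) (w : List A) (hw : w.length ≤ W0) (f : Q → ℝ) (C : ℝ)
    (h0 : ∀ q, 0 ≤ f q) (hC : ∀ q, f q ≤ C) :
    ∑ q, f (M.mv w q) ≤ ∑ q, f q + β * C := by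
  obtain ⟨B, hB, hc, hinj⟩ := h.transv w hw univ
  have hC0 : 0 ≤ C := by
    obtain ⟨q, _⟩ := h.top
    exact (h0 q).trans (hC q)
  rw [← sum_add_sum_compl B]
  have h1 : ∑ q ∈ B, f (M.mv w q) ≤ ∑ q, f q := by
    rw [← sum_image (f := f) hinj]
    exact sum_le_sum_of_subset_of_nonneg (subset_univ _) fun q _ _ => h0 q
  have h2 : ∑ q ∈ Bᶜ, f (M.mv w q) ≤ β * C := by
    calc ∑ q ∈ Bᶜ, f (M.mv w q) ≤ ∑ q ∈ Bᶜ, C := sum_le_sum fun q _ => hC _
      _ = (Bᶜ.card : ℝ) * C := by rw [sum_const, nsmul_eq_mul]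
      _ ≤ β * C := by
        apply mul_le_mul_of_nonneg_right _ hC0
        have : Bᶜ.card ≤ β := by
          rw [card_compl]
          rw [card_univ] at hc
          omega
        exact_mod_cast this
  linarith

theorem pow_sub_aux (n b : ℝ) (hb : 0 ≤ b) (hbn : b ≤ n) (k : ℕ) :
    n ^ k ≤ b ^ k + k * (n - b) * n ^ (k - 1) := by
  induction k with
  | zero => simp
  | succ k ih =>
    have h1 : b ^ k ≤ n ^ k := pow_le_pow_left₀ hb hbn k
    have hn : 0 ≤ n := hb.trans hbn
    rw [Nat.add_sub_cancel]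
    have h2 : n * n ^ k ≤ n * (b ^ k + k * (n - b) * n ^ (k - 1)) :=
      mul_le_mul_of_nonneg_left ih hn
    have h3 : n * (k * (n - b) * n ^ (k - 1)) ≤ k * (n - b) * n ^ k := by
      rcases k with _ | k
      · simp
      · rw [Nat.add_sub_cancel]
        rw [pow_succ]
        nlinarith
    have h4 : (n - b) * b ^ k ≤ (n - b) * n ^ k := mul_le_mul_of_nonneg_left h1 (by linarith)
    push_cast
    rw [pow_succ, pow_succ]
    nlinarith

/-- The number of tuples with a coordinate outside of `B`. -/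
theorem tup_compl (B : Finset Q) (β : ℕ) (hB : Fintype.card Q ≤ B.card + β) (k : ℕ) :
    (Fintype.card Q : ℝ) ^ k ≤ (B.card : ℝ) ^ k + k * β * (Fintype.card Q : ℝ) ^ (k - 1) := by
  have h1 : (B.card : ℝ) ≤ Fintype.card Q := by exact_mod_cast card_le_univ B
  have h2 := pow_sub_aux (Fintype.card Q : ℝ) (B.card : ℝ) (Nat.cast_nonneg _) h1 k
  have h3 : (Fintype.card Q : ℝ) - B.card ≤ β := by
    have : (Fintype.card Q : ℝ) ≤ B.card + β := by exact_mod_cast hB
    linarith
  have h4 : (k : ℝ) * ((Fintype.card Q : ℝ) - B.card) * (Fintype.card Q : ℝ) ^ (k - 1) ≤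
      k * β * (Fintype.card Q : ℝ) ^ (k - 1) :=
    mul_le_mul_of_nonneg_right (mul_le_mul_of_nonneg_left h3 (Nat.cast_nonneg _)) (by positivity)
  linarith

/-- Sums over `k`-tuples. -/
theorem Near.sum_tup_le (h : Near M β W0) (w : List A) (hw : w.length ≤ W0) (k : ℕ)
    (f : (Fin k → Q) → ℝ) (C : ℝ) (h0 : ∀ R, 0 ≤ f R) (hC : ∀ R, f R ≤ C) :
    ∑ R : Fin k → Q, f (fun i => M.mv w (R i)) ≤
      ∑ R : Fin k → Q, f R + k * β * (Fintype.card Q : ℝ) ^ (k - 1) * C := by
  classical
  obtain ⟨B, hB, hc, hinj⟩ := h.transv w hw univ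
  have hC0 : 0 ≤ C := by
    obtain ⟨q, _⟩ := h.top
    exact (h0 (fun _ => q)).trans (hC _)
  rw [← sum_add_sum_compl (Fintype.piFinset fun _ : Fin k => B)]
  have h1 : ∑ R ∈ Fintype.piFinset (fun _ : Fin k => B), f (fun i => M.mv w (R i)) ≤
      ∑ R, f R := by
    have hi : Set.InjOn (fun (R : Fin k → Q) (i : Fin k) => M.mv w (R i))
        (Fintype.piFinset (fun _ : Fin k => B) : Set (Fin k → Q)) := by
      intro R hR R' hR' he
      rw [mem_coe, Fintype.mem_piFinset] at hR hR'
      funext i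
      exact hinj (hR i) (hR' i) (congrFun he i)
    rw [← sum_image (f := f) hi]
    exact sum_le_sum_of_subset_of_nonneg (subset_univ _) fun q _ _ => h0 q
  have h2 : ∑ R ∈ (Fintype.piFinset (fun _ : Fin k => B))ᶜ, f (fun i => M.mv w (R i)) ≤
      k * β * (Fintype.card Q : ℝ) ^ (k - 1) * C := by
    calc ∑ R ∈ (Fintype.piFinset (fun _ : Fin k => B))ᶜ, f (fun i => M.mv w (R i))
        ≤ ∑ R ∈ (Fintype.piFinset (fun _ : Fin k => B))ᶜ, C := sum_le_sum fun R _ => hC _
      _ = (((Fintype.piFinset (fun _ : Fin k => B))ᶜ).card : ℝ) * C := by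
          rw [sum_const, nsmul_eq_mul]
      _ ≤ k * β * (Fintype.card Q : ℝ) ^ (k - 1) * C := by
        apply mul_le_mul_of_nonneg_right _ hC0
        rw [card_univ] at hc
        have h3 := tup_compl B β hc k
        have h4 : ((((Fintype.piFinset (fun _ : Fin k => B))ᶜ).card : ℕ) : ℝ) =
            (Fintype.card Q : ℝ) ^ k - (B.card : ℝ) ^ k := by
          have h5 := card_add_card_compl (Fintype.piFinset (fun _ : Fin k => B))
          rw [Fintype.card_piFinset_const, Fintype.card_fun, Fintype.card_fin] at h5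
          have h6 : ((B.card : ℝ)) ^ k + ((((Fintype.piFinset (fun _ : Fin k => B))ᶜ).card : ℕ) : ℝ)
            = (Fintype.card Q : ℝ) ^ k := by exact_mod_cast h5
          linarith
        rw [h4]
        linarith
  linarith

end MortUB
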