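import Pool.Agent.Lib.MP_e1e800_lc_UB.Row
import Pool.Agent.Lib.MP_e1e800_lc_UB.PathL

/-!
# MP_e1e800_lc, project UB: pairs, lower bound
-/

namespace MortUB

open Finset

variable {Q A : Type} [DecidableEq Q] [Fintype Q] {M : Sys Q A} {β W0 : ℕ}

private theorem pairLow_sum (N : ℕ) (b : ℝ) :
    ∑ i ∈ range N, ((N : ℝ) - 1 - i - b) = (N : ℝ) * (N - 1) / 2 - b * N := by
  have h : ∀ k : ℕ, ∑ i ∈ range k, ((N : ℝ) - 1 - i - b) =
      (k : ℝ) * (N - 1 - b) - (k : ℝ) * (k - 1) / 2 := by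
    intro k
    induction k with
    | zero => simp
    | succ k ih =>
      rw [sum_range_succ, ih]
      push_cast
      ring
  rw [h N]
  ring

private theorem pairLow_sum2 (n : ℕ) :
    ∑ s ∈ Icc 1 n, (2 * (s : ℝ) * (n - s) + (n - s) ^ 2 / 2) =
      (n : ℝ) ^ 3 / 2 - (n : ℝ) ^ 2 / 4 - n / 4 := by
  have h : ∀ k : ℕ, ∑ s ∈ Icc 1 k, (2 * (s : ℝ) * (n - s) + (n - s) ^ 2 / 2) =
      (k : ℝ) * n ^ 2 / 2 + n * (k * (k + 1) / 2) - 3 / 2 * (k * (k + 1) * (2 * k + 1) / 6) := by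
    intro k
    induction k with
    | zero => simp
    | succ k ih =>
      rw [sum_Icc_succ_top (by omega), ih]
      push_cast
      ring
  rw [h n]
  ring

/-- one row -/
private theorem pairLow_row (h : Near M β W0) (hW : Fintype.card Q ≤ W0) (P : Path M)
    (ht : Fintype.card Q ≤ M.V {P.ρ P.L} + β) (s : ℕ) (h1 : β ≤ s) (h2 : s + 2 * β + 1 ≤ P.L) :
    2 * (s : ℝ) * ((Fintype.card Q : ℝ) - s) + ((Fintype.card Q : ℝ) - s) ^ 2 / 2 -
      38 * β * (Fintype.card Q : ℝ) ≤ ∑ x ∈ Ioc s P.L, (P.F s x : ℝ) := by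
  set n := Fintype.card Q with hn
  have hLn : P.L ≤ n := P.L_le
  have hsn : s ≤ n := by omega
  have hβ : 1 ≤ β := h.one
  -- the counting function
  set c : ℕ → ℕ := fun v => ((Ioc s P.L).filter fun x => v ≤ P.F s x + 5 * β).card with hc
  have hrow : ∀ m, s ≤ m → m ≤ n → n ≤ m + 19 * β + c (m + s) := fun m hm hm2 =>
    pair_row h hW P ht s h1 h2 m hm hm2
  have hanti : ∀ v v', v ≤ v' → c v' ≤ c v := by
    intro v v' hv
    apply card_le_card
    intro x hx
    rw [mem_filter] at hx ⊢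
    exact ⟨hx.1, hv.trans hx.2⟩
  -- double counting
  have hdc : ∑ v ∈ range (n + s), c (v + 1) ≤ ∑ x ∈ Ioc s P.L, (P.F s x + 5 * β) := by
    have h3 := sum_card_bipartiteAbove_eq_sum_card_bipartiteBelow (s := range (n + s))
      (t := Ioc s P.L) (fun v x => v + 1 ≤ P.F s x + 5 * β)
    have h4 : ∑ v ∈ range (n + s), c (v + 1) = ∑ x ∈ Ioc s P.L,
        ((range (n + s)).bipartiteBelow (fun v x => v + 1 ≤ P.F s x + 5 * β) x).card := h3
    rw [h4]
    apply sum_le_sum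
    intro x _
    have h5 : (range (n + s)).bipartiteBelow (fun v x => v + 1 ≤ P.F s x + 5 * β) x ⊆
        range (P.F s x + 5 * β) := by
      intro v hv
      rw [bipartiteBelow, mem_filter] at hv
      rw [mem_range]
      omega
    exact (card_le_card h5).trans (card_range _).le
  have hsplit : n + s = 2 * s + (n - s) := by omega
  rw [hsplit, sum_range_add] at hdc
  have hA : (2 * (s : ℝ)) * ((n : ℝ) - s - 19 * β) ≤
      ((∑ v ∈ range (2 * s), c (v + 1) : ℕ) : ℝ) := by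
    have h3 : (2 * s) * c (2 * s) ≤ ∑ v ∈ range (2 * s), c (v + 1) := by
      have h4 := card_nsmul_le_sum (range (2 * s)) (fun v => c (v + 1)) (c (2 * s)) (by
        intro v hv
        rw [mem_range] at hv
        exact hanti _ _ (by omega))
      rwa [card_range, smul_eq_mul] at h4
    have h5 := hrow s le_rfl hsn
    rw [← two_mul] at h5
    have h6 : (n : ℝ) - s - 19 * β ≤ c (2 * s) := by
      have : (n : ℝ) ≤ s + 19 * β + c (2 * s) := by exact_mod_cast h5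
      linarith
    calc (2 * (s : ℝ)) * ((n : ℝ) - s - 19 * β) ≤ (2 * (s : ℝ)) * c (2 * s) :=
          mul_le_mul_of_nonneg_left h6 (by positivity)
      _ = (((2 * s) * c (2 * s) : ℕ) : ℝ) := by push_cast; ring
      _ ≤ _ := by exact_mod_cast h3
  have hB : (((n - s : ℕ) : ℝ)) * (((n - s : ℕ) : ℝ) - 1) / 2 - 19 * β * ((n - s : ℕ) : ℝ) ≤
      ((∑ v ∈ range (n - s), c (2 * s + v + 1) : ℕ) : ℝ) := by
    rw [← pairLow_sum, Nat.cast_sum]
    apply sum_le_sum
    intro i hi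
    rw [mem_range] at hi
    have h5 := hrow (s + i + 1) (by omega) (by omega)
    have e : s + i + 1 + s = 2 * s + i + 1 := by omega
    rw [e] at h5
    have h6 : (n : ℝ) ≤ s + i + 1 + 19 * β + c (2 * s + i + 1) := by exact_mod_cast h5
    rw [Nat.cast_sub hsn]
    linarith
  have hdc' : ((∑ v ∈ range (2 * s), c (v + 1) : ℕ) : ℝ) +
      ((∑ v ∈ range (n - s), c (2 * s + v + 1) : ℕ) : ℝ) ≤
      ∑ x ∈ Ioc s P.L, (P.F s x : ℝ) + ((P.L : ℝ) - s) * (5 * β) := by
    have h3 : (((∑ v ∈ range (2 * s), c (v + 1)) + ∑ v ∈ range (n - s), c (2 * s + v + 1) : ℕ) : ℝ)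
        ≤ ((∑ x ∈ Ioc s P.L, (P.F s x + 5 * β) : ℕ) : ℝ) := by exact_mod_cast hdc
    rw [Nat.cast_add] at h3
    refine h3.trans (le_of_eq ?_)
    rw [sum_add_distrib, sum_const, Nat.card_Ioc, smul_eq_mul]
    push_cast [Nat.cast_sub (by omega : s ≤ P.L)]
    ring
  rw [Nat.cast_sub hsn] at hB
  have hLn' : (P.L : ℝ) ≤ n := by exact_mod_cast hLn
  have hs0 : (0 : ℝ) ≤ s := by positivity
  have hsn' : (s : ℝ) ≤ n := by exact_mod_cast hsn
  have hβ' : (1 : ℝ) ≤ β := by exact_mod_cast hβ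
  have h7 : ((P.L : ℝ) - s) * (5 * β) ≤ ((n : ℝ) - s) * (5 * β) :=
    mul_le_mul_of_nonneg_right (by linarith) (by positivity)
  have h8 : ((n : ℝ) - s) * 1 ≤ ((n : ℝ) - s) * β :=
    mul_le_mul_of_nonneg_left hβ' (by linarith)
  have h9 : 0 ≤ ((n : ℝ) - s) * β := mul_nonneg (by linarith) (by positivity)
  nlinarith [hA, hB, hdc', h7, h8, h9]

/-- PAIRLOW -/
theorem pair_low (h : Near M β W0) (hW : Fintype.card Q ≤ W0) (P : Path M)
    (ht : Fintype.card Q ≤ M.V {P.ρ P.L} + β) :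
    (Fintype.card Q : ℝ) ^ 3 - 100 * β * (Fintype.card Q : ℝ) ^ 2 ≤
      ∑ s ∈ Icc 1 P.L, ∑ x ∈ Icc 1 P.L, (P.F s x : ℝ) := by
  classical
  set n := Fintype.card Q with hn
  have hLn : P.L ≤ n := P.L_le
  have hnL : n ≤ P.L + β := P.le_L β ht
  have hβ : 1 ≤ β := h.one
  have hβ' : (1 : ℝ) ≤ β := by exact_mod_cast hβ
  have hn0 : (0 : ℝ) ≤ n := by positivity
  set a : ℕ → ℝ := fun s => ∑ x ∈ Ioc s P.L, (P.F s x : ℝ) with ha
  -- symmetry
  have hsym : ∀ s x, P.F s x = P.F x s := fun s x => by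
    unfold Path.F
    rw [pair_comm]
  have hfold : 2 * ∑ s ∈ Icc 1 P.L, a s ≤
      ∑ s ∈ Icc 1 P.L, ∑ x ∈ Icc 1 P.L, (P.F s x : ℝ) := by
    have h1 : ∀ s ∈ Icc 1 P.L, (∑ x ∈ Icc 1 P.L with s < x, (P.F s x : ℝ)) +
        (∑ x ∈ Icc 1 P.L with x < s, (P.F s x : ℝ)) ≤ ∑ x ∈ Icc 1 P.L, (P.F s x : ℝ) := by
      intro s _
      rw [← sum_union]
      · apply sum_le_sum_of_subset_of_nonneg
        · intro x hx
          rw [mem_union, mem_filter, mem_filter] at hx
          rcases hx with hx | hx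
          · exact hx.1
          · exact hx.1
        · intro x _ _
          positivity
      · rw [disjoint_left]
        intro x hx hx'
        rw [mem_filter] at hx hx'
        omega
    have h2 : ∑ s ∈ Icc 1 P.L, ∑ x ∈ Icc 1 P.L with x < s, (P.F s x : ℝ) =
        ∑ s ∈ Icc 1 P.L, ∑ x ∈ Icc 1 P.L with s < x, (P.F s x : ℝ) := by
      simp only [sum_filter]
      rw [sum_comm]
      apply sum_congr rfl
      intro x _
      apply sum_congr rfl
      intro s _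
      rw [hsym s x]
    have h3 : ∀ s ∈ Icc 1 P.L, a s = ∑ x ∈ Icc 1 P.L with s < x, (P.F s x : ℝ) := by
      intro s hs
      rw [ha]
      apply sum_congr _ fun _ _ => rfl
      ext x
      rw [mem_Ioc, mem_filter, mem_Icc]
      omega
    have h4 := sum_le_sum h1
    rw [sum_add_distrib, h2] at h4
    rw [sum_congr rfl h3]
    linarith
  -- extend the sum to `Icc 1 n`
  have hext : ∑ s ∈ Icc 1 P.L, a s = ∑ s ∈ Icc 1 n, a s := by
    apply sum_subset (Icc_subset_Icc_right hLn)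
    intro s hs hs'
    rw [mem_Icc] at hs hs'
    rw [ha]
    show ∑ x ∈ Ioc s P.L, (P.F s x : ℝ) = 0
    rw [Ioc_eq_empty (by omega), sum_empty]
  set bad : ℕ → Prop := fun s => ¬ (β ≤ s ∧ s + 2 * β + 1 ≤ P.L) with hbad
  have hpt : ∀ s ∈ Icc 1 n, (2 * (s : ℝ) * (n - s) + (n - s) ^ 2 / 2) - 38 * β * n -
      (if bad s then (n : ℝ) ^ 2 else 0) ≤ a s := by
    intro s hs
    rw [mem_Icc] at hs
    by_cases hb : bad s
    · rw [if_pos hb]
      have h1 : 0 ≤ a s := sum_nonneg fun x _ => by positivity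
      have h2 : 0 ≤ 38 * (β : ℝ) * n := by positivity
      have h3 : (2 * (s : ℝ) * (n - s) + (n - s) ^ 2 / 2) ≤ (n : ℝ) ^ 2 := by
        nlinarith [sq_nonneg ((n : ℝ) - s), sq_nonneg (s : ℝ)]
      linarith
    · rw [if_neg hb]
      rw [hbad, not_not] at hb
      have h1 := pairLow_row h hW P ht s hb.1 hb.2
      rw [← hn] at h1
      have h2 : a s = ∑ x ∈ Ioc s P.L, (P.F s x : ℝ) := rfl
      rw [h2]
      linarith
  have hcard : (((Icc 1 n).filter bad).card : ℝ) ≤ 4 * β := by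
    have h1 : (Icc 1 n).filter bad ⊆ Ico 1 β ∪ Ioc (n - (3 * β + 1)) n := by
      intro s hs
      rw [mem_filter, mem_Icc, hbad] at hs
      rw [mem_union, mem_Ico, mem_Ioc]
      obtain ⟨hs1, hs2⟩ := hs
      by_contra hcon
      apply hs2
      omega
    have h2 := (card_le_card h1).trans (card_union_le _ _)
    rw [Nat.card_Ico, Nat.card_Ioc] at h2
    have h3 : ((Icc 1 n).filter bad).card ≤ 4 * β := by omega
    exact_mod_cast h3
  have hsum := sum_le_sum hpt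
  rw [sum_sub_distrib, sum_sub_distrib, pairLow_sum2, sum_const, Nat.card_Icc,
    ← sum_filter, sum_const, nsmul_eq_mul, nsmul_eq_mul, ← hext] at hsum
  have h5 : (((Icc 1 n).filter bad).card : ℝ) * (n : ℝ) ^ 2 ≤ 4 * β * (n : ℝ) ^ 2 :=
    mul_le_mul_of_nonneg_right hcard (by positivity)
  have h6 : ((n + 1 - 1 : ℕ) : ℝ) = n := by
    rw [Nat.add_sub_cancel]
  rw [h6] at hsum
  have h7 : (n : ℝ) ≤ (n : ℝ) ^ 2 := by
    have : n ≤ n ^ 2 := Nat.le_self_pow (by norm_num) n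
    exact_mod_cast this
  have h8 : 1 * (n : ℝ) ^ 2 ≤ β * (n : ℝ) ^ 2 :=
    mul_le_mul_of_nonneg_right hβ' (by positivity)
  refine le_trans ?_ hfold
  nlinarith [hsum, h5, h7, h8]

end MortUB
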