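import Pool.Agent.Lib.MP_e1e800_lc_UB.NearL
import Pool.Agent.Lib.MP_e1e800_lc_UB.PathL

/-!
# MP_e1e800_lc, project UB: pairs, upper bounds
-/

namespace MortUB

open Finset

variable {Q A : Type} [DecidableEq Q] [Fintype Q] {M : Sys Q A} {β W0 : ℕ}

theorem pair_base (P : Path M) (s : ℕ) (h1 : 1 ≤ s) (h2 : s ≤ P.L) (q : Q) :
    M.V {P.ρ s, q} ≤ s + M.V {M.mv (P.wd s 0) q} := by
  have := P.V_wd0 s h1 h2 {q}
  rw [image_singleton] at this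
  exact this

theorem pair_sum_path (P : Path M) (f : Q → ℝ) (hf : ∀ q, 0 ≤ f q) :
    ∑ x ∈ Icc 1 P.L, f (P.ρ x) ≤ ∑ q, f q := by
  rw [← sum_image (f := f) P.injOn]
  exact sum_le_sum_of_subset_of_nonneg (subset_univ _) fun q _ _ => hf q

/-- PAIRUP -/
theorem pair_up1 (h : Near M β W0) (hW : Fintype.card Q ≤ W0) (P : Path M) (s : ℕ) (h1 : 1 ≤ s)
    (h2 : s ≤ P.L) :
    ∑ x ∈ Icc 1 P.L, (P.F s x : ℝ) ≤ (Fintype.card Q : ℝ) * s + (Fintype.card Q : ℝ) ^ 2 / 2 +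
      2 * β * (Fintype.card Q : ℝ) := by
  have hL := P.L_le
  have hw : (P.wd s 0).length ≤ W0 := by rw [P.wd_length]; omega
  have e1 : ∑ x ∈ Icc 1 P.L, (P.F s x : ℝ) ≤ ∑ q, (M.V {P.ρ s, q} : ℝ) :=
    pair_sum_path P (fun q => (M.V {P.ρ s, q} : ℝ)) fun q => Nat.cast_nonneg _
  have e2 : ∑ q, (M.V {P.ρ s, q} : ℝ) ≤ ∑ q, ((s : ℝ) + (M.V {M.mv (P.wd s 0) q} : ℝ)) :=
    sum_le_sum fun q _ => by exact_mod_cast pair_base P s h1 h2 q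
  have e3 := h.sum_le (P.wd s 0) hw (fun q => (M.V {q} : ℝ)) (Fintype.card Q)
    (fun q => Nat.cast_nonneg _) (fun q => by exact_mod_cast M.h_le q)
  rw [sum_add_distrib, sum_const, nsmul_eq_mul, card_univ] at e2
  have e4 : 2 * ∑ q, (M.V {q} : ℝ) ≤ (Fintype.card Q : ℝ) * (Fintype.card Q + 1) := by
    exact_mod_cast M.sum_h
  have hβ : (1 : ℝ) ≤ β := by exact_mod_cast h.one
  have hn : (0 : ℝ) ≤ Fintype.card Q := Nat.cast_nonneg _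
  nlinarith

theorem pair_up2 (h : Near M β W0) (hW : Fintype.card Q ≤ W0) (P : Path M) (s : ℕ) (h1 : 1 ≤ s)
    (h2 : s ≤ P.L) :
    ∑ x ∈ Icc 1 P.L, (P.F s x : ℝ) ^ 2 ≤ (Fintype.card Q : ℝ) * s ^ 2 +
      s * (Fintype.card Q : ℝ) ^ 2 + (Fintype.card Q : ℝ) ^ 3 / 3 +
      6 * β * (Fintype.card Q : ℝ) ^ 2 := by
  have hL := P.L_le
  have hw : (P.wd s 0).length ≤ W0 := by rw [P.wd_length]; omega
  have e1 : ∑ x ∈ Icc 1 P.L, (P.F s x : ℝ) ^ 2 ≤ ∑ q, (M.V {P.ρ s, q} : ℝ) ^ 2 :=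
    pair_sum_path P (fun q => (M.V {P.ρ s, q} : ℝ) ^ 2) fun q => by positivity
  have e2 : ∑ q, (M.V {P.ρ s, q} : ℝ) ^ 2 ≤
      ∑ q, ((s : ℝ) + (M.V {M.mv (P.wd s 0) q} : ℝ)) ^ 2 := by
    apply sum_le_sum
    intro q _
    apply pow_le_pow_left₀ (Nat.cast_nonneg _)
    exact_mod_cast pair_base P s h1 h2 q
  have e3 := h.sum_le (P.wd s 0) hw (fun q => (M.V {q} : ℝ)) (Fintype.card Q)
    (fun q => Nat.cast_nonneg _) (fun q => by exact_mod_cast M.h_le q)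
  have e3' := h.sum_le (P.wd s 0) hw (fun q => (M.V {q} : ℝ) ^ 2) ((Fintype.card Q : ℝ) ^ 2)
    (fun q => by positivity)
    (fun q => pow_le_pow_left₀ (Nat.cast_nonneg _) (by exact_mod_cast M.h_le q) 2)
  have e5 : ∑ q, ((s : ℝ) + (M.V {M.mv (P.wd s 0) q} : ℝ)) ^ 2 = (Fintype.card Q : ℝ) * s ^ 2 +
      2 * s * ∑ q, (M.V {M.mv (P.wd s 0) q} : ℝ) + ∑ q, (M.V {M.mv (P.wd s 0) q} : ℝ) ^ 2 := by
    rw [mul_sum, ← nsmul_eq_mul, ← card_univ, ← sum_const, ← sum_add_distrib, ← sum_add_distrib]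
    apply sum_congr rfl
    intro q _
    ring
  have e4 : 2 * ∑ q, (M.V {q} : ℝ) ≤ (Fintype.card Q : ℝ) * (Fintype.card Q + 1) := by
    exact_mod_cast M.sum_h
  have e6 : 6 * ∑ q, (M.V {q} : ℝ) ^ 2 ≤
      (Fintype.card Q : ℝ) * (Fintype.card Q + 1) * (2 * Fintype.card Q + 1) := by
    exact_mod_cast M.sum_h2
  have hβ : (1 : ℝ) ≤ β := by exact_mod_cast h.one
  have hn1 : (1 : ℝ) ≤ Fintype.card Q := by
    have : 1 ≤ Fintype.card Q := by omega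
    exact_mod_cast this
  have hs0 : (0 : ℝ) ≤ s := Nat.cast_nonneg _
  have hsn : (s : ℝ) ≤ Fintype.card Q := by
    have : s ≤ Fintype.card Q := by omega
    exact_mod_cast this
  set n : ℝ := (Fintype.card Q : ℝ) with hnd
  have f1 : ∑ q, (M.V {M.mv (P.wd s 0) q} : ℝ) ≤ n * (n + 1) / 2 + β * n := by linarith
  have f2 : ∑ q, (M.V {M.mv (P.wd s 0) q} : ℝ) ^ 2 ≤ n * (n + 1) * (2 * n + 1) / 6 + β * n ^ 2 := by
    linarith
  have f3 : 2 * s * ∑ q, (M.V {M.mv (P.wd s 0) q} : ℝ) ≤ 2 * s * (n * (n + 1) / 2 + β * n) :=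
    mul_le_mul_of_nonneg_left f1 (by linarith)
  have g1 : (s : ℝ) * n ≤ n ^ 2 := by nlinarith
  have g2 : (s : ℝ) * β * n ≤ β * n ^ 2 := by
    have := mul_le_mul_of_nonneg_left g1 (by linarith : (0 : ℝ) ≤ β)
    nlinarith
  have g3 : n ^ 2 ≤ β * n ^ 2 := by
    have : 0 ≤ n ^ 2 := by positivity
    nlinarith
  have g4 : n ≤ n ^ 2 := by nlinarith
  nlinarith

end MortUB
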