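import Pool.Agent.Lib.MP_e1e800_lc_UB.NearL
import Pool.Agent.Lib.MP_e1e800_lc_UB.PathL

/-!
# MP_e1e800_lc, project UB: pairs, rows
-/

namespace MortUB

open Finset

variable {Q A : Type} [DecidableEq Q] [Fintype Q] {M : Sys Q A} {β W0 : ℕ}

/-- Some state of the good set of `m` is met by the path at a time in `[s, m + 2β + 1]`. -/
private theorem row_time (h1' : 1 ≤ β) (P : Path M)
    (ht : Fintype.card Q ≤ M.V {P.ρ P.L} + β) (s : ℕ) (h1 : β ≤ s) 
    (m : ℕ) (hm : s ≤ m) (hm2 : m + 19 * β ≤ Fintype.card Q) (S : Finset Q)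
    (hS2 : Fintype.card Q ≤ S.card + m + β)
    (hS3 : ∀ T : Finset Q, T ⊆ S → T.Nonempty → (m - β) * T.card ≤ M.V T) :
    ∃ z, s ≤ z ∧ z ≤ m + 2 * β + 1 ∧ z ≤ P.L ∧ P.ρ z ∈ S := by
  by_contra hc
  have hL := P.le_L β ht
  have hI := P.idx_card' S
  have hsub : ((Icc 1 P.L).filter fun z => P.ρ z ∈ S) ⊆
      Ico (m - β) s ∪ Ioc (m + 2 * β + 1) P.L := by
    intro z hz
    rw [mem_filter, mem_Icc] at hz
    obtain ⟨⟨hz1, hz2⟩, hz3⟩ := hz
    rw [mem_union, mem_Ico, mem_Ioc]
    by_cases hzs : z < s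
    · left
      have h2 := hS3 {P.ρ z} (singleton_subset_iff.2 hz3) (singleton_nonempty _)
      rw [card_singleton, mul_one] at h2
      have h3 := P.h_le z hz1 hz2
      omega
    · right
      by_contra hzz
      exact hc ⟨z, by omega, by omega, hz2, hz3⟩
  have h2 := (card_le_card hsub).trans (card_union_le _ _)
  rw [Nat.card_Ico, Nat.card_Ioc] at h2
  omega

/-- The image of the good set. -/
private theorem row_image (h : Near M β W0) (hW : Fintype.card Q ≤ W0) (P : Path M)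
    (ht : Fintype.card Q ≤ M.V {P.ρ P.L} + β) (s : ℕ) (h1 : β ≤ s) 
    (m : ℕ) (hm : s ≤ m) (hm2 : m + 19 * β ≤ Fintype.card Q) :
    ∃ U : Finset Q, Fintype.card Q ≤ U.card + m + 2 * β + 1 ∧
      (∀ p ∈ U, m + s ≤ M.V {P.ρ s, p} + 5 * β) ∧ ∀ p ∈ U, s ≤ M.V {p} + 3 * β + 1 := by
  have hβ := h.one
  obtain ⟨S, hS1, hS2, hS3⟩ := h.good m (by omega) (by omega)
  obtain ⟨z, hz1, hz2, hz3, hz4⟩ := row_time hβ P ht s h1 m hm hm2 S hS2 hS3
  have hLn := P.L_le
  have hlen : (P.wd z s).length ≤ W0 := by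
    rw [P.wd_length]
    omega
  refine ⟨(S.erase (P.ρ z)).image (M.mv (P.wd z s)), ?_, ?_, ?_⟩
  · have h2 := h.image_card _ hlen (S.erase (P.ρ z))
    rw [card_erase_of_mem hz4] at h2
    omega
  · intro p hp
    rw [mem_image] at hp
    obtain ⟨q, hq, rfl⟩ := hp
    rw [mem_erase] at hq
    have h2 := hS3 {P.ρ z, q} (by
      intro x hx
      rw [mem_insert, mem_singleton] at hx
      rcases hx with rfl | rfl
      · exact hz4
      · exact hq.2) ⟨P.ρ z, mem_insert_self _ _⟩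
    rw [card_pair (Ne.symm hq.1)] at h2
    have h3 := P.V_wd z s (by omega) hz1 hz3 {q}
    rw [image_singleton] at h3
    have h4 : M.V {P.ρ z, q} ≤ (z - s) + M.V {P.ρ s, M.mv (P.wd z s) q} := h3
    omega
  · intro p hp
    rw [mem_image] at hp
    obtain ⟨q, hq, rfl⟩ := hp
    rw [mem_erase] at hq
    have h2 := hS3 {q} (singleton_subset_iff.2 hq.2) (singleton_nonempty _)
    rw [card_singleton, mul_one] at h2
    have h3 := M.V_mv (P.wd z s) {q}
    rw [image_singleton, P.wd_length] at h3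
    omega

/-- ROW -/
theorem pair_row (h : Near M β W0) (hW : Fintype.card Q ≤ W0) (P : Path M)
    (ht : Fintype.card Q ≤ M.V {P.ρ P.L} + β) (s : ℕ) (h1 : β ≤ s) (h2 : s + 2 * β + 1 ≤ P.L)
    (m : ℕ) (hm : s ≤ m) (hm2 : m ≤ Fintype.card Q) :
    Fintype.card Q ≤ m + 19 * β +
      ((Ioc s P.L).filter fun x => m + s ≤ P.F s x + 5 * β).card := by
  by_cases hn : m + 19 * β ≤ Fintype.card Q
  swap
  · omega
  have hβ := h.one
  have hL := P.le_L β ht
  have hLn := P.L_le
  obtain ⟨U1, hU1, hU1a, hU1b⟩ := row_image h hW P ht s h1 s le_rfl (by omega)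
  obtain ⟨U2, hU2, hU2a, -⟩ := row_image h hW P ht s h1 m hm hn
  set X1 : Finset ℕ := (Ioc s P.L).filter fun x => P.ρ x ∈ U1 with hX1
  -- (3)
  have h3 : P.L ≤ X1.card + s + 5 * β + 3 := by
    have hI := P.idx_card' U1
    have hsub : ((Icc 1 P.L).filter fun z => P.ρ z ∈ U1) ⊆ X1 ∪ Icc (s - (3 * β + 1)) s := by
      intro z hz
      rw [mem_filter, mem_Icc] at hz
      obtain ⟨⟨hz1, hz2⟩, hz3⟩ := hz
      rw [mem_union]
      by_cases hzs : s < z
      · left
        rw [hX1, mem_filter, mem_Ioc]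
        exact ⟨⟨hzs, hz2⟩, hz3⟩
      · right
        rw [mem_Icc]
        have h4 := hU1b _ hz3
        have h5 := P.h_le z hz1 hz2
        omega
    have h4 := (card_le_card hsub).trans (card_union_le _ _)
    rw [Nat.card_Icc] at h4
    omega
  -- (4)
  set G : Finset Q := univ.filter fun q => 2 * s ≤ M.V {P.ρ s, q} + 5 * β with hG
  have h4 : G.card + s ≤ Fintype.card Q + 6 * β + 1 := by
    have hlen : (P.wd s 0).length ≤ W0 := by
      rw [P.wd_length]
      omega
    have hf := h.fiber (P.wd s 0) hlen (univ.filter fun q : Q => s - 5 * β ≤ M.V {q})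
    have hc := M.cnt (s - 5 * β) (by omega)
    have hsub : G ⊆ univ.filter fun q => M.mv (P.wd s 0) q ∈
        (univ.filter fun q : Q => s - 5 * β ≤ M.V {q}) := by
      intro q hq
      rw [hG, mem_filter] at hq
      rw [mem_filter, mem_filter]
      refine ⟨mem_univ _, mem_univ _, ?_⟩
      have h5 := P.V_wd0 s (by omega) (by omega) {q}
      rw [image_singleton] at h5
      have h6 : M.V {P.ρ s, q} ≤ s + M.V {M.mv (P.wd s 0) q} := h5
      have h7 := hq.2
      omega
    have h8 := card_le_card hsub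
    omega
  have hinj : Set.InjOn P.ρ (X1 : Set ℕ) := by
    intro x hx y hy hxy
    rw [hX1, mem_coe, mem_filter, mem_Ioc] at hx hy
    exact P.inj x y (by omega) hx.1.2 (by omega) hy.1.2 hxy
  have himg : X1.image P.ρ ⊆ G := by
    intro q hq
    rw [mem_image] at hq
    obtain ⟨x, hx, rfl⟩ := hq
    rw [hX1, mem_filter] at hx
    rw [hG, mem_filter]
    refine ⟨mem_univ _, ?_⟩
    have := hU1a _ hx.2
    omega
  have h5 : (G \ X1.image P.ρ).card + X1.card = G.card := by
    have := card_sdiff_add_card_eq_card himg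
    rw [card_image_of_injOn hinj] at this
    exact this
  -- (5)
  have h6 : U2 ⊆ (((Ioc s P.L).filter fun x => m + s ≤ P.F s x + 5 * β).image P.ρ) ∪
      (G \ X1.image P.ρ) := by
    intro q hq
    rw [mem_union]
    have hq2 := hU2a q hq
    by_cases hqX : q ∈ X1.image P.ρ
    · left
      rw [mem_image] at hqX ⊢
      obtain ⟨x, hx, rfl⟩ := hqX
      rw [hX1, mem_filter] at hx
      exact ⟨x, mem_filter.2 ⟨hx.1, hq2⟩, rfl⟩
    · right
      rw [mem_sdiff, hG, mem_filter]
      exact ⟨⟨mem_univ _, by omega⟩, hqX⟩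
  have h7 := (card_le_card h6).trans (card_union_le _ _)
  have h8 : (((Ioc s P.L).filter fun x => m + s ≤ P.F s x + 5 * β).image P.ρ).card ≤
      ((Ioc s P.L).filter fun x => m + s ≤ P.F s x + 5 * β).card := card_image_le
  omega

end MortUB
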