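import Pool.Agent.Lib.MP_e1e800_lc_UB.PairUp
import Pool.Agent.Lib.MP_e1e800_lc_UB.PairLow
import Pool.Agent.Lib.MP_e1e800_lc_UB.L2

/-!
# MP_e1e800_lc, project UB: exceptional pairs
-/

namespace MortUB

open Finset

variable {Q A : Type} [DecidableEq Q] [Fintype Q] {M : Sys Q A} {β W0 : ℕ}

/-- SUME -/
theorem sum_E (h : Near M β W0) (hW : Fintype.card Q ≤ W0) (P : Path M)
    (ht : Fintype.card Q ≤ M.V {P.ρ P.L} + β) (t : ℕ) :
    (∑ s ∈ Icc 1 P.L, (P.E t s : ℝ)) * t ^ 2 ≤ 500 * β * (Fintype.card Q : ℝ) ^ 3 := by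
  have h1 := l2_bound (Fintype.card Q) β P.L (fun s x => (P.F s x : ℝ)) h.one P.L_le (P.le_L β ht)
    (fun s x => by simp only [Path.F, pair_comm])
    (fun s hs => by
      rw [mem_Icc] at hs
      exact pair_up1 h hW P s hs.1 hs.2)
    (fun s hs => by
      rw [mem_Icc] at hs
      exact pair_up2 h hW P s hs.1 hs.2)
    (pair_low h hW P ht)
  refine le_trans ?_ h1
  rw [sum_mul]
  apply sum_le_sum
  intro s _
  unfold Path.E
  rw [← nsmul_eq_mul, ← sum_const]
  refine le_trans ?_ (sum_le_sum_of_subset_of_nonneg (filter_subset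
    (fun x => (t : ℤ) < |(P.F s x : ℤ) - s - x|) _) fun x _ _ => sq_nonneg _)
  apply sum_le_sum
  intro x hx
  rw [mem_filter] at hx
  have h2 : (t : ℝ) ≤ |(P.F s x : ℝ) - s - x| := by
    have := hx.2.le
    exact_mod_cast this
  rw [← sq_abs ((P.F s x : ℝ) - s - x)]
  exact pow_le_pow_left₀ (Nat.cast_nonneg _) h2 2

end MortUB
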