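import Pool.Agent.Lib.MP_e1e800_lc_UB.Cover
import Pool.Agent.Lib.MP_e1e800_lc_UB.Fibre

/-!
# MP_e1e800_lc, project UB: the number of bad tuples
-/

namespace MortUB

open Finset

variable {Q A : Type} [DecidableEq Q] [Fintype Q] {M : Sys Q A} {β W0 : ℕ}

theorem take_update {K : ℕ} (z : Fin K → ℕ × ℕ) (j : Fin K) (u : ℕ × ℕ) :
    (List.ofFn (Function.update z j u)).take j = (List.ofFn z).take j := by
  apply List.ext_getElem
  · simp
  · intro k h1 h2
    rw [List.length_take] at h1
    rw [List.getElem_take, List.getElem_take, List.getElem_ofFn, List.getElem_ofFn,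
      Function.update_of_ne]
    intro he
    have := congrArg Fin.val he
    simp at this
    omega

theorem drop_update {K : ℕ} (z : Fin K → ℕ × ℕ) (j : Fin K) (u : ℕ × ℕ) :
    (List.ofFn (Function.update z j u)).drop (j + 1) = (List.ofFn z).drop (j + 1) := by
  apply List.ext_getElem
  · simp
  · intro k h1 h2
    rw [List.getElem_drop, List.getElem_drop, List.getElem_ofFn, List.getElem_ofFn,
      Function.update_of_ne]
    intro he
    have := congrArg Fin.val he
    simp at this
    omega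

theorem take_sum_le {K : ℕ} (z : Fin K → ℕ × ℕ) (j : Fin K) (f : ℕ × ℕ → ℕ) :
    (((List.ofFn z).take j).map f).sum ≤ ∑ i ∈ univ.filter (fun i : Fin K => i ≠ j), f (z i) := by
  have e : (List.ofFn z).take j = List.ofFn (fun i : Fin j => z ⟨i, i.2.trans j.2⟩) := by
    apply List.ext_getElem
    · simp
    · intro k h1 h2
      simp
  rw [e, List.map_ofFn, List.sum_ofFn]
  have e2 : ∑ i : Fin j, (f ∘ fun i : Fin j => z ⟨i, i.2.trans j.2⟩) i =
      ∑ i ∈ univ.image (fun i : Fin j => (⟨i, i.2.trans j.2⟩ : Fin K)), f (z i) := by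
    rw [sum_image]
    · rfl
    · intro a _ b _ hab
      apply Fin.ext
      have := congrArg Fin.val hab
      exact this
  rw [e2]
  apply sum_le_sum_of_subset
  intro i hi
  rw [mem_image] at hi
  obtain ⟨a, _, rfl⟩ := hi
  rw [mem_filter]
  refine ⟨mem_univ _, ?_⟩
  intro he
  have := congrArg Fin.val he
  simp only at this
  have := a.2
  omega

/-- The conditions with index `j`. -/
def Bad1 (P : Path M) (S : Finset Q) {K : ℕ} (j : Fin K) (z : Fin K → ℕ × ℕ) : Prop :=
  P.ρ (z j).1 ∉ S.image (M.mv (P.wds ((List.ofFn z).take j))) ∨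
    ∃ i : Fin K, i < j ∧ P.ρ (z j).1 =
      M.mv (P.wds (((List.ofFn z).take j).drop (i + 1))) (P.ρ (z i).2)

theorem bad1_fibre (h : Near M β W0) (P : Path M) (ht : Fintype.card Q ≤ M.V {P.ρ P.L} + β)
    (K : ℕ) (hW : K * Fintype.card Q ≤ W0) (κ N t : ℕ)
    (hN : N + κ = P.L) (hm : β ≤ N + 1) (S : Finset Q)
    (hS : Fintype.card Q ≤ S.card + (N + 1) + β) (hh : ∀ q ∈ S, (N + 1) - β ≤ M.V {q})
    (j : Fin K) (z : Fin K → ℕ × ℕ) (hz : ∀ i, z i ∈ Icc (N + 1) P.L ×ˢ Icc 1 N) :
    ((Icc (N + 1) P.L).filter fun y =>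
      P.ρ y ∉ S.image (M.mv (P.wds ((List.ofFn z).take j))) ∨
      ∃ i : Fin K, i < j ∧ P.ρ y =
        M.mv (P.wds (((List.ofFn z).take j).drop (i + 1))) (P.ρ (z i).2)).card ≤
      2 * K * t + (K + 4) * β + 1 + K +
        ∑ i ∈ univ.filter (fun i : Fin K => i ≠ j), (P.E t (z i).1 + P.E t (z i).2) := by
  classical
  have hjK := j.2
  have hlen : ((List.ofFn z).take j).length = j.1 := by
    rw [List.length_take, List.length_ofFn]; omega
  have hpairs : ∀ p ∈ (List.ofFn z).take j, 1 ≤ p.2 ∧ p.2 ≤ p.1 ∧ p.1 ≤ P.L := by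
    intro p hp
    have hp' := List.mem_of_mem_take hp
    rw [List.mem_ofFn] at hp'
    obtain ⟨i, rfl⟩ := hp'
    have := hz i
    rw [mem_product, mem_Icc, mem_Icc] at this
    omega
  have hwl : (P.wds ((List.ofFn z).take j)).length ≤ W0 := by
    have h1 := P.wds_length_le ((List.ofFn z).take j) (fun p hp => (hpairs p hp).2.2)
    rw [hlen] at h1
    have h2 : j.1 * Fintype.card Q ≤ K * Fintype.card Q := Nat.mul_le_mul_right _ hjK.le
    omega
  have h1 := cover h P ht t ((List.ofFn z).take j) hpairs hwl (N + 1) hm S hS hh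
  rw [hlen] at h1
  have h2 : ((Icc (N + 1) P.L).filter fun y => ∃ i : Fin K, i < j ∧ P.ρ y =
      M.mv (P.wds (((List.ofFn z).take j).drop (i + 1))) (P.ρ (z i).2)).card ≤ K := by
    have hsub : ((Icc (N + 1) P.L).filter fun y => ∃ i : Fin K, i < j ∧ P.ρ y =
        M.mv (P.wds (((List.ofFn z).take j).drop (i + 1))) (P.ρ (z i).2)) ⊆
        (univ : Finset (Fin K)).biUnion fun i => (Icc (N + 1) P.L).filter fun y => P.ρ y =
          M.mv (P.wds (((List.ofFn z).take j).drop (i + 1))) (P.ρ (z i).2) := by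
      intro y hy
      rw [mem_filter] at hy
      obtain ⟨i, _, hi⟩ := hy.2
      rw [mem_biUnion]
      exact ⟨i, mem_univ _, mem_filter.2 ⟨hy.1, hi⟩⟩
    refine (card_le_card hsub).trans (card_biUnion_le.trans ?_)
    have : ∀ i ∈ (univ : Finset (Fin K)), ((Icc (N + 1) P.L).filter fun y => P.ρ y =
          M.mv (P.wds (((List.ofFn z).take j).drop (i + 1))) (P.ρ (z i).2)).card ≤ 1 := by
      intro i _
      rw [card_le_one]
      intro a ha b hb
      rw [mem_filter, mem_Icc] at ha hb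
      exact P.inj a b (by omega) ha.1.2 (by omega) hb.1.2 (ha.2.trans hb.2.symm)
    have := sum_le_card_nsmul _ _ _ this
    simpa using this
  have h3 := take_sum_le z j (fun p => P.E t p.1 + P.E t p.2)
  have hsub : ((Icc (N + 1) P.L).filter fun y =>
      P.ρ y ∉ S.image (M.mv (P.wds ((List.ofFn z).take j))) ∨
      ∃ i : Fin K, i < j ∧ P.ρ y =
        M.mv (P.wds (((List.ofFn z).take j).drop (i + 1))) (P.ρ (z i).2)) =
      ((Icc (N + 1) P.L).filter fun y =>
      P.ρ y ∉ S.image (M.mv (P.wds ((List.ofFn z).take j)))) ∪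
      ((Icc (N + 1) P.L).filter fun y => ∃ i : Fin K, i < j ∧ P.ρ y =
      M.mv (P.wds (((List.ofFn z).take j).drop (i + 1))) (P.ρ (z i).2)) := by
    rw [filter_or]
  rw [hsub]
  refine (card_union_le _ _).trans ?_
  have h4 : 2 * j.1 * t ≤ 2 * K * t := Nat.mul_le_mul_right _ (by omega)
  have h5 : (j.1 + 4) * β ≤ (K + 4) * β := Nat.mul_le_mul_right _ (by omega)
  omega

/-- TUPBAD: the number of bad tuples. -/
theorem tup_bad (h : Near M β W0) (P : Path M) (ht : Fintype.card Q ≤ M.V {P.ρ P.L} + β)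
    (Tr : List A → Finset Q)
    (hTc : ∀ w : List A, w.length ≤ W0 → Fintype.card Q ≤ (Tr w).card + β)
    (K : ℕ) (hW : K * Fintype.card Q ≤ W0) (κ N t : ℕ) (hκ : 1 ≤ κ) (hκN : κ ≤ N)
    (hN : N + κ = P.L) (hm : β ≤ N + 1) (S : Finset Q)
    (hS : Fintype.card Q ≤ S.card + (N + 1) + β) (hh : ∀ q ∈ S, (N + 1) - β ≤ M.V {q}) :
    (((Fintype.piFinset (fun _ : Fin K => Icc (N + 1) P.L ×ˢ Icc 1 N)).filter fun z =>
      ¬ ((∀ j : Fin K, P.ρ (z j).1 ∈ S.image (M.mv (P.wds ((List.ofFn z).take j)))) ∧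
        (∀ i j : Fin K, i < j → P.ρ (z j).1 ≠
          M.mv (P.wds (((List.ofFn z).take j).drop (i + 1))) (P.ρ (z i).2)) ∧
        (∀ i : Fin K, P.ρ (z i).2 ∈ Tr (P.wds ((List.ofFn z).drop (i + 1)))))).card : ℝ) ≤
      ((κ : ℝ) * N) ^ K * (K * β / N + K * (2 * K * t + (K + 4) * β + 1 + K) / κ +
        K ^ 2 * (∑ s ∈ Icc 1 P.L, (P.E t s : ℝ)) / κ ^ 2) := by
  classical
  set Z : Finset (ℕ × ℕ) := Icc (N + 1) P.L ×ˢ Icc 1 N with hZ
  have hZc : (Z.card : ℝ) = κ * N := by
    rw [hZ, card_product, Nat.card_Icc, Nat.card_Icc]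
    have e1 : P.L + 1 - (N + 1) = κ := by omega
    have e2 : N + 1 - 1 = N := by omega
    rw [e1, e2]
    push_cast
    ring
  have hκr : (1 : ℝ) ≤ κ := by exact_mod_cast hκ
  have hκNr : (κ : ℝ) ≤ N := by exact_mod_cast hκN
  have hNr : (1 : ℝ) ≤ N := hκr.trans hκNr
  have ha : (0 : ℝ) < κ * N := by positivity
  set Et : ℝ := ∑ s ∈ Icc 1 P.L, (P.E t s : ℝ) with hEt
  -- the two types of violations
  have hsub : (Fintype.piFinset (fun _ : Fin K => Z)).filter (fun z =>
      ¬ ((∀ j : Fin K, P.ρ (z j).1 ∈ S.image (M.mv (P.wds ((List.ofFn z).take j)))) ∧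
        (∀ i j : Fin K, i < j → P.ρ (z j).1 ≠
          M.mv (P.wds (((List.ofFn z).take j).drop (i + 1))) (P.ρ (z i).2)) ∧
        (∀ i : Fin K, P.ρ (z i).2 ∈ Tr (P.wds ((List.ofFn z).drop (i + 1)))))) ⊆
      (univ.biUnion fun j : Fin K => (Fintype.piFinset (fun _ : Fin K => Z)).filter
        fun z => Bad1 P S j z) ∪
      (univ.biUnion fun i : Fin K => (Fintype.piFinset (fun _ : Fin K => Z)).filter
        fun z => P.ρ (z i).2 ∉ Tr (P.wds ((List.ofFn z).drop (i + 1)))) := by
    intro z hz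
    rw [mem_filter] at hz
    rw [mem_union, mem_biUnion, mem_biUnion]
    by_contra hcon
    push Not at hcon
    apply hz.2
    refine ⟨?_, ?_, ?_⟩
    · intro j
      by_contra hj
      exact hcon.1 j (mem_univ _) (mem_filter.2 ⟨hz.1, Or.inl hj⟩)
    · intro i j hij he
      exact hcon.1 j (mem_univ _) (mem_filter.2 ⟨hz.1, Or.inr ⟨i, hij, he⟩⟩)
    · intro i
      by_contra hi
      exact hcon.2 i (mem_univ _) (mem_filter.2 ⟨hz.1, hi⟩)
  have hcard := (card_le_card hsub).trans ((card_union_le _ _).trans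
    (Nat.add_le_add card_biUnion_le card_biUnion_le))
  -- first type
  set c0 : ℝ := 2 * K * t + (K + 4) * β + 1 + K with hc0
  have hc00 : 0 ≤ c0 := by positivity
  have hEt0 : 0 ≤ Et := by positivity
  have hg : ∑ u ∈ Z, ((P.E t u.1 : ℝ) + P.E t u.2) ≤ N * Et := by
    rw [hZ, sum_product]
    have e1 : ∀ y ∈ Icc (N + 1) P.L, ∑ x ∈ Icc 1 N, ((P.E t y : ℝ) + P.E t x) =
        N * (P.E t y : ℝ) + ∑ x ∈ Icc 1 N, (P.E t x : ℝ) := by
      intro y _
      rw [sum_add_distrib, sum_const, Nat.card_Icc, nsmul_eq_mul]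
      simp
    rw [sum_congr rfl e1, sum_add_distrib, ← mul_sum, sum_const, Nat.card_Icc, nsmul_eq_mul]
    have e2 : ((P.L + 1 - (N + 1) : ℕ) : ℝ) = κ := by
      have : P.L + 1 - (N + 1) = κ := by omega
      rw [this]
    rw [e2]
    have e3 : Et = ∑ x ∈ Icc 1 N, (P.E t x : ℝ) + ∑ y ∈ Icc (N + 1) P.L, (P.E t y : ℝ) := by
      rw [hEt]
      have hd : Disjoint (Icc 1 N) (Icc (N + 1) P.L) := by
        rw [disjoint_left]
        intro x hx hx'
        rw [mem_Icc] at hx hx'
        omega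
      rw [← sum_union hd]
      apply sum_congr _ (fun _ _ => rfl)
      ext x
      rw [mem_union, mem_Icc, mem_Icc, mem_Icc]
      omega
    have e4 : (κ : ℝ) * ∑ x ∈ Icc 1 N, (P.E t x : ℝ) ≤ N * ∑ x ∈ Icc 1 N, (P.E t x : ℝ) :=
      mul_le_mul_of_nonneg_right hκNr (by positivity)
    rw [e3, mul_add]
    linarith
  have hone : ∀ j : Fin K, (((Fintype.piFinset (fun _ : Fin K => Z)).filter
      fun z => Bad1 P S j z).card : ℝ) ≤ ((κ : ℝ) * N) ^ K * (c0 / κ + K * Et / κ ^ 2) := by
    intro j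
    have hK1 : 1 ≤ K := by have := j.2; omega
    have hf := fibre_count K Z j (fun z => Bad1 P S j z)
      (fun z => N * (c0 + ∑ i ∈ univ.filter (fun i : Fin K => i ≠ j),
        ((P.E t (z i).1 : ℝ) + P.E t (z i).2))) (by
      intro z hz
      rw [Fintype.mem_piFinset] at hz
      have h1 := bad1_fibre h P ht K hW κ N t hN hm S hS hh j z hz
      have h2 : (Z.filter fun u => Bad1 P S j (Function.update z j u)) ⊆
          ((Icc (N + 1) P.L).filter fun y =>
            P.ρ y ∉ S.image (M.mv (P.wds ((List.ofFn z).take j))) ∨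
            ∃ i : Fin K, i < j ∧ P.ρ y =
              M.mv (P.wds (((List.ofFn z).take j).drop (i + 1))) (P.ρ (z i).2)) ×ˢ Icc 1 N := by
        intro u hu
        rw [mem_filter, hZ, mem_product] at hu
        rw [mem_product, mem_filter]
        refine ⟨⟨hu.1.1, ?_⟩, hu.1.2⟩
        rcases hu.2 with hb | ⟨i, hij, he⟩
        · left
          rw [take_update, Function.update_self] at hb
          exact hb
        · right
          rw [take_update, Function.update_self, Function.update_of_ne (ne_of_lt hij)] at he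
          exact ⟨i, hij, he⟩
      have h3 := card_le_card h2
      rw [card_product, Nat.card_Icc, Nat.add_sub_cancel] at h3
      have h4 : (Z.filter fun u => Bad1 P S j (Function.update z j u)).card ≤
          (2 * K * t + (K + 4) * β + 1 + K +
            ∑ i ∈ univ.filter (fun i : Fin K => i ≠ j), (P.E t (z i).1 + P.E t (z i).2)) * N :=
        h3.trans (Nat.mul_le_mul_right _ h1)
      have h5 : ((Z.filter fun u => Bad1 P S j (Function.update z j u)).card : ℝ) ≤
          ((2 * K * t + (K + 4) * β + 1 + K +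
            ∑ i ∈ univ.filter (fun i : Fin K => i ≠ j),
              ((P.E t (z i).1 : ℝ) + P.E t (z i).2)) * N : ℝ) := by
        exact_mod_cast h4
      rw [hc0, mul_comm (N : ℝ)]
      exact h5)
    have hs : ∑ z ∈ Fintype.piFinset (fun _ : Fin K => Z), (N * (c0 +
        ∑ i ∈ univ.filter (fun i : Fin K => i ≠ j), ((P.E t (z i).1 : ℝ) + P.E t (z i).2))) ≤
        N * (((κ : ℝ) * N) ^ K * c0 + K * (((κ : ℝ) * N) ^ (K - 1) * (N * Et))) := by
      rw [← mul_sum]
      apply mul_le_mul_of_nonneg_left _ (by positivity)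
      rw [sum_add_distrib, sum_const, Fintype.card_piFinset_const, nsmul_eq_mul]
      push_cast
      rw [hZc]
      apply add_le_add_right
      rw [sum_comm]
      have e1 : ∀ i ∈ univ.filter (fun i : Fin K => i ≠ j),
          ∑ z ∈ Fintype.piFinset (fun _ : Fin K => Z), ((P.E t (z i).1 : ℝ) + P.E t (z i).2) ≤
          ((κ : ℝ) * N) ^ (K - 1) * (N * Et) := by
        intro i _
        have := Fintype.sum_piFinset_apply (fun u : ℕ × ℕ => ((P.E t u.1 : ℝ) + P.E t u.2)) Z i
        rw [this, Fintype.card_fin, nsmul_eq_mul]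
        push_cast
        rw [hZc]
        exact mul_le_mul_of_nonneg_left hg (by positivity)
      refine (sum_le_card_nsmul _ _ _ e1).trans ?_
      rw [nsmul_eq_mul]
      apply mul_le_mul_of_nonneg_right _ (by positivity)
      have : (univ.filter (fun i : Fin K => i ≠ j)).card ≤ K := by
        have := card_le_univ (univ.filter (fun i : Fin K => i ≠ j))
        rwa [Fintype.card_fin] at this
      exact_mod_cast this
    have hfin := hf.trans hs
    rw [hZc] at hfin
    have e5 : (N : ℝ) * (((κ : ℝ) * N) ^ K * c0 + K * (((κ : ℝ) * N) ^ (K - 1) * (N * Et))) =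
        ((κ : ℝ) * N) ^ K * (c0 / κ + K * Et / κ ^ 2) * (κ * N) := by
      obtain ⟨K', rfl⟩ : ∃ K', K = K' + 1 := ⟨K - 1, by omega⟩
      rw [Nat.add_sub_cancel, pow_succ]
      field_simp
    rw [e5] at hfin
    exact le_of_mul_le_mul_right hfin ha
  -- second type
  have htwo : ∀ i : Fin K, (((Fintype.piFinset (fun _ : Fin K => Z)).filter
      fun z => P.ρ (z i).2 ∉ Tr (P.wds ((List.ofFn z).drop (i + 1)))).card : ℝ) ≤
      ((κ : ℝ) * N) ^ K * (β / N) := by
    intro i
    have hf := fibre_count K Z i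
      (fun z => P.ρ (z i).2 ∉ Tr (P.wds ((List.ofFn z).drop (i + 1)))) (fun _ => κ * β) (by
      intro z hz
      rw [Fintype.mem_piFinset] at hz
      have hpairs : ∀ p ∈ (List.ofFn z).drop (i + 1), p.1 ≤ P.L := by
        intro p hp
        have hp' := List.mem_of_mem_drop hp
        rw [List.mem_ofFn] at hp'
        obtain ⟨i', rfl⟩ := hp'
        have := hz i'
        rw [hZ, mem_product, mem_Icc, mem_Icc] at this
        exact this.1.2
      have hwl : (P.wds ((List.ofFn z).drop (i + 1))).length ≤ W0 := by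
        have h1 := P.wds_length_le _ hpairs
        rw [List.length_drop, List.length_ofFn] at h1
        have h2 : (K - (i.1 + 1)) * Fintype.card Q ≤ K * Fintype.card Q :=
          Nat.mul_le_mul_right _ (Nat.sub_le _ _)
        omega
      have h3 := hTc _ hwl
      have h2 : (Z.filter fun u => P.ρ ((Function.update z i u) i).2 ∉
          Tr (P.wds ((List.ofFn (Function.update z i u)).drop (i + 1)))) ⊆
          Icc (N + 1) P.L ×ˢ ((Icc 1 P.L).filter fun x =>
            P.ρ x ∈ (Tr (P.wds ((List.ofFn z).drop (i + 1))))ᶜ) := by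
        intro u hu
        rw [mem_filter, hZ, mem_product, drop_update, Function.update_self] at hu
        rw [mem_product, mem_filter, mem_compl]
        refine ⟨hu.1.1, ?_, hu.2⟩
        have := hu.1.2
        rw [mem_Icc] at this ⊢
        omega
      have h4 := card_le_card h2
      rw [card_product, Nat.card_Icc] at h4
      have h5 : ((Icc 1 P.L).filter fun x =>
            P.ρ x ∈ (Tr (P.wds ((List.ofFn z).drop (i + 1))))ᶜ).card ≤ β := by
        have h6 : (((Icc 1 P.L).filter fun x =>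
            P.ρ x ∈ (Tr (P.wds ((List.ofFn z).drop (i + 1))))ᶜ).image P.ρ) ⊆
            (Tr (P.wds ((List.ofFn z).drop (i + 1))))ᶜ := by
          intro q hq
          rw [mem_image] at hq
          obtain ⟨x, hx, rfl⟩ := hq
          exact (mem_filter.1 hx).2
        have h7 := card_le_card h6
        rw [card_image_of_injOn (P.injOn.mono (by exact_mod_cast filter_subset _ _)),
          card_compl] at h7
        omega
      have e1 : P.L + 1 - (N + 1) = κ := by omega
      rw [e1] at h4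
      have h8 : (Z.filter fun u => P.ρ ((Function.update z i u) i).2 ∉
          Tr (P.wds ((List.ofFn (Function.update z i u)).drop (i + 1)))).card ≤ κ * β :=
        h4.trans (Nat.mul_le_mul_left _ h5)
      exact_mod_cast h8)
    rw [sum_const, Fintype.card_piFinset_const, nsmul_eq_mul] at hf
    push_cast at hf
    rw [hZc] at hf
    have e5 : ((κ : ℝ) * N) ^ K * (κ * β) = ((κ : ℝ) * N) ^ K * (β / N) * (κ * N) := by
      field_simp
    rw [e5] at hf
    exact le_of_mul_le_mul_right hf ha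
  have hs1 := sum_le_card_nsmul (univ : Finset (Fin K)) _ _ (fun j _ => hone j)
  have hs2 := sum_le_card_nsmul (univ : Finset (Fin K)) _ _ (fun j _ => htwo j)
  rw [card_univ, Fintype.card_fin, nsmul_eq_mul] at hs1 hs2
  have hcard' : ((((Fintype.piFinset (fun _ : Fin K => Z)).filter fun z =>
      ¬ ((∀ j : Fin K, P.ρ (z j).1 ∈ S.image (M.mv (P.wds ((List.ofFn z).take j)))) ∧
        (∀ i j : Fin K, i < j → P.ρ (z j).1 ≠
          M.mv (P.wds (((List.ofFn z).take j).drop (i + 1))) (P.ρ (z i).2)) ∧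
        (∀ i : Fin K, P.ρ (z i).2 ∈ Tr (P.wds ((List.ofFn z).drop (i + 1)))))).card : ℕ) : ℝ) ≤
      ∑ j : Fin K, (((Fintype.piFinset (fun _ : Fin K => Z)).filter
        fun z => Bad1 P S j z).card : ℝ) +
      ∑ i : Fin K, (((Fintype.piFinset (fun _ : Fin K => Z)).filter
        fun z => P.ρ (z i).2 ∉ Tr (P.wds ((List.ofFn z).drop (i + 1)))).card : ℝ) := by
    exact_mod_cast hcard
  refine (hcard'.trans (add_le_add hs1 hs2)).trans (le_of_eq ?_)
  ring

end MortUB
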