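import Pool.Agent.Lib.MP_e1e800_lc_UB.PathL

/-!
# MP_e1e800_lc, project UB: tuples: injectivity
-/

namespace MortUB

open Finset

variable {Q A : Type} [DecidableEq Q] [Fintype Q] {M : Sys Q A}

/-- TUPINJ: the tuple determines the `x_i`. -/
theorem tup_inj (P : Path M) (Tr : List A → Finset Q)
    (hTr : ∀ w, Set.InjOn (M.mv w) (Tr w : Set Q)) (K : ℕ) (z z' : Fin K → ℕ × ℕ)
    (hy : ∀ i, (z i).1 = (z' i).1)
    (hz : ∀ i, 1 ≤ (z i).2 ∧ (z i).2 ≤ P.L) (hz' : ∀ i, 1 ≤ (z' i).2 ∧ (z' i).2 ≤ P.L)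
    (ht : ∀ i : Fin K, P.ρ (z i).2 ∈ Tr (P.wds ((List.ofFn z).drop (i + 1))))
    (ht' : ∀ i : Fin K, P.ρ (z' i).2 ∈ Tr (P.wds ((List.ofFn z').drop (i + 1))))
    (he : P.tup z = P.tup z') : z = z' := by
  have key : ∀ m : ℕ, ∀ i : Fin K, K - i.1 ≤ m → z i = z' i := by
    intro m
    induction m with
    | zero => intro i hi; have := i.2; omega
    | succ m ih =>
      intro i hi
      have hd : (List.ofFn z).drop (i + 1) = (List.ofFn z').drop (i + 1) := by
        apply List.ext_getElem
        · simp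
        · intro k h1 h2
          rw [List.getElem_drop, List.getElem_drop, List.getElem_ofFn, List.getElem_ofFn]
          apply ih
          show K - (i.1 + 1 + k) ≤ m
          omega
      have h1 := congrFun he i
      unfold Path.tup at h1
      rw [hd] at h1
      have h2 := ht i
      rw [hd] at h2
      have h3 := hTr _ h2 (ht' i) h1
      have h4 := P.inj _ _ (hz i).1 (hz i).2 (hz' i).1 (hz' i).2 h3
      exact Prod.ext (hy i) h4
  funext i
  exact key K i (Nat.sub_le _ _)

end MortUB
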