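import Pool.Agent.Lib.MP_e1e800_lc_UB.TupVal
import Pool.Agent.Lib.MP_e1e800_lc_UB.TupInj
import Pool.Agent.Lib.MP_e1e800_lc_UB.TupBad
import Pool.Agent.Lib.MP_e1e800_lc_UB.SumE

/-!
# MP_e1e800_lc, project UB: tuples, lower bound
-/

namespace MortUB

open Finset

variable {Q A : Type} [DecidableEq Q] [Fintype Q] {M : Sys Q A} {β W0 : ℕ}

/-- The numerical part: from the counting inequality to the bound. -/
theorem tup_low_num (A n N β κ t Et : ℝ) (K : ℕ) (hK : 1 ≤ K) (hA : 0 ≤ A) (hβ : 1 ≤ β)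
    (ht : 1 ≤ t) (hκ : 2 ≤ κ) (hβκ : β ≤ κ) (hκn : 4 * κ ≤ n) (hNn : n ≤ N + κ + β)
    (_ : 0 ≤ Et) (hEt : Et * t ^ 2 ≤ 500 * β * n ^ 3)
    (h : N ^ K * (K * (N + 1) / 2 - K * (κ + β) - K * n * (K * β / N +
      K * (2 * K * t + (K + 4) * β + 1 + K) / κ + K ^ 2 * Et / κ ^ 2)) ≤ A) :
    n ^ K * ((K : ℝ) * n / 2 - errT n β κ t K) ≤ A := by
  have hKr : (1 : ℝ) ≤ K := by exact_mod_cast hK
  have hn : 0 < n := by linarith
  have hN : n / 2 ≤ N := by linarith
  have hN0 : 0 < N := by linarith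
  have hκ0 : 0 < κ := by linarith
  have ht0 : 0 < t := by linarith
  set k : ℝ := (K : ℝ) with hk
  have hk0 : 0 < k := by linarith
  have hk2 : k ≤ k ^ 2 := by nlinarith
  have hk3 : k ^ 2 ≤ k ^ 3 := by nlinarith
  -- the four error terms
  have b1 : k * n * (k * β / N) ≤ k ^ 3 * (n * β) / κ := by
    have e1 : k * n * (k * β / N) ≤ 2 * k ^ 2 * β := by
      have : n / N ≤ 2 := by rw [div_le_iff₀ hN0]; linarith
      calc k * n * (k * β / N) = k ^ 2 * β * (n / N) := by field_simp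
        _ ≤ k ^ 2 * β * 2 := mul_le_mul_of_nonneg_left this (by positivity)
        _ = 2 * k ^ 2 * β := by ring
    have e2 : 2 * k ^ 2 * β ≤ k ^ 3 * (n * β) / κ := by
      rw [le_div_iff₀ hκ0]
      have : k ^ 2 * (4 * κ) ≤ k ^ 3 * n := mul_le_mul hk3 hκn (by linarith) (by positivity)
      have h4 := mul_le_mul_of_nonneg_right this (by linarith : 0 ≤ β)
      nlinarith [mul_pos (mul_pos (pow_pos hk0 2) hκ0) (by linarith : 0 < β)]
    linarith
  have b2 : k * n * (k * (2 * k * t + (k + 4) * β + 1 + k) / κ) ≤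
      k ^ 3 * (2 * n * t + 7 * n * β) / κ := by
    have e1 : (k + 4) * β + 1 + k ≤ 7 * k * β := by nlinarith
    have e2 : k * n * (k * (2 * k * t + (k + 4) * β + 1 + k) / κ) =
        k ^ 2 * n * (2 * k * t + ((k + 4) * β + 1 + k)) / κ := by ring
    rw [e2]
    apply div_le_div_of_nonneg_right _ hκ0.le
    have : k ^ 2 * n * (2 * k * t + ((k + 4) * β + 1 + k)) ≤
        k ^ 2 * n * (2 * k * t + 7 * k * β) :=
      mul_le_mul_of_nonneg_left (by linarith) (by positivity)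
    nlinarith
  have b3 : k * n * (k ^ 2 * Et / κ ^ 2) ≤ 500 * k ^ 3 * β * n ^ 4 / (t ^ 2 * κ ^ 2) := by
    have e1 : Et ≤ 500 * β * n ^ 3 / t ^ 2 := by
      rw [le_div_iff₀ (by positivity)]
      exact hEt
    calc k * n * (k ^ 2 * Et / κ ^ 2) = k ^ 3 * n / κ ^ 2 * Et := by ring
      _ ≤ k ^ 3 * n / κ ^ 2 * (500 * β * n ^ 3 / t ^ 2) :=
          mul_le_mul_of_nonneg_left e1 (by positivity)
      _ = 500 * k ^ 3 * β * n ^ 4 / (t ^ 2 * κ ^ 2) := by field_simp
  set X0 : ℝ := k * (N + 1) / 2 - k * (κ + β) - k * n * (k * β / N +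
      k * (2 * k * t + (k + 4) * β + 1 + k) / κ + k ^ 2 * Et / κ ^ 2) with hX0
  set e : ℝ := errT n β κ t k with he
  have hee : e = 2 * k ^ 2 * (κ + β) + k ^ 3 * (2 * n * t + 8 * n * β) / κ +
      1000 * k ^ 3 * β * n ^ 4 / (t ^ 2 * κ ^ 2) := rfl
  have hp1 : 0 ≤ k ^ 3 * (2 * n * t + 8 * n * β) / κ := by positivity
  have hp2 : 0 ≤ k ^ 3 * β * n ^ 4 / (t ^ 2 * κ ^ 2) := by positivity
  have hsum : k ^ 3 * (n * β) / κ + k ^ 3 * (2 * n * t + 7 * n * β) / κ =
      k ^ 3 * (2 * n * t + 8 * n * β) / κ := by ring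
  have hhalf : 500 * k ^ 3 * β * n ^ 4 / (t ^ 2 * κ ^ 2) =
      500 * (k ^ 3 * β * n ^ 4 / (t ^ 2 * κ ^ 2)) := by ring
  have hthou : 1000 * k ^ 3 * β * n ^ 4 / (t ^ 2 * κ ^ 2) =
      1000 * (k ^ 3 * β * n ^ 4 / (t ^ 2 * κ ^ 2)) := by ring
  have hXY : k * n / 2 - e + k ^ 2 * (κ + β) / 2 ≤ X0 := by
    have h1 : k * (n - (κ + β)) / 2 ≤ k * (N + 1) / 2 := by
      apply div_le_div_of_nonneg_right _ (by norm_num)
      exact mul_le_mul_of_nonneg_left (by linarith) hk0.le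
    have h2 : k * (κ + β) ≤ k ^ 2 * (κ + β) := mul_le_mul_of_nonneg_right hk2 (by linarith)
    have h3 : k * n * (k * β / N + k * (2 * k * t + (k + 4) * β + 1 + k) / κ +
        k ^ 2 * Et / κ ^ 2) = k * n * (k * β / N) +
        k * n * (k * (2 * k * t + (k + 4) * β + 1 + k) / κ) + k * n * (k ^ 2 * Et / κ ^ 2) := by
      ring
    rw [hX0, h3, hee]
    nlinarith
  by_cases hneg : k * n / 2 - e ≤ 0
  · exact (mul_nonpos_of_nonneg_of_nonpos (by positivity) hneg).trans hA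
  · rw [not_le] at hneg
    set Y : ℝ := k * n / 2 - e + k ^ 2 * (κ + β) / 2 with hY
    have hκβ0 : 0 ≤ κ + β := by linarith
    have hY0 : 0 ≤ Y := by
      have : 0 ≤ k ^ 2 * (κ + β) / 2 := by positivity
      linarith
    have hYn : Y ≤ k * n / 2 := by
      have : 0 ≤ k ^ 2 * (κ + β) := by positivity
      rw [hY, hee]
      linarith
    have hbern : n ^ K * (1 - k * ((κ + β) / n)) ≤ N ^ K := by
      have h1 : -2 ≤ -((κ + β) / n) := by
        have : (κ + β) / n ≤ 1 := by rw [div_le_one hn]; linarith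
        linarith
      have h2 := one_add_mul_le_pow h1 K
      have h3 : n * (1 + -((κ + β) / n)) ≤ N := by
        have : n * (1 + -((κ + β) / n)) = n - (κ + β) := by field_simp; ring
        rw [this]; linarith
      have h4 : 0 ≤ 1 + -((κ + β) / n) := by
        have : (κ + β) / n ≤ 1 := by rw [div_le_one hn]; linarith
        linarith
      calc n ^ K * (1 - k * ((κ + β) / n)) = n ^ K * (1 + K * (-((κ + β) / n))) := by rw [hk]; ring
        _ ≤ n ^ K * (1 + -((κ + β) / n)) ^ K := mul_le_mul_of_nonneg_left h2 (by positivity)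
        _ = (n * (1 + -((κ + β) / n))) ^ K := by rw [mul_pow]
        _ ≤ N ^ K := pow_le_pow_left₀ (by positivity) h3 K
    calc n ^ K * (k * n / 2 - e) = n ^ K * (Y - k ^ 2 * (κ + β) / 2) := by rw [hY]; ring
      _ ≤ n ^ K * (Y - k * ((κ + β) / n) * Y) := by
          apply mul_le_mul_of_nonneg_left _ (by positivity)
          have : k * ((κ + β) / n) * Y ≤ k * ((κ + β) / n) * (k * n / 2) :=
            mul_le_mul_of_nonneg_left hYn (by positivity)
          have e2 : k * ((κ + β) / n) * (k * n / 2) = k ^ 2 * (κ + β) / 2 := by field_simp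
          linarith
      _ = n ^ K * (1 - k * ((κ + β) / n)) * Y := by ring
      _ ≤ N ^ K * Y := mul_le_mul_of_nonneg_right hbern hY0
      _ ≤ N ^ K * X0 := mul_le_mul_of_nonneg_left hXY (by positivity)
      _ ≤ A := h

/-- TUPLOW -/
theorem tup_low (h : Near M β W0) (P : Path M) (ht : Fintype.card Q ≤ M.V {P.ρ P.L} + β)
    (K : ℕ) (hK : 1 ≤ K) (hW : K * Fintype.card Q ≤ W0) (κ t : ℕ) (ht1 : 1 ≤ t) (hκ : 2 ≤ κ)
    (hκβ : β ≤ κ) (hκn : 4 * κ ≤ Fintype.card Q) :
    (Fintype.card Q : ℝ) ^ K * ((K : ℝ) * Fintype.card Q / 2 -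
      errT (Fintype.card Q) β κ t K) ≤ ∑ R : Fin K → Q, (M.V (univ.image R) : ℝ) := by
  classical
  have hL := P.le_L β ht
  have hLn := P.L_le
  have hβ1 := h.one
  obtain ⟨N, hN⟩ : ∃ N, N + κ = P.L := ⟨P.L - κ, by omega⟩
  obtain ⟨S, hS1, hS2, hS3⟩ := h.good (N + 1) (by omega) (by omega)
  have hhS : ∀ q ∈ S, (N + 1) - β ≤ M.V {q} := by
    intro q hq
    have := hS3 {q} (singleton_subset_iff.2 hq) (singleton_nonempty q)
    simpa using this
  have hTr : ∀ w : List A, ∃ B : Finset Q, Set.InjOn (M.mv w) (B : Set Q) ∧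
      (w.length ≤ W0 → Fintype.card Q ≤ B.card + β) := by
    intro w
    by_cases hw : w.length ≤ W0
    · obtain ⟨B, _, hB2, hB3⟩ := h.transv w hw univ
      exact ⟨B, hB3, fun _ => by rwa [card_univ] at hB2⟩
    · exact ⟨∅, by simp, fun hc => absurd hc hw⟩
  choose Tr hTr1 hTr2 using hTr
  set Z : Finset (ℕ × ℕ) := Icc (N + 1) P.L ×ˢ Icc 1 N with hZ
  set good : (Fin K → ℕ × ℕ) → Prop := fun z =>
      ((∀ j : Fin K, P.ρ (z j).1 ∈ S.image (M.mv (P.wds ((List.ofFn z).take j)))) ∧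
        (∀ i j : Fin K, i < j → P.ρ (z j).1 ≠
          M.mv (P.wds (((List.ofFn z).take j).drop (i + 1))) (P.ρ (z i).2)) ∧
        (∀ i : Fin K, P.ρ (z i).2 ∈ Tr (P.wds ((List.ofFn z).drop (i + 1))))) with hgood
  have hbad := tup_bad h P ht Tr hTr2 K hW κ N t (by omega) (by omega) hN (by omega) S hS2 hhS
  have hbad' : (((Fintype.piFinset (fun _ : Fin K => Z)).filter fun z => ¬ good z).card : ℝ) ≤
      ((κ : ℝ) * N) ^ K * (K * β / N + K * (2 * K * t + (K + 4) * β + 1 + K) / κ +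
        K ^ 2 * (∑ s ∈ Icc 1 P.L, (P.E t s : ℝ)) / κ ^ 2) := by
    convert hbad
  have hzZ : ∀ z ∈ Fintype.piFinset (fun _ : Fin K => Z), ∀ i,
      1 ≤ (z i).2 ∧ (z i).2 ≤ N ∧ N + 1 ≤ (z i).1 ∧ (z i).1 ≤ P.L := by
    intro z hz i
    rw [Fintype.mem_piFinset] at hz
    have := hz i
    rw [hZ, mem_product, mem_Icc, mem_Icc] at this
    omega
  -- lower bound for good tuples
  have hlow : ∀ z ∈ (Fintype.piFinset (fun _ : Fin K => Z)).filter good,
      (∑ i, ((z i).2 : ℝ)) - K * (κ + β) ≤ (M.V (univ.image (P.tup z)) : ℝ) := by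
    intro z hz
    rw [mem_filter] at hz
    have h1 := tup_val P K hK S (N + 1 - β) hS3 z
      (fun i => by have := hzZ z hz.1 i; omega) hz.2.1 hz.2.2.1
    have h2 : ∑ i, (z i).1 ≤ K * P.L := by
      have := sum_le_card_nsmul (univ : Finset (Fin K)) (fun i => (z i).1) P.L
        (fun i _ => (hzZ z hz.1 i).2.2.2)
      simpa using this
    have h3 : ((K : ℝ) * (N + 1 - β) + ∑ i, ((z i).2 : ℝ)) ≤
        (M.V (univ.image (P.tup z)) : ℝ) + K * (N + κ) := by
      have e1 : ((N + 1 - β : ℕ) : ℝ) = (N : ℝ) + 1 - β := by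
        rw [Nat.cast_sub (by omega)]; push_cast; ring
      have h4 : K * (N + 1 - β) + ∑ i, (z i).2 ≤ M.V (univ.image (P.tup z)) + K * (N + κ) := by
        rw [hN]; omega
      have h5 : ((K * (N + 1 - β) + ∑ i, (z i).2 : ℕ) : ℝ) ≤
          ((M.V (univ.image (P.tup z)) + K * (N + κ) : ℕ) : ℝ) := by exact_mod_cast h4
      push_cast at h5
      rw [e1] at h5
      exact h5
    have hK0 : (0 : ℝ) ≤ K := Nat.cast_nonneg _
    nlinarith
  -- injection
  set g : (Fin K → ℕ × ℕ) → (Fin K → ℕ) × (Fin K → Q) := fun z => (fun i => (z i).1, P.tup z)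
    with hg
  have hginj : Set.InjOn g ((Fintype.piFinset (fun _ : Fin K => Z)).filter good :
      Set (Fin K → ℕ × ℕ)) := by
    intro z hz z' hz' he
    rw [mem_coe, mem_filter] at hz hz'
    rw [hg, Prod.mk.injEq] at he
    have hz2 := hz.2
    have hz2' := hz'.2
    exact tup_inj P Tr hTr1 K z z' (fun i => congrFun he.1 i)
      (fun i => by have := hzZ z hz.1 i; omega) (fun i => by have := hzZ z' hz'.1 i; omega)
      hz2.2.2 hz2'.2.2 he.2
  have hup : ∑ z ∈ (Fintype.piFinset (fun _ : Fin K => Z)).filter good,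
      (M.V (univ.image (P.tup z)) : ℝ) ≤
      (κ : ℝ) ^ K * ∑ R : Fin K → Q, (M.V (univ.image R) : ℝ) := by
    have e1 : ∑ z ∈ (Fintype.piFinset (fun _ : Fin K => Z)).filter good,
        (M.V (univ.image (P.tup z)) : ℝ) =
        ∑ w ∈ ((Fintype.piFinset (fun _ : Fin K => Z)).filter good).image g,
          (M.V (univ.image w.2) : ℝ) := by
      rw [sum_image hginj]
    rw [e1]
    have e2 : ((Fintype.piFinset (fun _ : Fin K => Z)).filter good).image g ⊆
        (Fintype.piFinset (fun _ : Fin K => Icc (N + 1) P.L)) ×ˢ (univ : Finset (Fin K → Q)) := by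
      intro w hw
      rw [mem_image] at hw
      obtain ⟨z, hz, rfl⟩ := hw
      rw [mem_filter] at hz
      rw [mem_product, Fintype.mem_piFinset]
      refine ⟨fun i => ?_, mem_univ _⟩
      have := hzZ z hz.1 i
      rw [mem_Icc]
      exact this.2.2
    refine (sum_le_sum_of_subset_of_nonneg e2 fun w _ _ => Nat.cast_nonneg _).trans (le_of_eq ?_)
    rw [sum_product]
    show ∑ x ∈ Fintype.piFinset (fun _ : Fin K => Icc (N + 1) P.L),
      ∑ R : Fin K → Q, (M.V (univ.image R) : ℝ) = _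
    rw [sum_const, Fintype.card_piFinset_const, Nat.card_Icc, nsmul_eq_mul]
    have e3 : P.L + 1 - (N + 1) = κ := by omega
    rw [e3]
    push_cast
    rfl
  -- the sum over all tuples
  have hZc : (Z.card : ℝ) = κ * N := by
    rw [hZ, card_product, Nat.card_Icc, Nat.card_Icc]
    have e1 : P.L + 1 - (N + 1) = κ := by omega
    have e2 : N + 1 - 1 = N := by omega
    rw [e1, e2]
    push_cast
    ring
  have hNpos : 1 ≤ N := by omega
  have hκr : (0 : ℝ) < κ := by
    have : (2 : ℝ) ≤ κ := by exact_mod_cast hκ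
    linarith
  have hNr : (0 : ℝ) < N := by
    have : (1 : ℝ) ≤ N := by exact_mod_cast hNpos
    linarith
  have hall : ∑ z ∈ Fintype.piFinset (fun _ : Fin K => Z), ((∑ i, ((z i).2 : ℝ)) - K * (κ + β)) =
      ((κ : ℝ) * N) ^ K * (K * (N + 1) / 2 - K * (κ + β)) := by
    rw [sum_sub_distrib, sum_const, Fintype.card_piFinset_const, nsmul_eq_mul, sum_comm]
    push_cast
    rw [hZc]
    have e1 : ∀ i : Fin K, ∑ z ∈ Fintype.piFinset (fun _ : Fin K => Z), ((z i).2 : ℝ) =
        ((κ : ℝ) * N) ^ K * ((N + 1) / 2) := by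
      intro i
      have h1 := Fintype.sum_piFinset_apply (fun u : ℕ × ℕ => (u.2 : ℝ)) Z i
      rw [h1, Fintype.card_fin, nsmul_eq_mul]
      push_cast
      rw [hZc]
      have h2 : ∑ u ∈ Z, (u.2 : ℝ) = κ * (N * (N + 1) / 2) := by
        rw [hZ, sum_product]
        show ∑ x ∈ Icc (N + 1) P.L, ∑ y ∈ Icc 1 N, (y : ℝ) = _
        rw [sum_const, Nat.card_Icc, nsmul_eq_mul]
        have e3 : P.L + 1 - (N + 1) = κ := by omega
        rw [e3, l2_sum_id]
      rw [h2]
      obtain ⟨K', rfl⟩ : ∃ K', K = K' + 1 := ⟨K - 1, by omega⟩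
      rw [Nat.add_sub_cancel, pow_succ]
      ring
    rw [sum_congr rfl (fun i _ => e1 i), sum_const, card_univ, Fintype.card_fin, nsmul_eq_mul]
    ring
  have hsplit := sum_filter_add_sum_filter_not (Fintype.piFinset (fun _ : Fin K => Z)) good
    (fun z => (∑ i, ((z i).2 : ℝ)) - K * (κ + β))
  have hbadsum : ∑ z ∈ (Fintype.piFinset (fun _ : Fin K => Z)).filter (fun z => ¬ good z),
      ((∑ i, ((z i).2 : ℝ)) - K * (κ + β)) ≤
      (((Fintype.piFinset (fun _ : Fin K => Z)).filter fun z => ¬ good z).card : ℝ) *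
        (K * Fintype.card Q) := by
    refine (sum_le_card_nsmul _ _ ((K : ℝ) * Fintype.card Q) ?_).trans
      (le_of_eq (nsmul_eq_mul _ _))
    intro z hz
    rw [mem_filter] at hz
    have h1 : ∑ i, (z i).2 ≤ K * Fintype.card Q := by
      have := sum_le_card_nsmul (univ : Finset (Fin K)) (fun i => (z i).2) (Fintype.card Q)
        (fun i _ => by have := hzZ z hz.1 i; omega)
      simpa using this
    have h2 : (∑ i, ((z i).2 : ℝ)) ≤ K * Fintype.card Q := by exact_mod_cast h1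
    have h3 : (0 : ℝ) ≤ K * (κ + β) := by positivity
    linarith
  have hgoodsum := sum_le_sum hlow
  set b : ℝ := (K * β / N + K * (2 * K * t + (K + 4) * β + 1 + K) / κ +
        K ^ 2 * (∑ s ∈ Icc 1 P.L, (P.E t s : ℝ)) / κ ^ 2) with hb
  have hKn : (0 : ℝ) ≤ K * Fintype.card Q := by positivity
  have hbb := mul_le_mul_of_nonneg_right hbad' hKn
  have hmain : ((κ : ℝ) * N) ^ K * (K * (N + 1) / 2 - K * (κ + β) -
      K * Fintype.card Q * b) ≤ (κ : ℝ) ^ K * ∑ R : Fin K → Q, (M.V (univ.image R) : ℝ) := by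
    have : ((κ : ℝ) * N) ^ K * (K * (N + 1) / 2 - K * (κ + β) - K * Fintype.card Q * b) =
        ((κ : ℝ) * N) ^ K * (K * (N + 1) / 2 - K * (κ + β)) -
        ((κ : ℝ) * N) ^ K * b * (K * Fintype.card Q) := by ring
    rw [this]
    linarith
  rw [mul_pow, mul_assoc] at hmain
  have hmain' := le_of_mul_le_mul_left hmain (pow_pos hκr K)
  have hn : (4 : ℝ) * κ ≤ Fintype.card Q := by exact_mod_cast hκn
  apply tup_low_num (∑ R : Fin K → Q, (M.V (univ.image R) : ℝ)) (Fintype.card Q) N β κ t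
    (∑ s ∈ Icc 1 P.L, (P.E t s : ℝ)) K hK (by positivity) (by exact_mod_cast hβ1)
    (by exact_mod_cast ht1) (by exact_mod_cast hκ) (by exact_mod_cast hκβ) hn ?_ (by positivity)
    (sum_E h (by nlinarith) P ht t) hmain'
  have : Fintype.card Q ≤ N + κ + β := by omega
  exact_mod_cast this

end MortUB
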