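import Pool.Agent.Lib.MP_e1e800_lc_UB.NearL
import Pool.Agent.Lib.MP_e1e800_lc_UB.PathL

/-!
# MP_e1e800_lc, project UB: tuples: the cost
-/

namespace MortUB

open Finset

variable {Q A : Type} [DecidableEq Q] [Fintype Q] {M : Sys Q A}

theorem drop_eq_cons (P : Path M) {K : ℕ} (z : Fin K → ℕ × ℕ) (j : Fin K) :
    P.wds ((List.ofFn z).drop j) = P.wd (z j).1 (z j).2 ++ P.wds ((List.ofFn z).drop (j + 1)) := by
  have h : (List.ofFn z).drop j = z j :: (List.ofFn z).drop (j + 1) := by
    rw [List.drop_eq_getElem_cons (by simp)]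
    simp
  rw [h, P.wds_cons]

theorem take_split (P : Path M) {K : ℕ} (z : Fin K → ℕ × ℕ) (i j : Fin K) (hij : i < j) :
    P.wds ((List.ofFn z).take j) = P.wds ((List.ofFn z).take i) ++ (P.wd (z i).1 (z i).2 ++
      P.wds (((List.ofFn z).take j).drop (i + 1))) := by
  have h1 : (List.ofFn z).take j = ((List.ofFn z).take j).take i ++ ((List.ofFn z).take j).drop i :=
    (List.take_append_drop _ _).symm
  have h2 : ((List.ofFn z).take j).take i = (List.ofFn z).take i := by
    rw [List.take_take]
    congr 1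
    have : i.1 < j.1 := hij
    omega
  have h3 : ((List.ofFn z).take j).drop i = z i :: ((List.ofFn z).take j).drop (i + 1) := by
    rw [List.drop_eq_getElem_cons (by
      rw [List.length_take, List.length_ofFn]
      have : i.1 < j.1 := hij
      have := j.2
      omega)]
    simp
  rw [h1, P.wds_append, h2]
  congr 1
  rw [h3, P.wds_cons]
  congr 1
  congr 1
  rw [← h3, ← h2, List.take_append_drop]

/-- TUPVAL: the cost of the tuple of `K` independent words. -/
theorem tup_val (P : Path M) (K : ℕ) (hK : 1 ≤ K) (S : Finset Q) (μ : ℕ)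
    (hS : ∀ T : Finset Q, T ⊆ S → T.Nonempty → μ * T.card ≤ M.V T) (z : Fin K → ℕ × ℕ)
    (hz : ∀ i, 1 ≤ (z i).2 ∧ (z i).2 ≤ (z i).1 ∧ (z i).1 ≤ P.L)
    (hc : ∀ j : Fin K, P.ρ (z j).1 ∈ S.image (M.mv (P.wds ((List.ofFn z).take j))))
    (hd : ∀ i j : Fin K, i < j → P.ρ (z j).1 ≠
      M.mv (P.wds (((List.ofFn z).take j).drop (i + 1))) (P.ρ (z i).2)) :
    K * μ + ∑ i, (z i).2 ≤ M.V (univ.image (P.tup z)) + ∑ i, (z i).1 := by
  have h1 : ∀ j : Fin K, ∃ t ∈ S, M.mv (P.wds ((List.ofFn z).take j)) t = P.ρ (z j).1 := by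
    intro j
    have := hc j
    rwa [mem_image] at this
  choose t htS ht using h1
  have hne : ∀ i j : Fin K, i < j → t i ≠ t j := by
    intro i j hij he
    apply hd i j hij
    rw [← ht j, ← he, take_split P z i j hij, M.mv_append, ht i, M.mv_append,
      P.mv_wd _ _ (hz i).1 (hz i).2.1 (hz i).2.2]
  have hinj : Function.Injective t := by
    intro i j he
    by_contra hcon
    rcases lt_or_gt_of_ne hcon with h | h
    · exact hne i j h he
    · exact hne j i h he.symm
  have hcard : (univ.image t).card = K := by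
    rw [card_image_of_injective _ hinj, card_univ, Fintype.card_fin]
  have h2 := hS (univ.image t) (by
    intro q hq
    rw [mem_image] at hq
    obtain ⟨j, _, rfl⟩ := hq
    exact htS j) (by
    rw [← card_pos, hcard]
    omega)
  rw [hcard] at h2
  have h3 := M.V_mv (P.wds (List.ofFn z)) (univ.image t)
  rw [image_image] at h3
  have h4 : M.mv (P.wds (List.ofFn z)) ∘ t = P.tup z := by
    funext j
    have e1 : P.wds (List.ofFn z) = P.wds ((List.ofFn z).take j) ++
        (P.wd (z j).1 (z j).2 ++ P.wds ((List.ofFn z).drop (j + 1))) := by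
      rw [← drop_eq_cons, ← P.wds_append, List.take_append_drop]
    show M.mv (P.wds (List.ofFn z)) (t j) = P.tup z j
    rw [e1, M.mv_append, ht j, M.mv_append, P.mv_wd _ _ (hz j).1 (hz j).2.1 (hz j).2.2]
    rfl
  rw [h4] at h3
  have h5 : (P.wds (List.ofFn z)).length + ∑ i, (z i).2 = ∑ i, (z i).1 := by
    have e : ∀ l : List (ℕ × ℕ), (P.wds l).length = (l.map fun p => p.1 - p.2).sum := by
      intro l
      induction l with
      | nil => rfl
      | cons p l ih => rw [P.wds_cons, List.length_append, P.wd_length, ih, List.map_cons,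
          List.sum_cons]
    rw [e, List.map_ofFn, List.sum_ofFn, ← sum_add_distrib]
    apply sum_congr rfl
    intro i _
    have := (hz i).2.1
    show (z i).1 - (z i).2 + (z i).2 = (z i).1
    omega
  rw [mul_comm K μ]
  omega

end MortUB
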